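import Pool.Agent.EPS.Stmts

/-!
# Bonferroni inequalities (helper78)
-/

set_option autoImplicit false

namespace Pool.Agent.EPS.BonfAux

open Finset

/-- elementary symmetric sums -/
noncomputable def esy (S : Finset ℕ) (j : ℕ) (x : ℕ → ℝ) : ℝ :=
  ∑ D ∈ S.powersetCard j, ∏ i ∈ D, x i

theorem esy_zero (S : Finset ℕ) (x : ℕ → ℝ) : esy S 0 x = 1 := by
  simp [esy]

theorem esy_nonneg (S : Finset ℕ) (j : ℕ) (x : ℕ → ℝ) (hx : ∀ i ∈ S, 0 ≤ x i) : 0 ≤ esy S j x := by
  refine sum_nonneg fun D hD => prod_nonneg fun i hi => hx i ?_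
  exact (mem_powersetCard.1 hD).1 hi

theorem esy_insert (S : Finset ℕ) (j : ℕ) (x : ℕ → ℝ) (i : ℕ) (hi : i ∉ S) :
    esy (insert i S) (j + 1) x = esy S (j + 1) x + x i * esy S j x := by
  unfold esy
  rw [powersetCard_succ_insert hi, sum_union, sum_image, mul_sum]
  · congr 1
    refine sum_congr rfl fun D hD => ?_
    rw [prod_insert]
    intro h
    exact hi ((mem_powersetCard.1 hD).1 h)
  · intro D hD D' hD' h
    have h1 : i ∉ D := fun h => hi ((mem_powersetCard.1 hD).1 h)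
    have h2 : i ∉ D' := fun h => hi ((mem_powersetCard.1 hD').1 h)
    have := congrArg (fun T => erase T i) h
    simpa [erase_insert h1, erase_insert h2] using this
  · rw [disjoint_left]
    intro D hD hD'
    rw [mem_image] at hD'
    obtain ⟨D1, -, rfl⟩ := hD'
    exact hi ((mem_powersetCard.1 hD).1 (mem_insert_self _ _))

theorem TIE_eq (S : Finset ℕ) (r : ℕ) (x : ℕ → ℝ) :
    TIE S r x = ∑ j ∈ range (r + 1), (-1 : ℝ) ^ j * esy S j x := by
  unfold TIE esy
  have h : Sub S r = (range (r + 1)).biUnion (fun j => S.powersetCard j) := by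
    ext D
    simp only [Sub, mem_filter, mem_powerset, mem_biUnion, mem_range, mem_powersetCard]
    constructor
    · rintro ⟨h1, h2⟩
      exact ⟨D.card, by omega, h1, rfl⟩
    · rintro ⟨j, h1, h2, h3⟩
      exact ⟨h2, by omega⟩
  rw [h, sum_biUnion]
  · refine sum_congr rfl fun j _ => ?_
    rw [mul_sum]
    refine sum_congr rfl fun D hD => ?_
    rw [(mem_powersetCard.1 hD).2]
  · intro a _ b _ hab
    rw [Function.onFun, disjoint_left]
    intro D h1 h2
    exact hab ((mem_powersetCard.1 h1).2.symm.trans (mem_powersetCard.1 h2).2)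

theorem TIE_zero (S : Finset ℕ) (x : ℕ → ℝ) : TIE S 0 x = 1 := by
  rw [TIE_eq]; simp [esy_zero]

theorem TIE_succ (S : Finset ℕ) (r : ℕ) (x : ℕ → ℝ) :
    TIE S (r + 1) x = TIE S r x + (-1 : ℝ) ^ (r + 1) * esy S (r + 1) x := by
  rw [TIE_eq, TIE_eq, sum_range_succ _ (r + 1)]

theorem TIE_insert (S : Finset ℕ) (r : ℕ) (x : ℕ → ℝ) (i : ℕ) (hi : i ∉ S) :
    TIE (insert i S) (r + 1) x = TIE S (r + 1) x - x i * TIE S r x := by
  induction r with
  | zero =>
    rw [TIE_succ, TIE_zero, TIE_succ, TIE_zero, esy_insert _ _ _ _ hi, esy_zero]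
    simp only [zero_add, pow_one]; ring
  | succ r ih =>
    rw [TIE_succ, ih, TIE_succ S (r + 1), TIE_succ S r, esy_insert _ _ _ _ hi]
    ring

theorem TIE_empty (r : ℕ) (x : ℕ → ℝ) : TIE ∅ r x = 1 := by
  induction r with
  | zero => exact TIE_zero _ _
  | succ r ih =>
    rw [TIE_succ, ih, esy]
    have : (∅ : Finset ℕ).powersetCard (r + 1) = ∅ := by
      rw [powersetCard_eq_empty]; simp
    rw [this]; simp

theorem bonf_sign (S : Finset ℕ) (x : ℕ → ℝ) (hx : ∀ i ∈ S, 0 ≤ x i ∧ x i ≤ 1) :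
    ∀ r : ℕ, 0 ≤ (-1 : ℝ) ^ r * (TIE S r x - ∏ i ∈ S, (1 - x i)) := by
  induction S using Finset.induction_on with
  | empty => intro r; rw [TIE_empty]; simp
  | insert i S hi ih =>
    have ihS := ih (fun j hj => hx j (mem_insert_of_mem hj))
    have hxi := hx i (mem_insert_self _ _)
    intro r
    cases r with
    | zero =>
      rw [TIE_zero]
      have : ∏ j ∈ insert i S, (1 - x j) ≤ 1 := by
        refine prod_le_one (fun j hj => by linarith [(hx j hj).2]) (fun j hj => by linarith [(hx j hj).1])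
      simp; exact this
    | succ r =>
      rw [TIE_insert _ _ _ _ hi, prod_insert hi]
      have h1 := ihS (r + 1)
      have h2 := ihS r
      have e : (-1 : ℝ) ^ (r + 1) * (TIE S (r + 1) x - x i * TIE S r x - (1 - x i) * ∏ j ∈ S, (1 - x j))
          = (-1 : ℝ) ^ (r + 1) * (TIE S (r + 1) x - ∏ j ∈ S, (1 - x j))
            + x i * ((-1 : ℝ) ^ r * (TIE S r x - ∏ j ∈ S, (1 - x j))) := by
        rw [pow_succ]; ring
      rw [e]
      exact add_nonneg h1 (mul_nonneg hxi.1 h2)

theorem _root_.Pool.Agent.EPS.Bonf_proof : Stmt_Bonf := by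
  intro S r x hx hr
  have h1 := bonf_sign S x hx r
  rw [hr.neg_one_pow, one_mul] at h1
  refine ⟨by linarith, ?_⟩
  cases r with
  | zero =>
    rw [TIE_zero]
    have h3 : 0 ≤ ∏ i ∈ S, (1 - x i) := prod_nonneg fun j hj => by linarith [(hx j hj).2]
    have h4 : ∑ D ∈ S.powersetCard 0, ∏ i ∈ D, x i = 1 := esy_zero S x
    rw [h4]; linarith
  | succ r =>
    have h2 := bonf_sign S x hx r
    have hr' : (-1 : ℝ) ^ r = -1 := by
      have := hr.neg_one_pow (α := ℝ)
      rw [pow_succ] at this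
      linarith
    rw [hr'] at h2
    rw [TIE_succ, hr.neg_one_pow]
    have : esy S (r + 1) x = ∑ D ∈ S.powersetCard (r + 1), ∏ i ∈ D, x i := rfl
    rw [← this]
    linarith

end Pool.Agent.EPS.BonfAux
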