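import Pool.Agent.EPS.VNonneg

/-!
# The bottom of the descent (helper78)
-/

set_option autoImplicit false

namespace Pool.Agent.EPS.BottomAux

open Finset

theorem ind_nonneg (p n : ℕ) : 0 ≤ ind p n := by
  unfold ind; split_ifs <;> norm_num

theorem ind_le_one (p n : ℕ) : ind p n ≤ 1 := by
  unfold ind; split_ifs <;> norm_num

theorem F_nonneg (l0 X y n : ℕ) : 0 ≤ F l0 X y n := by
  unfold F; split_ifs <;> norm_num

theorem F_le_one (l0 X y n : ℕ) : F l0 X y n ≤ 1 := by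
  unfold F; split_ifs <;> norm_num

theorem mem_PrI {a b p : ℕ} : p ∈ PrI a b ↔ (a < p ∧ p ≤ b) ∧ p.Prime := by
  simp [PrI]

/-- pointwise bound -/
theorem pointwise (w r l0 X : ℕ) (hr : Even r)
    (hrep : ∀ n, l0 ≤ n → n < X → ∃ p ∈ PrI 0 (Nat.sqrt X), n % p ^ 2 < p) (n : ℕ) :
    V w r n * F l0 X w n ≤ ∑ D ∈ (PrI 0 w).powersetCard r, indD D n := by
  have hb := (Bonf_proof (PrI 0 w) r (fun p => ind p n)
    (fun i _ => ⟨ind_nonneg _ _, ind_le_one _ _⟩) hr).2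
  have he : 0 ≤ ∑ D ∈ (PrI 0 w).powersetCard r, indD D n :=
    sum_nonneg fun D _ => prod_nonneg fun p _ => ind_nonneg _ _
  by_cases hF : F l0 X w n = 0
  · rw [hF, mul_zero]; exact he
  · have hcond : l0 ≤ n ∧ n < X ∧ ∀ p ∈ PrI w (Nat.sqrt X), ¬ (n % p ^ 2 < p) := by
      by_contra h
      exact hF (if_neg h)
    obtain ⟨h1, h2, h3⟩ := hcond
    obtain ⟨p, hp, hpn⟩ := hrep n h1 h2
    rw [mem_PrI] at hp
    have hpw : p ≤ w := by
      by_contra hlt
      push Not at hlt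
      exact h3 p (mem_PrI.2 ⟨⟨hlt, hp.1.2⟩, hp.2⟩) hpn
    have hz : ∏ i ∈ PrI 0 w, (1 - ind i n) = 0 := by
      refine prod_eq_zero (i := p) (mem_PrI.2 ⟨⟨hp.1.1, hpw⟩, hp.2⟩) ?_
      unfold ind
      rw [if_pos hpn]; ring
    have hb' : V w r n ≤ ∑ D ∈ (PrI 0 w).powersetCard r, indD D n := by
      have : V w r n ≤ ∏ i ∈ PrI 0 w, (1 - ind i n) + ∑ D ∈ (PrI 0 w).powersetCard r, indD D n := hb
      rw [hz, zero_add] at this
      exact this
    calc V w r n * F l0 X w n ≤ (∑ D ∈ (PrI 0 w).powersetCard r, indD D n) * F l0 X w n :=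
          mul_le_mul_of_nonneg_right hb' (F_nonneg _ _ _ _)
      _ ≤ (∑ D ∈ (PrI 0 w).powersetCard r, indD D n) * 1 :=
          mul_le_mul_of_nonneg_left (F_le_one _ _ _ _) he
      _ = _ := mul_one _

theorem _root_.Pool.Agent.EPS.Bottom_proof (hE : Stmt_Esym) (hPF : Stmt_PFIndD) (hC : Stmt_PFCount)
    (hP : Stmt_PrimeSum) : Stmt_Bottom := by
  intro w r l0 X hr hw hrep
  unfold mass
  calc ∑ n ∈ range X, V w r n * F l0 X w n
      ≤ ∑ n ∈ range X, ∑ D ∈ (PrI 0 w).powersetCard r, indD D n :=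
        sum_le_sum fun n _ => pointwise w r l0 X hr hrep n
    _ = ∑ D ∈ (PrI 0 w).powersetCard r, ∑ n ∈ range X, indD D n := sum_comm
    _ ≤ ∑ D ∈ (PrI 0 w).powersetCard r, ((X : ℝ) * ∏ p ∈ D, (1 : ℝ) / p + ∏ p ∈ D, (p : ℝ)) := by
        refine sum_le_sum fun D hD => ?_
        have hDp : ∀ p ∈ D, p.Prime := fun p hp => (mem_PrI.1 ((mem_powersetCard.1 hD).1 hp)).2
        have h1 := hC _ _ _ (hPF D hDp) 0 X (Nat.zero_le _)
        rw [← Finset.range_eq_Ico] at h1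
        have hpos : (0 : ℝ) < ∏ p ∈ D, (p : ℝ) :=
          prod_pos fun p hp => by exact_mod_cast (hDp p hp).pos
        have h2 := (abs_le.1 h1).2
        have h3 : ((X : ℝ) - (0 : ℕ)) * (∏ p ∈ D, (p : ℝ)) / (((∏ p ∈ D, p) ^ 2 : ℕ) : ℝ)
            = X * ∏ p ∈ D, (1 : ℝ) / p := by
          rw [prod_div_distrib, prod_const_one]
          push_cast
          field_simp
          ring
        rw [h3] at h2
        linarith
    _ = (X : ℝ) * ∑ D ∈ (PrI 0 w).powersetCard r, ∏ p ∈ D, (1 : ℝ) / p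
          + ∑ D ∈ (PrI 0 w).powersetCard r, ∏ p ∈ D, (p : ℝ) := by
        rw [sum_add_distrib, mul_sum]
    _ ≤ (X : ℝ) * ((sig 0 w) ^ r / (Nat.factorial r : ℝ)) + (w : ℝ) ^ (2 * r) := by
        refine add_le_add (mul_le_mul_of_nonneg_left ?_ (Nat.cast_nonneg _)) ?_
        · exact (hE (PrI 0 w) r (fun p => (1 : ℝ) / p) (fun i _ => by positivity)).2
        · refine le_trans ?_ (hP w r hw).1
          refine sum_le_sum_of_subset_of_nonneg ?_ (fun D _ _ => prod_nonneg fun p _ => by positivity)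
          intro D hD
          rw [mem_powersetCard] at hD
          simp only [Lam, Sub, mem_filter, mem_powerset]
          exact ⟨hD.1, hD.2.le⟩
    _ = _ := by ring

end Pool.Agent.EPS.BottomAux
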