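import Pool.Agent.EPS.Stmts

/-!
# EPS: `F` is locally constant away from few points (helper97)
-/

set_option autoImplicit false

namespace Pool.Agent.EPS

open Finset

namespace ChangeM

/-- the candidates for the change points of `F` -/
noncomputable def chB (l0 X y : ℕ) : Finset ℕ :=
  {l0, X} ∪ (PrI y (Nat.sqrt X)).biUnion (fun q =>
    (range (X / q ^ 2 + 1)).image (fun a => a * q ^ 2) ∪
      (range (X / q ^ 2 + 1)).image (fun a => a * q ^ 2 + q))

theorem hit_succ (q t : ℕ) (hq : 1 ≤ q) (h0 : (t + 1) % q ^ 2 ≠ 0) (h1 : (t + 1) % q ^ 2 ≠ q) :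
    ((t + 1) % q ^ 2 < q ↔ t % q ^ 2 < q) := by
  have hq2 : 0 < q ^ 2 := by positivity
  have hmod : t % q ^ 2 + 1 < q ^ 2 ∨ t % q ^ 2 + 1 = q ^ 2 := by
    have := Nat.mod_lt t hq2
    omega
  have e : (t + 1) % q ^ 2 = (t % q ^ 2 + 1) % q ^ 2 := by simp [Nat.add_mod]
  rcases hmod with h | h
  · rw [Nat.mod_eq_of_lt h] at e
    rw [e] at h0 h1 ⊢
    omega
  · rw [h, Nat.mod_self] at e
    exact absurd e h0

theorem mem_chB (l0 X y t : ℕ) (h : F l0 X y (t + 1) ≠ F l0 X y t) : t + 1 ∈ chB l0 X y := by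
  classical
  by_contra hn
  apply h
  unfold chB at hn
  simp only [mem_union, mem_insert, mem_singleton, mem_biUnion, mem_image, mem_range, not_or,
    not_exists, not_and] at hn
  obtain ⟨⟨h1, h2⟩, h3⟩ := hn
  unfold F
  by_cases hX : t < X
  · have hX' : t + 1 < X := by omega
    have hl : (l0 ≤ t + 1 ↔ l0 ≤ t) := by omega
    have hq : ∀ p ∈ PrI y (Nat.sqrt X), ((t + 1) % p ^ 2 < p ↔ t % p ^ 2 < p) := by
      intro p hp
      have hpp : p.Prime := by
        unfold PrI at hp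
        exact (mem_filter.mp hp).2
      have hp1 : 1 ≤ p := hpp.one_lt.le
      have hdiv : (t + 1) / p ^ 2 < X / p ^ 2 + 1 :=
        Nat.lt_succ_of_le (Nat.div_le_div_right (by omega))
      obtain ⟨h3a, h3b⟩ := h3 p hp
      apply hit_succ p t hp1
      · intro h0
        apply h3a ((t + 1) / p ^ 2) hdiv
        have := Nat.div_add_mod (t + 1) (p ^ 2)
        rw [h0] at this
        rw [mul_comm]
        omega
      · intro h0
        apply h3b ((t + 1) / p ^ 2) hdiv
        have := Nat.div_add_mod (t + 1) (p ^ 2)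
        rw [h0] at this
        rw [mul_comm]
        omega
    have e : (l0 ≤ t + 1 ∧ t + 1 < X ∧ ∀ p ∈ PrI y (Nat.sqrt X), ¬ ((t + 1) % p ^ 2 < p)) ↔
        (l0 ≤ t ∧ t < X ∧ ∀ p ∈ PrI y (Nat.sqrt X), ¬ (t % p ^ 2 < p)) := by
      constructor
      · rintro ⟨a, b, c⟩
        refine ⟨hl.mp a, hX, fun p hp => ?_⟩
        rw [← hq p hp]
        exact c p hp
      · rintro ⟨a, b, c⟩
        refine ⟨hl.mpr a, hX', fun p hp => ?_⟩
        rw [hq p hp]
        exact c p hp
    simp only [e]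
  · rw [if_neg (by rintro ⟨-, b, -⟩; omega), if_neg (by rintro ⟨-, b, -⟩; omega)]

theorem card_chB (l0 X y : ℕ) (hy : 1 ≤ y) (hX : 2 * y ≤ X) :
    ((chB l0 X y).card : ℝ) ≤ 5 * X / y := by
  classical
  have hy0 : (0 : ℝ) < y := by exact_mod_cast hy
  have hXy : (2 : ℝ) * y ≤ X := by exact_mod_cast hX
  have h1 : (chB l0 X y).card ≤ 2 + ∑ q ∈ PrI y (Nat.sqrt X), (2 * (X / q ^ 2 + 1)) := by
    unfold chB
    refine (card_union_le _ _).trans (Nat.add_le_add card_le_two ?_)
    refine card_biUnion_le.trans (sum_le_sum fun q hq => ?_)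
    refine (card_union_le _ _).trans ?_
    rw [two_mul]
    exact Nat.add_le_add (card_image_le.trans (by simp)) (card_image_le.trans (by simp))
  have h2 : ∀ q ∈ PrI y (Nat.sqrt X), (((2 * (X / q ^ 2 + 1) : ℕ) : ℝ)) ≤
      4 * X * ((q : ℝ) ^ 2)⁻¹ := by
    intro q hq
    have hq' : q ∈ Ioc y (Nat.sqrt X) := by
      unfold PrI at hq
      exact (mem_filter.mp hq).1
    rw [mem_Ioc] at hq'
    have hq0 : 0 < q := by omega
    have hqX : q ^ 2 ≤ X := by
      have := Nat.le_sqrt'.mp hq'.2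
      exact this
    have hpos : (0 : ℝ) < (q : ℝ) ^ 2 := by positivity
    have ha : ((X / q ^ 2 : ℕ) : ℝ) ≤ (X : ℝ) / (q : ℝ) ^ 2 := by
      have := @Nat.cast_div_le ℝ _ _ _ X (q ^ 2)
      push_cast at this
      exact this
    have hb : (1 : ℝ) ≤ (X : ℝ) / (q : ℝ) ^ 2 := by
      rw [le_div_iff₀ hpos, one_mul]
      exact_mod_cast hqX
    have e : 4 * (X : ℝ) * ((q : ℝ) ^ 2)⁻¹ = 4 * ((X : ℝ) / (q : ℝ) ^ 2) := by
      rw [div_eq_mul_inv]; ring
    rw [e]
    have : (((2 * (X / q ^ 2 + 1) : ℕ) : ℝ)) = 2 * (((X / q ^ 2 : ℕ) : ℝ) + 1) := by push_cast; ring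
    rw [this]
    linarith
  have h3 : ∑ q ∈ PrI y (Nat.sqrt X), ((q : ℝ) ^ 2)⁻¹ ≤ (y : ℝ)⁻¹ := by
    by_cases hle : y ≤ Nat.sqrt X
    · have ha : ∑ q ∈ PrI y (Nat.sqrt X), ((q : ℝ) ^ 2)⁻¹ ≤
          ∑ q ∈ Ioc y (Nat.sqrt X), ((q : ℝ) ^ 2)⁻¹ := by
        apply sum_le_sum_of_subset_of_nonneg
        · unfold PrI; exact filter_subset _ _
        · intro i _ _; positivity
      have hb := sum_Ioc_inv_sq_le_sub (α := ℝ) (k := y) (n := Nat.sqrt X) (by omega) hle
      have hc : (0 : ℝ) ≤ ((Nat.sqrt X : ℕ) : ℝ)⁻¹ := by positivity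
      linarith
    · have : PrI y (Nat.sqrt X) = ∅ := by
        unfold PrI
        rw [Ioc_eq_empty (by omega)]
        simp
      rw [this, sum_empty]
      positivity
  have h4 : ((chB l0 X y).card : ℝ) ≤ 2 + 4 * X * (y : ℝ)⁻¹ := by
    have : ((chB l0 X y).card : ℝ) ≤ 2 + ∑ q ∈ PrI y (Nat.sqrt X), (((2 * (X / q ^ 2 + 1) : ℕ) : ℝ)) := by
      exact_mod_cast h1
    have h5 := sum_le_sum h2
    rw [← mul_sum] at h5
    have h6 : 4 * (X : ℝ) * ∑ q ∈ PrI y (Nat.sqrt X), ((q : ℝ) ^ 2)⁻¹ ≤ 4 * X * (y : ℝ)⁻¹ :=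
      mul_le_mul_of_nonneg_left h3 (by positivity)
    linarith
  refine h4.trans ?_
  rw [le_div_iff₀ hy0]
  have : (2 + 4 * (X : ℝ) * (y : ℝ)⁻¹) * y = 2 * y + 4 * X := by
    field_simp
  rw [this]
  linarith

end ChangeM

open ChangeM in
/-- `F` is locally constant away from few points -/
theorem Change_proof : Stmt_Change := by
  intro l0 X y l hy hX
  classical
  have hsub : (range X).filter (fun m => ∃ h < l, F l0 X y (m + h) ≠ F l0 X y m) ⊆
      (chB l0 X y).biUnion (fun t => (range l).image (fun j => t - j)) := by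
    intro m hm
    rw [mem_filter] at hm
    obtain ⟨-, h, hl, hne⟩ := hm
    have hex : ∃ j < h, F l0 X y (m + (j + 1)) ≠ F l0 X y (m + j) := by
      by_contra hcon
      push Not at hcon
      apply hne
      have : ∀ i, i ≤ h → F l0 X y (m + i) = F l0 X y m := by
        intro i
        induction i with
        | zero => intro _; rfl
        | succ i ih =>
          intro hi
          rw [hcon i (by omega)]
          exact ih (by omega)
      exact this h le_rfl
    obtain ⟨j, hj, hne'⟩ := hex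
    rw [mem_biUnion]
    refine ⟨m + (j + 1), mem_chB l0 X y (m + j) hne', ?_⟩
    rw [mem_image]
    exact ⟨j + 1, mem_range.mpr (by omega), by omega⟩
  have hcard : ((range X).filter (fun m => ∃ h < l, F l0 X y (m + h) ≠ F l0 X y m)).card ≤
      (chB l0 X y).card * l := by
    refine (card_le_card hsub).trans ?_
    refine card_biUnion_le.trans ?_
    refine (sum_le_card_nsmul _ _ l fun t _ => ?_).trans (by simp)
    exact card_image_le.trans (by simp)
  have h1 := card_chB l0 X y hy hX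
  have h2 : (((range X).filter (fun m => ∃ h < l, F l0 X y (m + h) ≠ F l0 X y m)).card : ℝ) ≤
      ((chB l0 X y).card : ℝ) * l := by exact_mod_cast hcard
  have h3 : ((chB l0 X y).card : ℝ) * l ≤ (5 * X / y) * l :=
    mul_le_mul_of_nonneg_right h1 (by positivity)
  have h4 : (5 * (X : ℝ) / y) * l = 5 * l * X / y := by ring
  rw [h4] at h3
  convert h2.trans h3

end Pool.Agent.EPS
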