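import Mathlib

/-!
# Definitions for the disproof of Erdős' question on `n = a p^2 + b` (helper79)

`ind p n` is the indicator of `n mod p^2 < p`.  `V` is the (even order) truncated
inclusion-exclusion weight for the primes up to `w`, `F l0 X y` the indicator of
`l0 ≤ n < X` without hit by a prime in `(y, √X]`.
-/

set_option autoImplicit false

namespace Pool.Agent.EPS

open Finset

noncomputable section

/-- indicator of the event that `p` hits `n`, i.e. `n mod p^2 < p` -/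
def ind (p n : ℕ) : ℝ := if n % p ^ 2 < p then 1 else 0

/-- primes in `(a, b]` -/
def PrI (a b : ℕ) : Finset ℕ := (Ioc a b).filter Nat.Prime

/-- the sum of `1/p` over the primes in `(a, b]` -/
def sig (a b : ℕ) : ℝ := ∑ p ∈ PrI a b, (1 : ℝ) / p

/-- indicator that all members of `D` hit `n` -/
def indD (D : Finset ℕ) (n : ℕ) : ℝ := ∏ p ∈ D, ind p n

/-- subsets of `S` with at most `r` elements -/
def Sub (S : Finset ℕ) (r : ℕ) : Finset (Finset ℕ) := S.powerset.filter (fun D => D.card ≤ r)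

/-- truncated inclusion-exclusion sum -/
def TIE (S : Finset ℕ) (r : ℕ) (x : ℕ → ℝ) : ℝ :=
  ∑ D ∈ Sub S r, (-1 : ℝ) ^ D.card * ∏ i ∈ D, x i

/-- sets of at most `r` primes `≤ w` -/
def Lam (w r : ℕ) : Finset (Finset ℕ) := Sub (PrI 0 w) r

/-- the weight -/
def V (w r n : ℕ) : ℝ := TIE (PrI 0 w) r (fun p => ind p n)

/-- the mean value of the weight -/
def V0 (w r : ℕ) : ℝ := TIE (PrI 0 w) r (fun p => (1 : ℝ) / p)

/-- `∑_{D, D'} 1 / ∏ (D ∪ D')` -/
def MM (w r : ℕ) : ℝ := ∑ D ∈ Lam w r, ∑ D' ∈ Lam w r, ∏ p ∈ D ∪ D', (1 : ℝ) / p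

open Classical in
/-- indicator of `l0 ≤ n < X` with no hit by a prime in `(y, √X]` -/
def F (l0 X y n : ℕ) : ℝ :=
  if l0 ≤ n ∧ n < X ∧ ∀ p ∈ PrI y (Nat.sqrt X), ¬ (n % p ^ 2 < p) then 1 else 0

/-- weighted mass of the points without hit by a prime in `(y, √X]` -/
def mass (w r l0 X y : ℕ) : ℝ := ∑ n ∈ range X, V w r n * F l0 X y n

/-- centred number of hits by the primes of `(P, P']` -/
def G (P P' n : ℕ) : ℝ := ∑ p ∈ PrI P P', (ind p n - 1 / p)

/-- the bound of the second moment of `∑_{h < l} V (m+h) G (m+h)` -/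
def VarB (w r X P P' l : ℕ) : ℝ :=
  (l : ℝ) * (2 * l / P + P') * (2 * X * MM w r * sig P P' + 2 * (P' : ℝ) ^ 2 * (w : ℝ) ^ (4 * r))
    + 4 * (l : ℝ) ^ 2 * (P' : ℝ) ^ 4 * (w : ℝ) ^ (4 * r)

/-- A nonnegative function on `ℕ`, periodic modulo `q`, with sum `s` over a period. -/
structure PF (q : ℕ) (s : ℝ) (f : ℕ → ℝ) : Prop where
  pos : 0 < q
  nonneg : ∀ n, 0 ≤ f n
  per : ∀ n, f (n + q) = f n
  sum : ∑ n ∈ range q, f n = s

end

end Pool.Agent.EPS
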