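import Pool.Agent.EPS.Stmts

set_option autoImplicit false

namespace Pool.Agent.EPS

open Finset

namespace EsymAux

theorem sum_sub (S : Finset ℕ) (r : ℕ) (x : ℕ → ℝ) :
    ∑ D ∈ Sub S r, ∏ i ∈ D, x i = ∑ D ∈ S.powerset, if D.card ≤ r then ∏ i ∈ D, x i else 0 := by
  unfold Sub
  rw [Finset.sum_filter]

theorem sub_insert (S : Finset ℕ) (a : ℕ) (ha : a ∉ S) (r : ℕ) (x : ℕ → ℝ) :
    ∑ D ∈ Sub (insert a S) (r + 1), ∏ i ∈ D, x i =
      ∑ D ∈ Sub S (r + 1), ∏ i ∈ D, x i + x a * ∑ D ∈ Sub S r, ∏ i ∈ D, x i := by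
  rw [sum_sub, sum_sub, sum_sub, Finset.sum_powerset_insert ha, Finset.mul_sum]
  congr 1
  apply Finset.sum_congr rfl
  intro D hD
  have haD : a ∉ D := fun h => ha (Finset.mem_powerset.1 hD h)
  rw [Finset.card_insert_of_notMem haD, Finset.prod_insert haD]
  by_cases h : D.card ≤ r
  · rw [if_pos h, if_pos (by omega)]
  · rw [if_neg h, if_neg (by omega), mul_zero]

theorem sub_zero (S : Finset ℕ) (x : ℕ → ℝ) : ∑ D ∈ Sub S 0, ∏ i ∈ D, x i = 1 := by
  have : Sub S 0 = {∅} := by
    ext D
    simp only [Sub, Finset.mem_filter, Finset.mem_powerset, nonpos_iff_eq_zero,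
      Finset.card_eq_zero, Finset.mem_singleton]
    constructor
    · exact fun h => h.2
    · rintro rfl
      exact ⟨Finset.empty_subset _, rfl⟩
  rw [this]
  simp

theorem pc_insert (S : Finset ℕ) (a : ℕ) (ha : a ∉ S) (r : ℕ) (x : ℕ → ℝ) :
    ∑ D ∈ (insert a S).powersetCard (r + 1), ∏ i ∈ D, x i =
      ∑ D ∈ S.powersetCard (r + 1), ∏ i ∈ D, x i + x a * ∑ D ∈ S.powersetCard r, ∏ i ∈ D, x i := by
  simp only [Finset.powersetCard_eq_filter, Finset.sum_filter]
  rw [Finset.sum_powerset_insert ha, Finset.mul_sum]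
  congr 1
  apply Finset.sum_congr rfl
  intro D hD
  have haD : a ∉ D := fun h => ha (Finset.mem_powerset.1 hD h)
  rw [Finset.card_insert_of_notMem haD, Finset.prod_insert haD]
  by_cases h : D.card = r
  · rw [if_pos h, if_pos (by omega)]
  · rw [if_neg h, if_neg (by omega), mul_zero]

theorem pow_bound (s x : ℝ) (hs : 0 ≤ s) (hx : 0 ≤ x) (n : ℕ) :
    s ^ (n + 1) + (n + 1) * x * s ^ n ≤ (s + x) ^ (n + 1) := by
  induction n with
  | zero => simp
  | succ n ih =>
    have h1 : (s ^ (n + 1) + (n + 1) * x * s ^ n) * (s + x) ≤ (s + x) ^ (n + 1) * (s + x) := by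
      gcongr
    have h2 : (s ^ (n + 1) + (n + 1) * x * s ^ n) * (s + x) =
        s ^ (n + 2) + (n + 2) * x * s ^ (n + 1) + (n + 1) * x ^ 2 * s ^ n := by ring
    have h3 : 0 ≤ (n + 1 : ℝ) * x ^ 2 * s ^ n := by positivity
    rw [h2] at h1
    have h4 : (s + x) ^ (n + 1 + 1) = (s + x) ^ (n + 1) * (s + x) := pow_succ _ _
    rw [h4]
    push_cast
    have h5 : s ^ (n + 1 + 1) + ((n : ℝ) + 1 + 1) * x * s ^ (n + 1) =
      s ^ (n + 2) + (n + 2) * x * s ^ (n + 1) := by ring
    rw [h5]
    linarith

end EsymAux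

open EsymAux

theorem Esym_proof : Stmt_Esym := by
  intro S r x hx
  constructor
  · induction S using Finset.induction_on generalizing r with
    | empty =>
      have : Sub ∅ r = {∅} := by
        ext D
        simp only [Sub, Finset.mem_filter, Finset.powerset_empty, Finset.mem_singleton]
        constructor
        · exact fun h => h.1
        · rintro rfl
          exact ⟨rfl, by simp⟩
      rw [this]
      simp
    | insert a S ha ih =>
      have hxS : ∀ i ∈ S, 0 ≤ x i := fun i hi => hx i (Finset.mem_insert_of_mem hi)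
      have hxa : 0 ≤ x a := hx a (Finset.mem_insert_self _ _)
      have hs : 0 ≤ ∑ i ∈ S, x i := Finset.sum_nonneg hxS
      cases r with
      | zero => rw [EsymAux.sub_zero]; simp
      | succ r =>
        rw [sub_insert S a ha, Finset.sum_insert ha]
        have h1 := ih (r + 1) hxS
        have h2 := ih r hxS
        set s := ∑ i ∈ S, x i
        have h3 : (1 + s) ^ r ≤ (1 + (x a + s)) ^ r := by gcongr; linarith
        have h4 : (1 + s) ^ r * (1 + (x a + s)) ≤ (1 + (x a + s)) ^ r * (1 + (x a + s)) := by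
          gcongr
        have h5 : x a * ∑ D ∈ Sub S r, ∏ i ∈ D, x i ≤ x a * (1 + s) ^ r := by gcongr
        calc _ ≤ (1 + s) ^ (r + 1) + x a * (1 + s) ^ r := add_le_add h1 h5
          _ = (1 + s) ^ r * (1 + (x a + s)) := by ring
          _ ≤ (1 + (x a + s)) ^ r * (1 + (x a + s)) := h4
          _ = _ := (pow_succ _ _).symm
  · induction S using Finset.induction_on generalizing r with
    | empty =>
      cases r with
      | zero => simp
      | succ r =>
        rw [Finset.powersetCard_eq_empty.2 (by simp)]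
        simp
    | insert a S ha ih =>
      have hxS : ∀ i ∈ S, 0 ≤ x i := fun i hi => hx i (Finset.mem_insert_of_mem hi)
      have hxa : 0 ≤ x a := hx a (Finset.mem_insert_self _ _)
      have hs : 0 ≤ ∑ i ∈ S, x i := Finset.sum_nonneg hxS
      cases r with
      | zero => simp
      | succ r =>
        rw [pc_insert S a ha, Finset.sum_insert ha]
        have h1 := ih (r + 1) hxS
        have h2 := ih r hxS
        set s := ∑ i ∈ S, x i
        have h3 := pow_bound s (x a) hs hxa r
        have hf : (0 : ℝ) < (Nat.factorial (r + 1) : ℝ) := by exact_mod_cast Nat.factorial_pos _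
        have hf' : (0 : ℝ) < (Nat.factorial r : ℝ) := by exact_mod_cast Nat.factorial_pos _
        have h5 : x a * ∑ D ∈ S.powersetCard r, ∏ i ∈ D, x i ≤
            x a * (s ^ r / (Nat.factorial r : ℝ)) := by gcongr
        have h6 : x a * (s ^ r / (Nat.factorial r : ℝ)) =
            ((r + 1) * x a * s ^ r) / (Nat.factorial (r + 1) : ℝ) := by
          rw [Nat.factorial_succ]
          push_cast
          field_simp
        calc _ ≤ s ^ (r + 1) / (Nat.factorial (r + 1) : ℝ) +
              ((r + 1) * x a * s ^ r) / (Nat.factorial (r + 1) : ℝ) := by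
                rw [← h6]; exact add_le_add h1 h5
          _ = (s ^ (r + 1) + (r + 1) * x a * s ^ r) / (Nat.factorial (r + 1) : ℝ) := by ring
          _ ≤ _ := by
            rw [add_comm (x a) s]
            gcongr

end Pool.Agent.EPS
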