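import Pool.Agent.EPS.Stmts

/-!
# The bound of `MM` (helper36)
-/

set_option autoImplicit false

namespace Pool.Agent.EPS

open Finset

theorem sum_powerset_sum_powerset (S : Finset ℕ) (x : ℕ → ℝ) :
    ∑ D ∈ S.powerset, ∑ D' ∈ S.powerset, ∏ p ∈ D ∪ D', x p = ∏ p ∈ S, (1 + 3 * x p) := by
  induction S using Finset.induction_on with
  | empty => simp
  | insert a S ha ih =>
    rw [Finset.prod_insert ha, ← ih, Finset.sum_powerset_insert ha, ← Finset.sum_add_distrib,
      Finset.mul_sum]
    apply Finset.sum_congr rfl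
    intro D hD
    rw [Finset.sum_powerset_insert ha, Finset.sum_powerset_insert ha, ← Finset.sum_add_distrib,
      ← Finset.sum_add_distrib, ← Finset.sum_add_distrib, Finset.mul_sum]
    apply Finset.sum_congr rfl
    intro D' hD'
    have haD : a ∉ D := fun h => ha (Finset.mem_powerset.1 hD h)
    have haD' : a ∉ D' := fun h => ha (Finset.mem_powerset.1 hD' h)
    have hau : a ∉ D ∪ D' := by simp [haD, haD']
    have e1 : D ∪ insert a D' = insert a (D ∪ D') := by ext; simp; try tauto
    have e2 : insert a D ∪ D' = insert a (D ∪ D') := by ext; simp; try tauto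
    have e3 : insert a D ∪ insert a D' = insert a (D ∪ D') := by ext; simp; try tauto
    rw [e1, e2, e3, Finset.prod_insert hau]
    ring

theorem MMBound_proof : Stmt_MMBound := by
  intro w r
  have hsub : Lam w r ⊆ (PrI 0 w).powerset := Finset.filter_subset _ _
  have hnn : ∀ D : Finset ℕ, (0 : ℝ) ≤ ∏ p ∈ D, (1 : ℝ) / p :=
    fun D => Finset.prod_nonneg (fun _ _ => by positivity)
  calc MM w r
      ≤ ∑ D ∈ Lam w r, ∑ D' ∈ (PrI 0 w).powerset, ∏ p ∈ D ∪ D', (1 : ℝ) / p := by
        unfold MM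
        exact Finset.sum_le_sum (fun D _ =>
          Finset.sum_le_sum_of_subset_of_nonneg hsub (fun D' _ _ => hnn _))
    _ ≤ ∑ D ∈ (PrI 0 w).powerset, ∑ D' ∈ (PrI 0 w).powerset, ∏ p ∈ D ∪ D', (1 : ℝ) / p :=
        Finset.sum_le_sum_of_subset_of_nonneg hsub
          (fun D _ _ => Finset.sum_nonneg (fun D' _ => hnn _))
    _ = ∏ p ∈ PrI 0 w, (1 + 3 * ((1 : ℝ) / p)) := sum_powerset_sum_powerset _ _
    _ ≤ ∏ p ∈ PrI 0 w, Real.exp (3 * ((1 : ℝ) / p)) := by
        apply Finset.prod_le_prod
        · intro p _; positivity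
        · intro p _
          have := Real.add_one_le_exp (3 * ((1 : ℝ) / p))
          linarith
    _ = Real.exp (3 * sig 0 w) := by
        rw [← Real.exp_sum, sig, Finset.mul_sum]

end Pool.Agent.EPS
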