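import Pool.Agent.EPS.Stmts

/-!
# Module `Mean` (helper64): first moment of the weight
-/

set_option autoImplicit false

namespace Pool.Agent.EPS

open Finset

theorem Lam_prime {w r : ℕ} {D : Finset ℕ} (hD : D ∈ Lam w r) {p : ℕ} (hp : p ∈ D) :
    p.Prime ∧ p ≤ w := by
  simp only [Lam, Sub, PrI, mem_filter, mem_powerset] at hD
  have := hD.1 hp
  simp only [mem_filter, mem_Ioc] at this
  exact ⟨this.2, this.1.2⟩

theorem V_eq (w r n : ℕ) : V w r n = ∑ D ∈ Lam w r, (-1 : ℝ) ^ D.card * indD D n := rfl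

theorem V0_eq (w r : ℕ) : V0 w r = ∑ D ∈ Lam w r, (-1 : ℝ) ^ D.card * ∏ p ∈ D, (1 : ℝ) / p := rfl

theorem ind_nonneg (p n : ℕ) : 0 ≤ ind p n := by
  unfold ind; split_ifs <;> norm_num

theorem ind_sq (p n : ℕ) : ind p n * ind p n = ind p n := by
  unfold ind; split_ifs <;> norm_num

theorem ind_le_one (p n : ℕ) : ind p n ≤ 1 := by
  unfold ind; split_ifs <;> norm_num

theorem indD_nonneg (D : Finset ℕ) (n : ℕ) : 0 ≤ indD D n :=
  prod_nonneg fun p _ => ind_nonneg p n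

theorem indD_mul (D D' : Finset ℕ) (n : ℕ) : indD D n * indD D' n = indD (D ∪ D') n := by
  classical
  unfold indD
  rw [← prod_union_inter]
  have h1 : (D ∪ D') = (D ∪ D') \ (D ∩ D') ∪ (D ∩ D') := by
    rw [sdiff_union_of_subset]
    exact inter_subset_left.trans subset_union_left
  have h2 : ∏ p ∈ D ∪ D', ind p n
      = (∏ p ∈ (D ∪ D') \ (D ∩ D'), ind p n) * ∏ p ∈ D ∩ D', ind p n :=
    (prod_sdiff (inter_subset_left.trans subset_union_left)).symm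
  rw [h2, mul_assoc, ← prod_mul_distrib]
  congr 1
  exact prod_congr rfl fun p _ => ind_sq p n

theorem prime_prod_ne {D : Finset ℕ} (hD : ∀ p ∈ D, p.Prime) : (∏ p ∈ D, (p : ℝ)) ≠ 0 :=
  prod_ne_zero_iff.mpr fun p hp => by exact_mod_cast (hD p hp).ne_zero

theorem indD_count (hC : Stmt_PFCount) (hI : Stmt_PFIndD) (D : Finset ℕ)
    (hD : ∀ p ∈ D, p.Prime) {a b : ℕ} (hab : a ≤ b) :
    |∑ n ∈ Ico a b, indD D n - ((b : ℝ) - a) * ∏ p ∈ D, (1 : ℝ) / p| ≤ ∏ p ∈ D, (p : ℝ) := by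
  have h := hC _ _ _ (hI D hD) a b hab
  have h0 := prime_prod_ne hD
  have e : ((b : ℝ) - a) * (∏ p ∈ D, (p : ℝ)) / (((∏ p ∈ D, p) ^ 2 : ℕ) : ℝ)
      = ((b : ℝ) - a) * ∏ p ∈ D, (1 : ℝ) / p := by
    have : (∏ p ∈ D, (1 : ℝ) / p) = 1 / ∏ p ∈ D, (p : ℝ) := by
      rw [prod_div_distrib]; simp
    rw [this]
    push_cast
    field_simp
  rwa [e] at h

theorem Mean_proof (hC : Stmt_PFCount) (hI : Stmt_PFIndD) (hP : Stmt_PrimeSum) : Stmt_Mean := by
  intro w r a b hw hab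
  have e1 : ∑ n ∈ Ico a b, V w r n
      = ∑ D ∈ Lam w r, (-1 : ℝ) ^ D.card * ∑ n ∈ Ico a b, indD D n := by
    simp only [V_eq]
    rw [sum_comm]
    exact sum_congr rfl fun D _ => by rw [mul_sum]
  have e2 : ((b : ℝ) - a) * V0 w r
      = ∑ D ∈ Lam w r, (-1 : ℝ) ^ D.card * (((b : ℝ) - a) * ∏ p ∈ D, (1 : ℝ) / p) := by
    rw [V0_eq, mul_sum]
    exact sum_congr rfl fun D _ => by ring
  rw [e1, e2, ← sum_sub_distrib]
  refine (abs_sum_le_sum_abs _ _).trans ?_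
  refine le_trans (sum_le_sum fun D hD => ?_) (hP w r hw).1
  rw [← mul_sub, abs_mul, abs_pow, abs_neg, abs_one, one_pow, one_mul]
  exact indD_count hC hI D (fun p hp => (Lam_prime hD hp).1) hab

end Pool.Agent.EPS
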