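import Pool.Agent.EPS.PF

set_option autoImplicit false

/-!
# MP_1626ca_nt: module Off (off-diagonal correlations)
-/

namespace Pool.Agent.EPS

open Finset

theorem off_final (s p p' a b U : ℝ) (hs0 : 0 ≤ s) (hp1 : 1 ≤ p) (hp1' : 1 ≤ p') (ha0 : 0 ≤ a)
    (hb0 : 0 ≤ b) (ha1 : a ≤ 1) (hb1 : b ≤ 1) (hs : s ≤ U) :
    s * p * p' + b * (s * p) + a * (s * p') + a * b * s ≤ 4 * p * p' * U := by
  have hp0 : 0 ≤ p := by linarith
  have hp0' : 0 ≤ p' := by linarith
  have hsp : 0 ≤ s * p := mul_nonneg hs0 hp0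
  have hsp' : 0 ≤ s * p' := mul_nonneg hs0 hp0'
  have b1 : b * (s * p) ≤ s * p * p' := by
    have h4 : b * (s * p) ≤ 1 * (s * p) := mul_le_mul_of_nonneg_right hb1 hsp
    have h5 : s * p * 1 ≤ s * p * p' := mul_le_mul_of_nonneg_left hp1' hsp
    linarith
  have b2 : a * (s * p') ≤ s * p' * p := by
    have h4 : a * (s * p') ≤ 1 * (s * p') := mul_le_mul_of_nonneg_right ha1 hsp'
    have h5 : s * p' * 1 ≤ s * p' * p := mul_le_mul_of_nonneg_left hp1 hsp'
    linarith
  have b3 : a * b * s ≤ s * p * p' := by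
    have h4 : a * b ≤ 1 * 1 := mul_le_mul ha1 hb1 hb0 zero_le_one
    have h5 : a * b * s ≤ 1 * 1 * s := mul_le_mul_of_nonneg_right h4 hs0
    have h6 : s * 1 ≤ s * p := mul_le_mul_of_nonneg_left hp1 hs0
    have h7 : s * p * 1 ≤ s * p * p' := mul_le_mul_of_nonneg_left hp1' hsp
    linarith
  have e2 : s * p' * p = s * p * p' := by ring
  have hpp : 0 ≤ p * p' := mul_nonneg hp0 hp0'
  have hfin : p * p' * s ≤ p * p' * U := mul_le_mul_of_nonneg_left hs hpp
  have e3 : p * p' * s = s * p * p' := by ring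
  have e4 : 4 * p * p' * U = 4 * (p * p' * U) := by ring
  rw [e4]
  linarith

open PFAux in
theorem Off_proof : Stmt_Off := by
  classical
  intro w r X h h' p p' D D' hD hD' hp hp' hwp hwp' hne
  have hmem : ∀ C ∈ Lam w r, ∀ q ∈ C, q.Prime ∧ q ≤ w := by
    intro C hC q hq
    have h1 := (Finset.mem_filter.1 hC).1
    have h2 := (Finset.mem_powerset.1 h1) hq
    have h3 := Finset.mem_filter.1 h2
    exact ⟨h3.2, (Finset.mem_Ioc.1 h3.1).2⟩
  have hDp := hmem D hD
  have hDp' := hmem D' hD'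
  obtain ⟨s, hs, hf⟩ := PFTwo_proof D D' h h' (fun q hq => (hDp q hq).1)
    (fun q hq => (hDp' q hq).1)
  set q0 := (∏ q ∈ D ∪ D', q) ^ 2 with hq0
  set f : ℕ → ℝ := fun m => indD D (m + h) * indD D' (m + h') with hfdef
  have hs0 := s_nonneg hf
  have hUle : ∀ q ∈ D ∪ D', q.Prime ∧ q ≤ w := by
    intro q hq
    rcases Finset.mem_union.1 hq with h | h
    · exact hDp q h
    · exact hDp' q h
  have hcop : ∀ t : ℕ, t.Prime → w < t → Nat.Coprime q0 (t ^ 2) := by
    intro t ht hwt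
    rw [hq0]
    apply Nat.Coprime.pow
    apply Nat.Coprime.prod_left
    intro q hq
    rw [Nat.coprime_primes (hUle q hq).1 ht]
    rintro rfl
    exact absurd (hUle q hq).2 (by omega)
  have hA := PFShift_proof _ _ _ h (pf_ind hp)
  have hA' := PFShift_proof _ _ _ h' (pf_ind hp')
  have h1 := pf_mul (hcop p hp hwp) hf hA
  have h2 := pf_mul (hcop p' hp' hwp') hf hA'
  have hco3 : Nat.Coprime (q0 * p ^ 2) (p' ^ 2) := by
    apply Nat.Coprime.mul_left
    · exact hcop p' hp' hwp'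
    · apply Nat.Coprime.pow
      rw [Nat.coprime_primes hp hp']
      exact hne
  have h3 := pf_mul hco3 h1 hA'
  have c0 := count_range hf X
  have c1 := count_range h1 X
  have c2 := count_range h2 X
  have c3 := count_range h3 X
  have hq0pos : (0 : ℝ) < (q0 : ℝ) := by exact_mod_cast hf.pos
  have hp1 : (1 : ℝ) ≤ p := by exact_mod_cast hp.one_lt.le
  have hp1' : (1 : ℝ) ≤ p' := by exact_mod_cast hp'.one_lt.le
  have hp0 : (0 : ℝ) < p := by linarith
  have hp0' : (0 : ℝ) < p' := by linarith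
  have hsum : ∑ m ∈ range X, indD D (m + h) * indD D' (m + h') *
        ((ind p (m + h) - 1 / p) * (ind p' (m + h') - 1 / p'))
      = ∑ m ∈ range X, f m * ind p (m + h) * ind p' (m + h')
        - (1 / p') * ∑ m ∈ range X, f m * ind p (m + h)
        - (1 / p) * ∑ m ∈ range X, f m * ind p' (m + h')
        + (1 / p) * (1 / p') * ∑ m ∈ range X, f m := by
    rw [Finset.mul_sum, Finset.mul_sum, Finset.mul_sum, ← Finset.sum_sub_distrib,
      ← Finset.sum_sub_distrib, ← Finset.sum_add_distrib]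
    refine Finset.sum_congr rfl (fun m _ => ?_)
    simp only [hfdef]
    ring
  rw [hsum]
  set S3 := ∑ m ∈ range X, f m * ind p (m + h) * ind p' (m + h') with hS3
  set S1 := ∑ m ∈ range X, f m * ind p (m + h) with hS1
  set S2 := ∑ m ∈ range X, f m * ind p' (m + h') with hS2
  set S0 := ∑ m ∈ range X, f m with hS0
  have e0 : (X : ℝ) * s / q0 = X * s / q0 := rfl
  have e1 : (X : ℝ) * (s * p) / ((q0 * p ^ 2 : ℕ) : ℝ) = (X * s / q0) * (1 / p) := by
    push_cast; field_simp
  have e2 : (X : ℝ) * (s * p') / ((q0 * p' ^ 2 : ℕ) : ℝ) = (X * s / q0) * (1 / p') := by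
    push_cast; field_simp
  have e3 : (X : ℝ) * (s * p * p') / ((q0 * p ^ 2 * p' ^ 2 : ℕ) : ℝ)
      = (X * s / q0) * (1 / p) * (1 / p') := by
    push_cast; field_simp
  rw [e1] at c1
  rw [e2] at c2
  rw [e3] at c3
  rw [abs_le] at c0 c1 c2 c3
  set Y := (X : ℝ) * s / q0 with hY
  set a := (1 : ℝ) / p with ha
  set b := (1 : ℝ) / p' with hb
  have ha0 : 0 < a := by positivity
  have hb0 : 0 < b := by positivity
  have ha1 : a ≤ 1 := by rw [ha, div_le_one hp0]; exact hp1
  have hb1 : b ≤ 1 := by rw [hb, div_le_one hp0']; exact hp1'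
  have habs : |S3 - b * S1 - a * S2 + a * b * S0| ≤ s * p * p' + b * (s * p) + a * (s * p') +
      a * b * s := by
    have hid : S3 - b * S1 - a * S2 + a * b * S0 =
        (S3 - Y * a * b) - b * (S1 - Y * a) - a * (S2 - Y * b) + a * b * (S0 - Y) := by ring
    rw [hid, abs_le]
    have k1 : b * (S1 - Y * a) ≤ b * (s * p) := mul_le_mul_of_nonneg_left c1.2 hb0.le
    have k1' : -(b * (s * p)) ≤ b * (S1 - Y * a) := by
      have := mul_le_mul_of_nonneg_left c1.1 hb0.le
      linarith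
    have k2 : a * (S2 - Y * b) ≤ a * (s * p') := mul_le_mul_of_nonneg_left c2.2 ha0.le
    have k2' : -(a * (s * p')) ≤ a * (S2 - Y * b) := by
      have := mul_le_mul_of_nonneg_left c2.1 ha0.le
      linarith
    have hab : 0 ≤ a * b := by positivity
    have k3 : a * b * (S0 - Y) ≤ a * b * s := mul_le_mul_of_nonneg_left c0.2 hab
    have k3' : -(a * b * s) ≤ a * b * (S0 - Y) := by
      have := mul_le_mul_of_nonneg_left c0.1 hab
      linarith
    constructor <;> linarith [c3.1, c3.2]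
  exact habs.trans (off_final s p p' a b _ hs0 hp1 hp1' ha0.le hb0.le ha1 hb1 hs)

end Pool.Agent.EPS
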