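import Pool.Agent.EPS.Stmts

set_option autoImplicit false

/-!
# MP_1626ca_nt: periodic functions (modules PFCount, PFShift, PFInd, PFMul, PFIndD, PFTwo)
-/

namespace Pool.Agent.EPS

open Finset

namespace PFAux

theorem per_mul {q : ℕ} {s : ℝ} {f : ℕ → ℝ} (h : PF q s f) (n k : ℕ) : f (n + q * k) = f n := by
  induction k with
  | zero => simp
  | succ k ih => rw [Nat.mul_succ, ← add_assoc, h.per, ih]

theorem per_mod {q : ℕ} {s : ℝ} {f : ℕ → ℝ} (h : PF q s f) (n : ℕ) : f (n % q) = f n := by
  conv_rhs => rw [← Nat.mod_add_div n q]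
  rw [per_mul h]

theorem shift_one {q : ℕ} {s : ℝ} {f : ℕ → ℝ} (h : PF q s f) : PF q s (fun n => f (n + 1)) := by
  refine ⟨h.pos, fun n => h.nonneg _, fun n => ?_, ?_⟩
  · have := h.per (n + 1)
    rw [← this]; congr 1; ring
  · have h1 := Finset.sum_range_succ f q
    have h2 := Finset.sum_range_succ' f q
    have h3 : f q = f 0 := by
      have := h.per 0
      rwa [zero_add] at this
    have h4 := h.sum
    linarith

theorem sum_blocks {q : ℕ} {s : ℝ} {f : ℕ → ℝ} (h : PF q s f) (t b : ℕ) :
    ∑ n ∈ range (q * t + b), f n = t * s + ∑ n ∈ range b, f n := by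
  induction t with
  | zero => simp
  | succ t ih =>
    have e : q * (t + 1) + b = q + (q * t + b) := by ring
    rw [e, Finset.sum_range_add, h.sum]
    have : ∑ x ∈ range (q * t + b), f (q + x) = ∑ x ∈ range (q * t + b), f x := by
      refine Finset.sum_congr rfl (fun x _ => ?_)
      rw [add_comm, h.per]
    rw [this, ih]; push_cast; ring

theorem s_nonneg {q : ℕ} {s : ℝ} {f : ℕ → ℝ} (h : PF q s f) : 0 ≤ s := by
  rw [← h.sum]; exact Finset.sum_nonneg (fun n _ => h.nonneg n)

theorem count_range {q : ℕ} {s : ℝ} {f : ℕ → ℝ} (h : PF q s f) (X : ℕ) :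
    |∑ n ∈ range X, f n - (X : ℝ) * s / q| ≤ s := by
  have hs := s_nonneg h
  have hq : (0 : ℝ) < q := by exact_mod_cast h.pos
  have hX : X = q * (X / q) + X % q := (Nat.div_add_mod X q).symm
  have hlt : X % q < q := Nat.mod_lt _ h.pos
  have h1 := sum_blocks h (X / q) (X % q)
  rw [← hX] at h1
  have h2 : 0 ≤ ∑ n ∈ range (X % q), f n := Finset.sum_nonneg (fun n _ => h.nonneg n)
  have h3 : ∑ n ∈ range (X % q), f n ≤ s := by
    rw [← h.sum]
    exact Finset.sum_le_sum_of_subset_of_nonneg
      (Finset.range_subset_range.2 hlt.le) (fun n _ _ => h.nonneg n)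
  have h4 : (X : ℝ) = q * ((X / q : ℕ) : ℝ) + ((X % q : ℕ) : ℝ) := by
    exact_mod_cast hX
  have h5 : (X : ℝ) * s / q = ((X / q : ℕ) : ℝ) * s + ((X % q : ℕ) : ℝ) * s / q := by
    rw [h4]; field_simp
  have h6 : 0 ≤ ((X % q : ℕ) : ℝ) * s / q := by positivity
  have h7 : ((X % q : ℕ) : ℝ) * s / q ≤ s := by
    rw [div_le_iff₀ hq]
    have : ((X % q : ℕ) : ℝ) ≤ q := by exact_mod_cast hlt.le
    nlinarith
  rw [h1, h5, abs_le]
  constructor <;> linarith

theorem pf_mul {q1 q2 : ℕ} {s1 s2 : ℝ} {f1 f2 : ℕ → ℝ} (hco : Nat.Coprime q1 q2)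
    (h1 : PF q1 s1 f1) (h2 : PF q2 s2 f2) : PF (q1 * q2) (s1 * s2) (fun n => f1 n * f2 n) := by
  refine ⟨Nat.mul_pos h1.pos h2.pos, fun n => mul_nonneg (h1.nonneg n) (h2.nonneg n),
    fun n => ?_, ?_⟩
  · have e1 : f1 (n + q1 * q2) = f1 n := per_mul h1 n q2
    have e2 : f2 (n + q1 * q2) = f2 n := by rw [mul_comm]; exact per_mul h2 n q1
    rw [e1, e2]
  · rw [← h1.sum, ← h2.sum, Finset.sum_mul_sum, ← Finset.sum_product']
    refine Finset.sum_nbij' (fun n => (n % q1, n % q2))
      (fun ab => (Nat.chineseRemainder hco ab.1 ab.2 : ℕ)) ?_ ?_ ?_ ?_ ?_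
    · intro n _
      simp only [Finset.mem_product, Finset.mem_range]
      exact ⟨Nat.mod_lt _ h1.pos, Nat.mod_lt _ h2.pos⟩
    · rintro ⟨a, b⟩ _
      simp only [Finset.mem_range]
      exact Nat.chineseRemainder_lt_mul hco a b h1.pos.ne' h2.pos.ne'
    · intro n hn
      simp only [Finset.mem_range] at hn
      have hc := (Nat.chineseRemainder hco (n % q1) (n % q2)).2
      have hlt := Nat.chineseRemainder_lt_mul hco (n % q1) (n % q2) h1.pos.ne' h2.pos.ne'
      have hmod : (Nat.chineseRemainder hco (n % q1) (n % q2) : ℕ) ≡ n [MOD q1 * q2] := by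
        rw [← Nat.modEq_and_modEq_iff_modEq_mul hco]
        exact ⟨hc.1.trans (Nat.mod_modEq _ _), hc.2.trans (Nat.mod_modEq _ _)⟩
      exact Nat.ModEq.eq_of_lt_of_lt hmod hlt hn
    · rintro ⟨a, b⟩ hab
      simp only [Finset.mem_product, Finset.mem_range] at hab
      have hc := (Nat.chineseRemainder hco a b).2
      refine Prod.ext ?_ ?_
      · change (Nat.chineseRemainder hco a b : ℕ) % q1 = a
        have := hc.1
        rw [Nat.ModEq, Nat.mod_eq_of_lt hab.1] at this
        exact this
      · change (Nat.chineseRemainder hco a b : ℕ) % q2 = b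
        have := hc.2
        rw [Nat.ModEq, Nat.mod_eq_of_lt hab.2] at this
        exact this
    · intro n _
      simp only
      rw [per_mod h1, per_mod h2]

theorem pf_ind {p : ℕ} (hp : p.Prime) : PF (p ^ 2) p (ind p) := by
  refine ⟨by have := hp.pos; positivity, fun n => ?_, fun n => ?_, ?_⟩
  · unfold ind; split_ifs <;> norm_num
  · unfold ind; rw [Nat.add_mod_right]
  · have h1 : ∑ n ∈ range (p ^ 2), ind p n = ∑ n ∈ range (p ^ 2), if n < p then (1 : ℝ) else 0 := by
      refine Finset.sum_congr rfl (fun n hn => ?_)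
      unfold ind
      rw [Nat.mod_eq_of_lt (Finset.mem_range.1 hn)]
    rw [h1, Finset.sum_boole]
    have h2 : (range (p ^ 2)).filter (fun n => n < p) = range p := by
      ext n
      simp only [Finset.mem_filter, Finset.mem_range]
      constructor
      · exact fun h => h.2
      · intro h
        have : p ≤ p ^ 2 := Nat.le_self_pow (by norm_num) p
        exact ⟨by omega, h⟩
    rw [h2, Finset.card_range]

/-- products of periodic functions over a set of primes -/
theorem pf_prod (U : Finset ℕ) (s : ℕ → ℝ) (g : ℕ → ℕ → ℝ) (hU : ∀ q ∈ U, q.Prime)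
    (hg : ∀ q ∈ U, PF (q ^ 2) (s q) (g q)) :
    PF ((∏ q ∈ U, q) ^ 2) (∏ q ∈ U, s q) (fun n => ∏ q ∈ U, g q n) := by
  classical
  induction U using Finset.induction_on with
  | empty =>
    simp only [Finset.prod_empty]
    exact ⟨by norm_num, fun n => by norm_num, fun n => rfl, by simp⟩
  | insert a U ha ih =>
    have h1 := ih (fun q hq => hU q (Finset.mem_insert_of_mem hq))
      (fun q hq => hg q (Finset.mem_insert_of_mem hq))
    have h2 := hg a (Finset.mem_insert_self a U)
    have hco : Nat.Coprime (a ^ 2) ((∏ q ∈ U, q) ^ 2) := by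
      apply Nat.Coprime.pow
      apply Nat.Coprime.prod_right
      intro q hq
      rw [Nat.coprime_primes (hU a (Finset.mem_insert_self a U))
        (hU q (Finset.mem_insert_of_mem hq))]
      rintro rfl
      exact ha hq
    have h3 := pf_mul hco h2 h1
    simp only [Finset.prod_insert ha, mul_pow]
    exact h3

end PFAux

open PFAux

theorem PFShift_proof : Stmt_PFShift := by
  intro q s f h hf
  induction h with
  | zero => exact hf
  | succ h ih =>
    have := shift_one ih
    have e : (fun n => f (n + (h + 1))) = (fun n => f (n + 1 + h)) := by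
      funext n; congr 1; ring
    rw [e]; exact this

theorem PFCount_proof : Stmt_PFCount := by
  intro q s f hf a b hab
  have h1 := count_range (PFShift_proof q s f a hf) (b - a)
  rw [Finset.sum_Ico_eq_sum_range]
  have h2 : ∑ k ∈ range (b - a), f (a + k) = ∑ k ∈ range (b - a), f (k + a) :=
    Finset.sum_congr rfl (fun k _ => by rw [add_comm])
  rw [h2]
  rw [Nat.cast_sub hab] at h1
  exact h1

theorem PFInd_proof : Stmt_PFInd := fun _ hp => pf_ind hp

theorem PFMul_proof : Stmt_PFMul := fun _ _ _ _ _ _ hco h1 h2 => pf_mul hco h1 h2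

theorem PFIndD_proof : Stmt_PFIndD := fun D hD =>
  pf_prod D (fun p => (p : ℝ)) ind hD (fun q hq => pf_ind (hD q hq))

theorem PFTwo_proof : Stmt_PFTwo := by
  classical
  intro D D' h h' hD hD'
  set g : ℕ → ℕ → ℝ := fun q m => (if q ∈ D then ind q (m + h) else 1) *
    (if q ∈ D' then ind q (m + h') else 1) with hg
  have hU : ∀ q ∈ D ∪ D', q.Prime := by
    intro q hq
    rcases Finset.mem_union.1 hq with h | h
    · exact hD q h
    · exact hD' q h
  have hind0 : ∀ q m, 0 ≤ ind q m := by intro q m; unfold ind; split_ifs <;> norm_num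
  have hind1 : ∀ q m, ind q m ≤ 1 := by intro q m; unfold ind; split_ifs <;> norm_num
  have hgq : ∀ q ∈ D ∪ D', PF (q ^ 2) (∑ n ∈ range (q ^ 2), g q n) (g q) := by
    intro q hq
    refine ⟨by have := (hU q hq).pos; positivity, fun n => ?_, fun n => ?_, rfl⟩
    · rw [hg]
      apply mul_nonneg
      · split_ifs
        · exact hind0 _ _
        · norm_num
      · split_ifs
        · exact hind0 _ _
        · norm_num
    · have e1 : ind q (n + q ^ 2 + h) = ind q (n + h) := by
        have := (pf_ind (hU q hq)).per (n + h)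
        rw [← this]; congr 1; ring
      have e2 : ind q (n + q ^ 2 + h') = ind q (n + h') := by
        have := (pf_ind (hU q hq)).per (n + h')
        rw [← this]; congr 1; ring
      simp only [hg]
      rw [e1, e2]
  have hle : ∀ q ∈ D ∪ D', ∑ n ∈ range (q ^ 2), g q n ≤ q := by
    intro q hq
    rcases Finset.mem_union.1 hq with hqD | hqD
    · rw [← (PFShift_proof _ _ _ h (pf_ind (hU q hq))).sum]
      refine Finset.sum_le_sum (fun n _ => ?_)
      simp only [hg]
      rw [if_pos hqD]
      split_ifs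
      · have := hind0 q (n + h)
        have := hind1 q (n + h')
        nlinarith
      · rw [mul_one]
    · rw [← (PFShift_proof _ _ _ h' (pf_ind (hU q hq))).sum]
      refine Finset.sum_le_sum (fun n _ => ?_)
      simp only [hg]
      rw [if_pos hqD]
      split_ifs
      · have := hind0 q (n + h')
        have := hind1 q (n + h)
        nlinarith
      · rw [one_mul]
  refine ⟨∏ q ∈ D ∪ D', ∑ n ∈ range (q ^ 2), g q n, ?_, ?_⟩
  · exact Finset.prod_le_prod (fun q hq => s_nonneg (hgq q hq)) hle
  · have h1 := pf_prod (D ∪ D') (fun q => ∑ n ∈ range (q ^ 2), g q n) g hU hgq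
    have h2 : (fun m => ∏ q ∈ D ∪ D', g q m) = (fun m => indD D (m + h) * indD D' (m + h')) := by
      funext m
      simp only [hg]
      rw [Finset.prod_mul_distrib, Finset.prod_ite_mem, Finset.prod_ite_mem]
      have e1 : (D ∪ D') ∩ D = D := by
        ext x; simp only [Finset.mem_inter, Finset.mem_union]; tauto
      have e2 : (D ∪ D') ∩ D' = D' := by
        ext x; simp only [Finset.mem_inter, Finset.mem_union]; tauto
      rw [e1, e2]; rfl
    rw [h2] at h1
    exact h1

end Pool.Agent.EPS
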