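import Pool.Agent.EPS.Stmts

/-!
# The sum of the products of the primes (helper36)
-/

set_option autoImplicit false

namespace Pool.Agent.EPS

open Finset

theorem one_add_sum_PrI (w : ℕ) (hw : 1 ≤ w) : 1 + ∑ p ∈ PrI 0 w, p ≤ w ^ 2 := by
  induction w, hw using Nat.le_induction with
  | base => decide
  | succ n hn ih =>
    have hsub : PrI 0 (n + 1) ⊆ insert (n + 1) (PrI 0 n) := by
      intro p hp
      simp only [PrI, mem_filter, mem_Ioc, mem_insert] at hp ⊢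
      rcases Nat.lt_or_ge n p with h | h
      · left; omega
      · right; exact ⟨⟨hp.1.1, h⟩, hp.2⟩
    have h1 : ∑ p ∈ PrI 0 (n + 1), p ≤ ∑ p ∈ insert (n + 1) (PrI 0 n), p :=
      Finset.sum_le_sum_of_subset hsub
    have hnot : n + 1 ∉ PrI 0 n := by
      simp only [PrI, mem_filter, mem_Ioc]
      omega
    rw [Finset.sum_insert hnot] at h1
    nlinarith

theorem prod_union_le (D D' : Finset ℕ) (h : ∀ p ∈ D, p.Prime) :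
    ∏ p ∈ D ∪ D', (p : ℝ) ≤ (∏ p ∈ D, (p : ℝ)) * ∏ p ∈ D', (p : ℝ) := by
  have h1 := Finset.prod_union_inter (s₁ := D) (s₂ := D') (f := fun p : ℕ => (p : ℝ))
  rw [← h1]
  have h2 : (1 : ℝ) ≤ ∏ p ∈ D ∩ D', (p : ℝ) := by
    have h3 : (1 : ℕ) ≤ ∏ p ∈ D ∩ D', p := by
      apply Nat.one_le_iff_ne_zero.2
      rw [Finset.prod_ne_zero_iff]
      intro p hp
      exact (h p (Finset.mem_inter.1 hp).1).ne_zero
    have h5 : ((∏ p ∈ D ∩ D', p : ℕ) : ℝ) = ∏ p ∈ D ∩ D', (p : ℝ) := Nat.cast_prod _ _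
    rw [← h5]
    exact_mod_cast h3
  have h4 : (0 : ℝ) ≤ ∏ p ∈ D ∪ D', (p : ℝ) := Finset.prod_nonneg (fun _ _ => Nat.cast_nonneg _)
  nlinarith

theorem PrimeSum_proof (hE : Stmt_Esym) : Stmt_PrimeSum := by
  intro w r hw
  have h1 : ∑ D ∈ Lam w r, ∏ p ∈ D, (p : ℝ) ≤ (w : ℝ) ^ (2 * r) := by
    have h := (hE (PrI 0 w) r (fun p => (p : ℝ)) (fun i _ => Nat.cast_nonneg i)).1
    have hs : 1 + ∑ p ∈ PrI 0 w, (p : ℝ) ≤ (w : ℝ) ^ 2 := by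
      have h5 : ((∑ p ∈ PrI 0 w, p : ℕ) : ℝ) = ∑ p ∈ PrI 0 w, (p : ℝ) := Nat.cast_sum _ _
      rw [← h5]
      exact_mod_cast one_add_sum_PrI w (by omega)
    have h0 : 0 ≤ 1 + ∑ p ∈ PrI 0 w, (p : ℝ) := by
      have : 0 ≤ ∑ p ∈ PrI 0 w, (p : ℝ) := Finset.sum_nonneg (fun _ _ => Nat.cast_nonneg _)
      linarith
    calc ∑ D ∈ Lam w r, ∏ p ∈ D, (p : ℝ) ≤ (1 + ∑ p ∈ PrI 0 w, (p : ℝ)) ^ r := h
      _ ≤ ((w : ℝ) ^ 2) ^ r := pow_le_pow_left₀ h0 hs r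
      _ = (w : ℝ) ^ (2 * r) := by rw [← pow_mul]
  refine ⟨h1, ?_⟩
  have hmem : ∀ D ∈ Lam w r, ∀ p ∈ D, p.Prime := by
    intro D hD p hp
    simp only [Lam, Sub, mem_filter, mem_powerset] at hD
    have := hD.1 hp
    simp only [PrI, mem_filter] at this
    exact this.2
  have hA0 : 0 ≤ ∑ D ∈ Lam w r, ∏ p ∈ D, (p : ℝ) :=
    Finset.sum_nonneg (fun _ _ => Finset.prod_nonneg (fun _ _ => Nat.cast_nonneg _))
  calc ∑ D ∈ Lam w r, ∑ D' ∈ Lam w r, ∏ p ∈ D ∪ D', (p : ℝ)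
      ≤ ∑ D ∈ Lam w r, ∑ D' ∈ Lam w r, (∏ p ∈ D, (p : ℝ)) * ∏ p ∈ D', (p : ℝ) :=
        Finset.sum_le_sum (fun D hD => Finset.sum_le_sum (fun D' _ =>
          prod_union_le D D' (hmem D hD)))
    _ = (∑ D ∈ Lam w r, ∏ p ∈ D, (p : ℝ)) * ∑ D' ∈ Lam w r, ∏ p ∈ D', (p : ℝ) := by
        rw [Finset.sum_mul_sum]
    _ ≤ (w : ℝ) ^ (2 * r) * (w : ℝ) ^ (2 * r) := by
        apply mul_le_mul h1 h1 hA0 (by positivity)
    _ = (w : ℝ) ^ (4 * r) := by rw [← pow_add]; congr 1; ring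

end Pool.Agent.EPS
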