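import Pool.Agent.EPS.Stmts

set_option autoImplicit false

namespace Pool.Agent.EPS

open Finset

theorem Rec_proof : Stmt_Rec := by
  intro a σ K E hK hE ha hσ hstep hσ8 hσK hlast
  obtain ⟨L, rfl⟩ : ∃ L, K = L + 1 := ⟨K - 1, by omega⟩
  rw [Nat.add_sub_cancel] at hσK
  -- the multipliers
  have key : ∀ j ≤ L, ∃ ρ : ℝ, 0 ≤ ρ ∧ 1 / 2 ≤ ρ ∧ ρ ≤ 1 ∧ (j = 0 ∨ 1 - 2 * σ (L - j) ≤ ρ) ∧
      ρ * a (L - j + 1) - 2 * E ≤ a (L - j) := by
    intro j
    induction j with
    | zero =>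
      intro _
      refine ⟨1 - 21 * σ L, by linarith, by linarith, by linarith [hσ L], Or.inl rfl, ?_⟩
      have h1 := hstep L (by omega)
      have h2 : σ L * a (L + 2) ≤ σ L * (21 * a (L + 1)) :=
        mul_le_mul_of_nonneg_left hlast (hσ L)
      simp only [Nat.sub_zero]
      nlinarith
    | succ j ih =>
      intro hj
      obtain ⟨ρ, h0, h1, h2, -, h4⟩ := ih (by omega)
      have e1 : L - (j + 1) + 1 = L - j := by omega
      have e2 : L - (j + 1) + 2 = L - j + 1 := by omega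
      have h5 := hstep (L - (j + 1)) (by omega)
      have h8 := hσ8 (L - (j + 1)) (by omega)
      have h9 := hσ (L - (j + 1))
      rw [e1, e2] at h5
      refine ⟨1 - 2 * σ (L - (j + 1)), by linarith, by linarith, by linarith, Or.inr le_rfl, ?_⟩
      rw [e1]
      have h10 : a (L - j + 1) ≤ 2 * (a (L - j) + 2 * E) := by
        have := ha (L - j + 1)
        nlinarith
      have h11 : σ (L - (j + 1)) * a (L - j + 1) ≤
          σ (L - (j + 1)) * (2 * (a (L - j) + 2 * E)) := mul_le_mul_of_nonneg_left h10 h9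
      nlinarith
  -- iteration
  have exp_le : ∀ s : ℝ, 0 ≤ s → s ≤ 1 / 8 → Real.exp (-4 * s) ≤ 1 - 2 * s := by
    intro s h0 h1
    have h2 : 1 + 4 * s ≤ Real.exp (4 * s) := by
      have := Real.add_one_le_exp (4 * s)
      linarith
    have h3 : Real.exp (-4 * s) = (Real.exp (4 * s))⁻¹ := by
      rw [← Real.exp_neg]; ring_nf
    rw [h3]
    have h4 : 0 < Real.exp (4 * s) := Real.exp_pos _
    rw [inv_le_iff_one_le_mul₀ h4]
    have h5 : (1 - 2 * s) * (1 + 4 * s) ≤ (1 - 2 * s) * Real.exp (4 * s) :=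
      mul_le_mul_of_nonneg_left h2 (by linarith)
    nlinarith
  have iter : ∀ i ≤ L, ∃ Q : ℝ, 0 ≤ Q ∧ Q ≤ 1 ∧ Real.exp (-4 * ∑ t ∈ range i, σ t) ≤ Q ∧
      Q * a i - 2 * i * E ≤ a 0 := by
    intro i
    induction i with
    | zero =>
      intro _
      exact ⟨1, by norm_num, le_rfl, by simp, by simp⟩
    | succ i ih =>
      intro hi
      obtain ⟨Q, h0, h1, h2, h3⟩ := ih (by omega)
      obtain ⟨ρ, k0, k1, k2, k3, k4⟩ := key (L - i) (by omega)
      have e1 : L - (L - i) = i := by omega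
      rw [e1] at k3 k4
      have k5 : 1 - 2 * σ i ≤ ρ := by
        rcases k3 with h | h
        · omega
        · exact h
      have h8 := hσ8 i (by omega)
      have h9 := hσ i
      refine ⟨Q * ρ, mul_nonneg h0 k0, by nlinarith, ?_, ?_⟩
      · rw [Finset.sum_range_succ, mul_add, Real.exp_add]
        have h10 := exp_le (σ i) h9 h8
        have h11 : 0 ≤ Real.exp (-4 * σ i) := (Real.exp_pos _).le
        calc _ ≤ Q * Real.exp (-4 * σ i) := by gcongr
          _ ≤ Q * ρ := by gcongr; linarith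
      · have h12 : Q * (ρ * a (i + 1) - 2 * E) ≤ Q * a i := mul_le_mul_of_nonneg_left k4 h0
        push_cast
        nlinarith
  obtain ⟨Q, h0, h1, h2, h3⟩ := iter L le_rfl
  obtain ⟨ρ, k0, k1, k2, -, k4⟩ := key 0 (by omega)
  rw [Nat.sub_zero] at k4
  have h12 : Q * (ρ * a (L + 1) - 2 * E) ≤ Q * a L := mul_le_mul_of_nonneg_left k4 h0
  have hexp : Real.exp (-4 * ∑ t ∈ range (L + 1), σ t) ≤ Q := by
    refine le_trans ?_ h2
    apply Real.exp_le_exp.2
    rw [Finset.sum_range_succ]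
    have := hσ L
    linarith
  have h13 : 1 / 2 * Real.exp (-4 * ∑ t ∈ range (L + 1), σ t) * a (L + 1) ≤ Q * ρ * a (L + 1) := by
    apply mul_le_mul_of_nonneg_right _ (ha _)
    have h14 : 0 ≤ Real.exp (-4 * ∑ t ∈ range (L + 1), σ t) := (Real.exp_pos _).le
    nlinarith
  push_cast
  nlinarith

end Pool.Agent.EPS
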