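import Pool.Agent.EPS.Mean

/-!
# Module `Sq` (helper64): second moment of the weight
-/

set_option autoImplicit false

namespace Pool.Agent.EPS

open Finset

theorem V_sq_le (w r n : ℕ) :
    V w r n ^ 2 ≤ ∑ D ∈ Lam w r, ∑ D' ∈ Lam w r, indD (D ∪ D') n := by
  rw [V_eq, sq, sum_mul_sum]
  refine sum_le_sum fun D _ => sum_le_sum fun D' _ => ?_
  have h1 : (-1 : ℝ) ^ D.card * indD D n * ((-1 : ℝ) ^ D'.card * indD D' n)
      = ((-1 : ℝ) ^ D.card * (-1 : ℝ) ^ D'.card) * indD (D ∪ D') n := by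
    rw [← indD_mul]; ring
  rw [h1]
  have h2 : ((-1 : ℝ) ^ D.card * (-1 : ℝ) ^ D'.card) ≤ 1 := by
    rcases neg_one_pow_eq_or ℝ D.card with h | h <;>
      rcases neg_one_pow_eq_or ℝ D'.card with h' | h' <;> rw [h, h'] <;> norm_num
  calc ((-1 : ℝ) ^ D.card * (-1 : ℝ) ^ D'.card) * indD (D ∪ D') n
      ≤ 1 * indD (D ∪ D') n := mul_le_mul_of_nonneg_right h2 (indD_nonneg _ _)
    _ = indD (D ∪ D') n := one_mul _

theorem indD_shift_sum (hC : Stmt_PFCount) (hI : Stmt_PFIndD) (E : Finset ℕ)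
    (hE : ∀ p ∈ E, p.Prime) (X h : ℕ) :
    ∑ m ∈ range X, indD E (m + h) ≤ X * ∏ p ∈ E, (1 : ℝ) / p + ∏ p ∈ E, (p : ℝ) := by
  have e : ∑ m ∈ range X, indD E (m + h) = ∑ n ∈ Ico h (h + X), indD E n := by
    rw [sum_Ico_eq_sum_range]
    simp only [Nat.add_sub_cancel_left]
    exact sum_congr rfl fun m _ => by rw [add_comm]
  have h1 := abs_le.mp (indD_count hC hI E hE (Nat.le_add_right h X))
  rw [e]
  have h2 : (((h + X : ℕ) : ℝ) - h) = X := by push_cast; ring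
  rw [h2] at h1
  linarith [h1.2]

theorem Sq_proof (hC : Stmt_PFCount) (hI : Stmt_PFIndD) (hP : Stmt_PrimeSum) : Stmt_Sq := by
  classical
  intro w r X h hw
  have hu : ∀ D ∈ Lam w r, ∀ D' ∈ Lam w r, ∀ p ∈ D ∪ D', p.Prime ∧ p ≤ w := by
    intro D hD D' hD' p hp
    rcases mem_union.mp hp with hp | hp
    · exact Lam_prime hD hp
    · exact Lam_prime hD' hp
  refine ⟨?_, ?_⟩
  · have h1 : ∑ m ∈ range X, V w r (m + h) ^ 2
        ≤ ∑ D ∈ Lam w r, ∑ D' ∈ Lam w r, ∑ m ∈ range X, indD (D ∪ D') (m + h) := by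
      refine (sum_le_sum fun m _ => V_sq_le w r (m + h)).trans (le_of_eq ?_)
      rw [sum_comm]
      exact sum_congr rfl fun D _ => sum_comm
    have h2 : ∑ D ∈ Lam w r, ∑ D' ∈ Lam w r, ∑ m ∈ range X, indD (D ∪ D') (m + h)
        ≤ ∑ D ∈ Lam w r, ∑ D' ∈ Lam w r,
          (X * ∏ p ∈ D ∪ D', (1 : ℝ) / p + ∏ p ∈ D ∪ D', (p : ℝ)) :=
      sum_le_sum fun D hD => sum_le_sum fun D' hD' =>
        indD_shift_sum hC hI _ (fun p hp => (hu D hD D' hD' p hp).1) X h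
    have h3 : ∑ D ∈ Lam w r, ∑ D' ∈ Lam w r,
          (X * ∏ p ∈ D ∪ D', (1 : ℝ) / p + ∏ p ∈ D ∪ D', (p : ℝ))
        = X * MM w r + ∑ D ∈ Lam w r, ∑ D' ∈ Lam w r, ∏ p ∈ D ∪ D', (p : ℝ) := by
      simp only [sum_add_distrib, MM, mul_sum]
    linarith [(hP w r hw).2]
  · intro p hp hwp
    have hnot : ∀ D ∈ Lam w r, ∀ D' ∈ Lam w r, p ∉ D ∪ D' := by
      intro D hD D' hD' hmem
      have := (hu D hD D' hD' p hmem).2
      omega
    have hins : ∀ D ∈ Lam w r, ∀ D' ∈ Lam w r, ∀ n : ℕ,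
        indD (D ∪ D') n * ind p n = indD (insert p (D ∪ D')) n := by
      intro D hD D' hD' n
      unfold indD
      rw [prod_insert (hnot D hD D' hD'), mul_comm]
    have h1 : ∑ m ∈ range X, V w r (m + h) ^ 2 * ind p (m + h)
        ≤ ∑ D ∈ Lam w r, ∑ D' ∈ Lam w r,
            ∑ m ∈ range X, indD (insert p (D ∪ D')) (m + h) := by
      have h1a : ∀ m ∈ range X, V w r (m + h) ^ 2 * ind p (m + h)
          ≤ ∑ D ∈ Lam w r, ∑ D' ∈ Lam w r, indD (insert p (D ∪ D')) (m + h) := by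
        intro m _
        refine (mul_le_mul_of_nonneg_right (V_sq_le w r (m + h)) (ind_nonneg p _)).trans
          (le_of_eq ?_)
        rw [sum_mul]
        refine sum_congr rfl fun D hD => ?_
        rw [sum_mul]
        exact sum_congr rfl fun D' hD' => hins D hD D' hD' _
      refine (sum_le_sum h1a).trans (le_of_eq ?_)
      rw [sum_comm]
      exact sum_congr rfl fun D _ => sum_comm
    have h2 : ∑ D ∈ Lam w r, ∑ D' ∈ Lam w r,
            ∑ m ∈ range X, indD (insert p (D ∪ D')) (m + h)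
        ≤ ∑ D ∈ Lam w r, ∑ D' ∈ Lam w r,
          ((X / p : ℝ) * ∏ q ∈ D ∪ D', (1 : ℝ) / q + p * ∏ q ∈ D ∪ D', (q : ℝ)) := by
      refine sum_le_sum fun D hD => sum_le_sum fun D' hD' => ?_
      refine (indD_shift_sum hC hI _ (fun q hq => ?_) X h).trans (le_of_eq ?_)
      · rcases mem_insert.mp hq with hq | hq
        · exact hq ▸ hp
        · exact (hu D hD D' hD' q hq).1
      · rw [prod_insert (hnot D hD D' hD'), prod_insert (hnot D hD D' hD')]
        ring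
    have h3 : ∑ D ∈ Lam w r, ∑ D' ∈ Lam w r,
          ((X / p : ℝ) * ∏ q ∈ D ∪ D', (1 : ℝ) / q + p * ∏ q ∈ D ∪ D', (q : ℝ))
        = X * MM w r / p
          + p * ∑ D ∈ Lam w r, ∑ D' ∈ Lam w r, ∏ q ∈ D ∪ D', (q : ℝ) := by
      simp only [sum_add_distrib, MM, ← mul_sum]
      ring
    have h4 := mul_le_mul_of_nonneg_left (hP w r hw).2 (Nat.cast_nonneg (α := ℝ) p)
    linarith

end Pool.Agent.EPS
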