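import Pool.Agent.EPS.Stmts

/-!
# EPS: one step of the descent (helper97)
-/

set_option autoImplicit false

namespace Pool.Agent.EPS

open Finset

namespace StepM

theorem F_zero_or_one (l0 X y n : ℕ) : F l0 X y n = 0 ∨ F l0 X y n = 1 := by
  unfold F
  split_ifs
  · right; rfl
  · left; rfl

theorem F_nonneg (l0 X y n : ℕ) : 0 ≤ F l0 X y n := by
  rcases F_zero_or_one l0 X y n with h | h <;> rw [h]
  exact zero_le_one

theorem F_eq_one_iff (l0 X y n : ℕ) :
    F l0 X y n = 1 ↔ (l0 ≤ n ∧ n < X ∧ ∀ p ∈ PrI y (Nat.sqrt X), ¬ (n % p ^ 2 < p)) := by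
  unfold F
  split_ifs with h
  · exact ⟨fun _ => h, fun _ => rfl⟩
  · exact ⟨fun h' => absurd h' (by norm_num), fun h' => absurd h' h⟩

theorem F_of_ge (l0 X y n : ℕ) (h : X ≤ n) : F l0 X y n = 0 := by
  rcases F_zero_or_one l0 X y n with h' | h'
  · exact h'
  · rw [F_eq_one_iff] at h'
    omega

theorem F_of_lt (l0 X y n : ℕ) (h : n < l0) : F l0 X y n = 0 := by
  rcases F_zero_or_one l0 X y n with h' | h'
  · exact h'
  · rw [F_eq_one_iff] at h'
    omega

theorem ind_nonneg (p n : ℕ) : 0 ≤ ind p n := by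
  unfold ind
  split_ifs <;> norm_num

theorem F_diff (l0 X P P' P'' n : ℕ) (h2 : P' ≤ P'') :
    F l0 X P' n - F l0 X P n ≤ (∑ p ∈ PrI P P', ind p n) * F l0 X P'' n := by
  have hs : 0 ≤ ∑ p ∈ PrI P P', ind p n := sum_nonneg fun p _ => ind_nonneg p n
  rcases F_zero_or_one l0 X P' n with h' | h'
  · have := F_nonneg l0 X P n
    have := F_nonneg l0 X P'' n
    rw [h']
    have : 0 ≤ (∑ p ∈ PrI P P', ind p n) * F l0 X P'' n := mul_nonneg hs this
    linarith
  · have h'' : F l0 X P'' n = 1 := by
      rw [F_eq_one_iff] at h' ⊢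
      refine ⟨h'.1, h'.2.1, fun p hp => h'.2.2 p ?_⟩
      unfold PrI at hp ⊢
      rw [mem_filter, mem_Ioc] at hp ⊢
      exact ⟨⟨by omega, hp.1.2⟩, hp.2⟩
    rcases F_zero_or_one l0 X P n with h | h
    · rw [h, h', h'']
      rw [F_eq_one_iff] at h'
      have hne : ¬ (l0 ≤ n ∧ n < X ∧ ∀ p ∈ PrI P (Nat.sqrt X), ¬ (n % p ^ 2 < p)) := by
        rw [← F_eq_one_iff, h]
        norm_num
      have hex : ∃ p ∈ PrI P (Nat.sqrt X), n % p ^ 2 < p := by
        by_contra hcon
        push Not at hcon
        exact hne ⟨h'.1, h'.2.1, fun p hp => not_lt.mpr (hcon p hp)⟩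
      obtain ⟨p, hp, hhit⟩ := hex
      have hpP : p ∈ PrI P P' := by
        by_contra hcon
        apply h'.2.2 p ?_ hhit
        unfold PrI at hp hcon ⊢
        rw [mem_filter, mem_Ioc] at hp hcon ⊢
        refine ⟨⟨?_, hp.1.2⟩, hp.2⟩
        by_contra hle
        exact hcon ⟨⟨hp.1.1, by omega⟩, hp.2⟩
      have h1 : ind p n ≤ ∑ p ∈ PrI P P', ind p n :=
        single_le_sum (f := fun p => ind p n) (fun p _ => ind_nonneg p n) hpP
      have h2 : ind p n = 1 := by
        unfold ind
        rw [if_pos hhit]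
      linarith
    · rw [h, h', h'']
      linarith

theorem sum_ind_eq (P P' n : ℕ) : ∑ p ∈ PrI P P', ind p n = G P P' n + sig P P' := by
  unfold G sig
  rw [sum_sub_distrib]
  ring

theorem sum_shift_eq (f : ℕ → ℝ) (X h : ℕ) :
    ∑ m ∈ range X, f (m + h) = ∑ n ∈ Ico h (X + h), f n := by
  rw [Finset.sum_Ico_eq_sum_range]
  have : X + h - h = X := by omega
  rw [this]
  exact sum_congr rfl fun m _ => by rw [add_comm]

/-- shifting a function supported in `[l0, X)` -/
theorem sum_le_shift (f : ℕ → ℝ) (hf : ∀ n, 0 ≤ f n) (l0 X h : ℕ) (hl : h ≤ l0)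
    (h0 : ∀ n, n < l0 → f n = 0) :
    ∑ n ∈ range X, f n ≤ ∑ m ∈ range X, f (m + h) := by
  classical
  rw [sum_shift_eq, ← sum_filter_ne_zero]
  apply sum_le_sum_of_subset_of_nonneg
  · intro n hn
    rw [mem_filter, mem_range] at hn
    rw [mem_Ico]
    have : l0 ≤ n := by
      by_contra hlt
      exact hn.2 (h0 n (by omega))
    omega
  · intro i _ _
    exact hf i

theorem shift_le_sum (f : ℕ → ℝ) (hf : ∀ n, 0 ≤ f n) (X h : ℕ)
    (h0 : ∀ n, X ≤ n → f n = 0) :
    ∑ m ∈ range X, f (m + h) ≤ ∑ n ∈ range X, f n := by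
  classical
  rw [sum_shift_eq, ← sum_filter_ne_zero]
  apply sum_le_sum_of_subset_of_nonneg
  · intro n hn
    rw [mem_filter, mem_Ico] at hn
    rw [mem_range]
    by_contra hlt
    exact hn.2 (h0 n (by omega))
  · intro i _ _
    exact hf i

theorem MM_nonneg' (w r : ℕ) : 0 ≤ MM w r := by
  unfold MM
  exact sum_nonneg fun D _ => sum_nonneg fun D' _ => prod_nonneg fun p _ => by positivity

end StepM

open StepM in
/-- one step of the descent -/
theorem Step_proof (hN : Stmt_VNonneg) (hSq : Stmt_Sq) (hVar : Stmt_Var) (hCh : Stmt_Change) :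
    Stmt_Step := by
  intro w r l0 X P P' P'' l hr hw hwP hPP' hP'P'' hl hll0 hX
  classical
  have hV : ∀ n, 0 ≤ V w r n := fun n => hN w r n hr
  have hσ : 0 ≤ sig P P' := by
    unfold sig
    exact sum_nonneg fun p _ => by positivity
  have hl0 : (0 : ℝ) < l := by exact_mod_cast hl
  -- notation
  let Fm : ℕ → ℝ := fun m => if ∃ h < l, F l0 X P'' (m + h) = 1 then 1 else 0
  have hFm0 : ∀ m, 0 ≤ Fm m := fun m => by
    simp only [Fm]; split_ifs <;> norm_num
  have hFm1 : ∀ m, Fm m ≤ 1 := fun m => by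
    simp only [Fm]; split_ifs <;> norm_num
  have hFmF : ∀ m h, h < l → F l0 X P'' (m + h) ≤ Fm m := by
    intro m h hh
    rcases F_zero_or_one l0 X P'' (m + h) with h' | h'
    · rw [h']; exact hFm0 m
    · rw [h']
      simp only [Fm]
      rw [if_pos ⟨h, hh, h'⟩]
  let Gp : ℕ → ℝ := fun n => ∑ p ∈ PrI P P', ind p n
  have hGp : ∀ n, 0 ≤ Gp n := fun n => sum_nonneg fun p _ => ind_nonneg p n
  let Bad : Finset ℕ := (range X).filter (fun m => ∃ h < l, F l0 X P'' (m + h) ≠ F l0 X P'' m)
  have hBadcard : (Bad.card : ℝ) ≤ 5 * l * X / P'' := by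
    have := hCh l0 X P'' l (by omega) hX
    simp only [Bad]
    convert this
  let S : ℝ := ∑ n ∈ range X, V w r n * Gp n * F l0 X P'' n
  -- first reduction
  have hA : mass w r l0 X P' - mass w r l0 X P ≤ S := by
    unfold mass
    rw [← sum_sub_distrib]
    apply sum_le_sum
    intro n _
    have h1 := F_diff l0 X P P' P'' n hP'P''
    have h2 := mul_le_mul_of_nonneg_left h1 (hV n)
    calc V w r n * F l0 X P' n - V w r n * F l0 X P n
        = V w r n * (F l0 X P' n - F l0 X P n) := by ring
      _ ≤ V w r n * ((∑ p ∈ PrI P P', ind p n) * F l0 X P'' n) := h2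
      _ = V w r n * Gp n * F l0 X P'' n := by simp only [Gp]; ring
  -- averaging
  have hB : l * S ≤ ∑ m ∈ range X, Fm m * ∑ h ∈ range l, V w r (m + h) * Gp (m + h) := by
    have e1 : (l : ℝ) * S = ∑ h ∈ range l, S := by simp
    have e2 : ∑ m ∈ range X, Fm m * ∑ h ∈ range l, V w r (m + h) * Gp (m + h) =
        ∑ h ∈ range l, ∑ m ∈ range X, Fm m * (V w r (m + h) * Gp (m + h)) := by
      rw [sum_comm]
      exact sum_congr rfl fun m _ => mul_sum _ _ _
    rw [e1, e2]
    apply sum_le_sum
    intro h hh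
    rw [mem_range] at hh
    have h1 := sum_le_shift (fun n => V w r n * Gp n * F l0 X P'' n)
      (fun n => mul_nonneg (mul_nonneg (hV n) (hGp n)) (F_nonneg _ _ _ _)) l0 X h (by omega)
      (fun n hn => by simp only [F_of_lt l0 X P'' n hn, mul_zero])
    refine h1.trans (sum_le_sum fun m _ => ?_)
    have h2 := hFmF m h hh
    have h3 : 0 ≤ V w r (m + h) * Gp (m + h) := mul_nonneg (hV _) (hGp _)
    nlinarith [mul_le_mul_of_nonneg_left h2 h3]
  -- splitting of `Gp`
  have hC : ∑ m ∈ range X, Fm m * ∑ h ∈ range l, V w r (m + h) * Gp (m + h) =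
      sig P P' * (∑ m ∈ range X, Fm m * ∑ h ∈ range l, V w r (m + h)) +
        ∑ m ∈ range X, Fm m * ∑ h ∈ range l, V w r (m + h) * G P P' (m + h) := by
    rw [mul_sum, ← sum_add_distrib]
    apply sum_congr rfl
    intro m _
    have : ∑ h ∈ range l, V w r (m + h) * Gp (m + h) =
        sig P P' * (∑ h ∈ range l, V w r (m + h)) +
          ∑ h ∈ range l, V w r (m + h) * G P P' (m + h) := by
      rw [mul_sum, ← sum_add_distrib]
      apply sum_congr rfl
      intro h _
      simp only [Gp]
      rw [sum_ind_eq]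
      ring
    rw [this]
    ring
  -- the first sum
  have hD : ∑ m ∈ range X, Fm m * ∑ h ∈ range l, V w r (m + h) ≤
      l * mass w r l0 X P'' +
        l * Real.sqrt (5 * l * X / P'' * (X * MM w r + (w : ℝ) ^ (4 * r))) := by
    have e2 : ∑ m ∈ range X, Fm m * ∑ h ∈ range l, V w r (m + h) =
        ∑ h ∈ range l, ∑ m ∈ range X, Fm m * V w r (m + h) := by
      rw [sum_comm]
      exact sum_congr rfl fun m _ => mul_sum _ _ _
    rw [e2]
    have hh1 : ∀ h ∈ range l, ∑ m ∈ range X, Fm m * V w r (m + h) ≤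
        mass w r l0 X P'' +
          Real.sqrt (5 * l * X / P'' * (X * MM w r + (w : ℝ) ^ (4 * r))) := by
      intro h hh
      rw [mem_range] at hh
      have hpt : ∀ m ∈ range X, Fm m * V w r (m + h) ≤
          V w r (m + h) * F l0 X P'' (m + h) + (if m ∈ Bad then V w r (m + h) else 0) := by
        intro m hm
        by_cases hb : m ∈ Bad
        · rw [if_pos hb]
          have h1 := mul_nonneg (hV (m + h)) (F_nonneg l0 X P'' (m + h))
          have h2 := mul_le_mul_of_nonneg_right (hFm1 m) (hV (m + h))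
          linarith
        · rw [if_neg hb, add_zero]
          have hcon : ∀ h' < l, F l0 X P'' (m + h') = F l0 X P'' m := by
            intro h' hh'
            by_contra hne
            exact hb (mem_filter.mpr ⟨hm, h', hh', hne⟩)
          have : Fm m ≤ F l0 X P'' (m + h) := by
            simp only [Fm]
            split_ifs with hif
            · obtain ⟨h', hh', h1⟩ := hif
              rw [hcon h hh, ← hcon h' hh', h1]
            · exact F_nonneg _ _ _ _
          have := mul_le_mul_of_nonneg_right this (hV (m + h))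
          linarith
      have h1 := sum_le_sum hpt
      rw [sum_add_distrib] at h1
      have h2 : ∑ m ∈ range X, V w r (m + h) * F l0 X P'' (m + h) ≤ mass w r l0 X P'' := by
        unfold mass
        exact shift_le_sum (fun n => V w r n * F l0 X P'' n)
          (fun n => mul_nonneg (hV n) (F_nonneg _ _ _ _)) X h
          (fun n hn => by simp only [F_of_ge l0 X P'' n hn, mul_zero])
      have h3 : ∑ m ∈ range X, (if m ∈ Bad then V w r (m + h) else 0) ≤
          Real.sqrt (5 * l * X / P'' * (X * MM w r + (w : ℝ) ^ (4 * r))) := by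
        have hsq := (hSq w r X h hw).1
        apply Real.le_sqrt_of_sq_le
        have hCS := sum_mul_sq_le_sq_mul_sq (range X) (fun m => if m ∈ Bad then (1 : ℝ) else 0)
          (fun m => V w r (m + h))
        have e3 : ∑ m ∈ range X, (if m ∈ Bad then (1 : ℝ) else 0) * V w r (m + h) =
            ∑ m ∈ range X, (if m ∈ Bad then V w r (m + h) else 0) :=
          sum_congr rfl fun m _ => by split_ifs <;> simp
        have e4 : ∑ m ∈ range X, (if m ∈ Bad then (1 : ℝ) else 0) ^ 2 ≤ 5 * l * X / P'' := by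
          have : ∑ m ∈ range X, (if m ∈ Bad then (1 : ℝ) else 0) ^ 2 = Bad.card := by
            have e5 : ∀ m ∈ range X, (if m ∈ Bad then (1 : ℝ) else 0) ^ 2 =
                (if m ∈ Bad then (1 : ℝ) else 0) := by
              intro m _
              split_ifs <;> simp
            rw [sum_congr rfl e5, sum_ite_mem]
            have : range X ∩ Bad = Bad := inter_eq_right.mpr (filter_subset _ _)
            rw [this]
            simp
          rw [this]
          exact hBadcard
        rw [e3] at hCS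
        refine hCS.trans ?_
        apply mul_le_mul e4 hsq (sum_nonneg fun m _ => sq_nonneg _)
        exact le_trans (Nat.cast_nonneg _) hBadcard
      linarith
    have h2 := sum_le_sum hh1
    have e3 : ∑ h ∈ range l, (mass w r l0 X P'' +
          Real.sqrt (5 * l * X / P'' * (X * MM w r + (w : ℝ) ^ (4 * r)))) =
        l * mass w r l0 X P'' +
        l * Real.sqrt (5 * l * X / P'' * (X * MM w r + (w : ℝ) ^ (4 * r))) := by
      rw [sum_const, card_range, nsmul_eq_mul]
      ring
    rw [e3] at h2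
    exact h2
  -- the second sum
  have hE : ∑ m ∈ range X, Fm m * ∑ h ∈ range l, V w r (m + h) * G P P' (m + h) ≤
      Real.sqrt (X * VarB w r X P P' l) := by
    have hv := hVar w r X P P' l hw hwP hPP' hl
    apply Real.le_sqrt_of_sq_le
    have hCS := sum_mul_sq_le_sq_mul_sq (range X) Fm
      (fun m => ∑ h ∈ range l, V w r (m + h) * G P P' (m + h))
    refine hCS.trans ?_
    apply mul_le_mul ?_ hv (sum_nonneg fun m _ => sq_nonneg _) (Nat.cast_nonneg _)
    have : ∑ m ∈ range X, Fm m ^ 2 ≤ ∑ m ∈ range X, (1 : ℝ) := by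
      apply sum_le_sum
      intro m _
      have := hFm0 m
      have := hFm1 m
      nlinarith
    simpa using this
  -- conclusion
  have hfin : l * S ≤ sig P P' * (l * mass w r l0 X P'' +
        l * Real.sqrt (5 * l * X / P'' * (X * MM w r + (w : ℝ) ^ (4 * r)))) +
        Real.sqrt (X * VarB w r X P P' l) := by
    rw [hC] at hB
    have := mul_le_mul_of_nonneg_left hD hσ
    linarith
  have hfin2 : S ≤ sig P P' * mass w r l0 X P'' +
      sig P P' * Real.sqrt (5 * l * X / P'' * (X * MM w r + (w : ℝ) ^ (4 * r))) +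
      Real.sqrt (X * VarB w r X P P' l) / l := by
    have h1 : S = (l * S) / l := by field_simp
    rw [h1]
    have h2 : (l * S) / l ≤ (sig P P' * (l * mass w r l0 X P'' +
        l * Real.sqrt (5 * l * X / P'' * (X * MM w r + (w : ℝ) ^ (4 * r)))) +
        Real.sqrt (X * VarB w r X P P' l)) / l := by
      gcongr
    refine h2.trans (le_of_eq ?_)
    field_simp
  linarith

end Pool.Agent.EPS
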