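import Pool.Agent.EPS.VNonneg

/-!
# The top range by the union bound (helper78)
-/

set_option autoImplicit false

namespace Pool.Agent.EPS.TopAux

open Finset

theorem ind_nonneg (p n : ℕ) : 0 ≤ ind p n := by
  unfold ind; split_ifs <;> norm_num

theorem ind_le_one (p n : ℕ) : ind p n ≤ 1 := by
  unfold ind; split_ifs <;> norm_num

theorem mem_PrI {a b p : ℕ} : p ∈ PrI a b ↔ (a < p ∧ p ≤ b) ∧ p.Prime := by
  simp [PrI]

theorem F_lower (l0 X z n : ℕ) (h1 : l0 ≤ n) (h2 : n < X) :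
    1 - ∑ p ∈ PrI z (Nat.sqrt X), ind p n ≤ F l0 X z n := by
  unfold F
  split_ifs with h
  · have : 0 ≤ ∑ p ∈ PrI z (Nat.sqrt X), ind p n := sum_nonneg fun p _ => ind_nonneg _ _
    linarith
  · have : ∃ p ∈ PrI z (Nat.sqrt X), n % p ^ 2 < p := by
      by_contra hc
      push Not at hc
      exact h ⟨h1, h2, fun p hp => not_lt.2 (hc p hp)⟩
    obtain ⟨p, hp, hpn⟩ := this
    have h3 : ind p n ≤ ∑ p ∈ PrI z (Nat.sqrt X), ind p n :=
      single_le_sum (f := fun p => ind p n) (fun p _ => ind_nonneg _ _) hp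
    have h4 : ind p n = 1 := if_pos hpn
    linarith

theorem F_nonneg (l0 X y n : ℕ) : 0 ≤ F l0 X y n := by
  unfold F; split_ifs <;> norm_num

/-- the tail of `∑ 1/p^2` -/
theorem tail (z B : ℕ) (hz : 1 ≤ z) : ∑ p ∈ PrI z B, (1 : ℝ) / (p : ℝ) ^ 2 ≤ 1 / z := by
  have key : ∀ B : ℕ, z ≤ B → ∑ p ∈ Ioc z B, (1 : ℝ) / (p : ℝ) ^ 2 ≤ 1 / z - 1 / B := by
    intro B hB
    induction B, hB using Nat.le_induction with
    | base => simp
    | succ B hB ih =>
      have hI : Ioc z (B + 1) = insert (B + 1) (Ioc z B) := by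
        ext t; simp only [mem_Ioc, mem_insert]; omega
      rw [hI, sum_insert (by simp)]
      have hBpos : (0 : ℝ) < B := by exact_mod_cast (lt_of_lt_of_le hz hB)
      have : (1 : ℝ) / ((B + 1 : ℕ) : ℝ) ^ 2 ≤ 1 / B - 1 / ((B + 1 : ℕ) : ℝ) := by
        push_cast
        rw [div_sub_div _ _ (by positivity) (by positivity), div_le_div_iff₀ (by positivity) (by positivity)]
        nlinarith
      linarith
  by_cases hB : z ≤ B
  · calc ∑ p ∈ PrI z B, (1 : ℝ) / (p : ℝ) ^ 2 ≤ ∑ p ∈ Ioc z B, (1 : ℝ) / (p : ℝ) ^ 2 :=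
        sum_le_sum_of_subset_of_nonneg (filter_subset _ _) (fun _ _ _ => by positivity)
      _ ≤ 1 / z - 1 / B := key B hB
      _ ≤ 1 / z := by
        have : (0 : ℝ) ≤ 1 / B := by positivity
        linarith
  · have : PrI z B = ∅ := by
      unfold PrI
      rw [Ioc_eq_empty (by omega)]
      simp
    rw [this]; simp

/-- mass of the multiples windows of one prime -/
theorem one_prime (hM : Stmt_Mean) (w r X p : ℕ) (hr : Even r) (hw : 2 ≤ w) (hp : 0 < p) (hV0 : 0 ≤ V0 w r) :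
    ∑ n ∈ range X, V w r n * ind p n
      ≤ ((X : ℝ) / (p : ℝ) ^ 2 + 1) * (p * V0 w r + (w : ℝ) ^ (2 * r)) := by
  have hV := VNonneg_proof
  have e1 : ∑ n ∈ range X, V w r n * ind p n = ∑ n ∈ (range X).filter (fun n => n % p ^ 2 < p), V w r n := by
    rw [sum_filter]
    refine sum_congr rfl fun n _ => ?_
    unfold ind
    split_ifs <;> simp
  have hp2 : 0 < p ^ 2 := by positivity
  have e2 : ∑ n ∈ (range X).filter (fun n => n % p ^ 2 < p), V w r n
      ≤ ∑ q ∈ (range (X / p ^ 2 + 1)) ×ˢ (range p), V w r (q.1 * p ^ 2 + q.2) := by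
    have hinj : Set.InjOn (fun n => (n / p ^ 2, n % p ^ 2))
        (((range X).filter (fun n => n % p ^ 2 < p) : Finset ℕ) : Set ℕ) := by
      intro a _ b _ hab
      simp only [Prod.mk.injEq] at hab
      rw [← Nat.div_add_mod a (p ^ 2), ← Nat.div_add_mod b (p ^ 2), hab.1, hab.2]
    have e3 : ∑ n ∈ (range X).filter (fun n => n % p ^ 2 < p), V w r n
        = ∑ q ∈ ((range X).filter (fun n => n % p ^ 2 < p)).image (fun n => (n / p ^ 2, n % p ^ 2)),
          V w r (q.1 * p ^ 2 + q.2) := by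
      rw [sum_image hinj]
      refine sum_congr rfl fun n _ => ?_
      rw [mul_comm, Nat.div_add_mod]
    rw [e3]
    refine sum_le_sum_of_subset_of_nonneg ?_ (fun q _ _ => hV w r _ hr)
    intro q hq
    rw [mem_image] at hq
    obtain ⟨n, hn, rfl⟩ := hq
    rw [mem_filter, mem_range] at hn
    rw [mem_product, mem_range, mem_range]
    refine ⟨?_, hn.2⟩
    have : n / p ^ 2 ≤ X / p ^ 2 := Nat.div_le_div_right hn.1.le
    simp only
    omega
  have e4 : ∀ a : ℕ, ∑ b ∈ range p, V w r (a * p ^ 2 + b) ≤ p * V0 w r + (w : ℝ) ^ (2 * r) := by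
    intro a
    have h1 := hM w r (a * p ^ 2) (a * p ^ 2 + p) hw (by omega)
    have h2 : ∑ n ∈ Ico (a * p ^ 2) (a * p ^ 2 + p), V w r n = ∑ b ∈ range p, V w r (a * p ^ 2 + b) := by
      rw [sum_Ico_eq_sum_range]
      simp
    rw [h2] at h1
    have h3 := (abs_le.1 h1).2
    push_cast at h3
    have h4 : ((a : ℝ) * (p : ℝ) ^ 2 + p - (a : ℝ) * (p : ℝ) ^ 2) * V0 w r = p * V0 w r := by ring
    rw [h4] at h3
    linarith
  have hw0 : (0 : ℝ) ≤ p * V0 w r + (w : ℝ) ^ (2 * r) := by positivity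
  calc ∑ n ∈ range X, V w r n * ind p n
      ≤ ∑ q ∈ (range (X / p ^ 2 + 1)) ×ˢ (range p), V w r (q.1 * p ^ 2 + q.2) := by rw [e1]; exact e2
    _ = ∑ a ∈ range (X / p ^ 2 + 1), ∑ b ∈ range p, V w r (a * p ^ 2 + b) := by rw [sum_product]
    _ ≤ ∑ a ∈ range (X / p ^ 2 + 1), (p * V0 w r + (w : ℝ) ^ (2 * r)) := sum_le_sum fun a _ => e4 a
    _ = ((X / p ^ 2 + 1 : ℕ) : ℝ) * (p * V0 w r + (w : ℝ) ^ (2 * r)) := by
        rw [sum_const, card_range, nsmul_eq_mul]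
    _ ≤ ((X : ℝ) / (p : ℝ) ^ 2 + 1) * (p * V0 w r + (w : ℝ) ^ (2 * r)) := by
        refine mul_le_mul_of_nonneg_right ?_ hw0
        push_cast
        have := @Nat.cast_div_le ℝ _ _ _ X (p ^ 2)
        push_cast at this
        linarith

theorem V0_nonneg (w r : ℕ) (hr : Even r) : 0 ≤ V0 w r := by
  have h := (Bonf_proof (PrI 0 w) r (fun p => (1 : ℝ) / p) (fun i hi => by
    have h1 : 1 < i := (mem_PrI.1 hi).2.one_lt
    have h2 : (1 : ℝ) ≤ i := by exact_mod_cast h1.le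
    refine ⟨by positivity, ?_⟩
    rw [div_le_one (by linarith)]
    exact h2) hr).1
  refine le_trans ?_ h
  refine prod_nonneg fun i hi => ?_
  have h1 : 1 < i := (mem_PrI.1 hi).2.one_lt
  have h2 : (1 : ℝ) ≤ i := by exact_mod_cast h1.le
  have : (1 : ℝ) / i ≤ 1 := by
    rw [div_le_one (by linarith)]
    exact h2
  linarith

theorem _root_.Pool.Agent.EPS.Top_proof (hM : Stmt_Mean) : Stmt_Top := by
  intro w r l0 X z hr hw hz hzX hl0
  have hV := VNonneg_proof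
  have hV0 := V0_nonneg w r hr
  have hW : (0 : ℝ) ≤ (w : ℝ) ^ (2 * r) := by positivity
  set S := PrI z (Nat.sqrt X) with hS
  -- lower bound of the mass
  have h1 : ∑ n ∈ Ico l0 X, V w r n - ∑ p ∈ S, ∑ n ∈ range X, V w r n * ind p n ≤ mass w r l0 X z := by
    have a1 : ∑ n ∈ Ico l0 X, V w r n * F l0 X z n ≤ mass w r l0 X z := by
      unfold mass
      refine sum_le_sum_of_subset_of_nonneg ?_ (fun n _ _ => mul_nonneg (hV w r n hr) (F_nonneg _ _ _ _))
      intro n hn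
      rw [mem_Ico] at hn
      exact mem_range.2 hn.2
    have a2 : ∑ n ∈ Ico l0 X, (V w r n - ∑ p ∈ S, V w r n * ind p n) ≤ ∑ n ∈ Ico l0 X, V w r n * F l0 X z n := by
      refine sum_le_sum fun n hn => ?_
      rw [mem_Ico] at hn
      rw [← mul_sum]
      have := mul_le_mul_of_nonneg_left (F_lower l0 X z n hn.1 hn.2) (hV w r n hr)
      linarith
    rw [sum_sub_distrib, sum_comm] at a2
    have a3 : ∑ p ∈ S, ∑ n ∈ Ico l0 X, V w r n * ind p n ≤ ∑ p ∈ S, ∑ n ∈ range X, V w r n * ind p n := by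
      refine sum_le_sum fun p _ => ?_
      refine sum_le_sum_of_subset_of_nonneg ?_ (fun n _ _ => mul_nonneg (hV w r n hr) (ind_nonneg _ _))
      intro n hn
      rw [mem_Ico] at hn
      exact mem_range.2 hn.2
    linarith
  have h2 := (abs_le.1 (hM w r l0 X hw hl0)).1
  -- the primes
  have h3 : ∑ p ∈ S, ∑ n ∈ range X, V w r n * ind p n
      ≤ X * V0 w r * sig z (Nat.sqrt X) + V0 w r * (Nat.sqrt X * ((PrI 0 (Nat.sqrt X)).card : ℝ))
        + (w : ℝ) ^ (2 * r) * (2 * X / z) := by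
    have b1 : ∀ p ∈ S, ∑ n ∈ range X, V w r n * ind p n
        ≤ X * V0 w r * ((1 : ℝ) / p) + V0 w r * Nat.sqrt X + (w : ℝ) ^ (2 * r) * (2 * X) * (1 / (p : ℝ) ^ 2) := by
      intro p hp
      rw [hS, mem_PrI] at hp
      have hp0 : 0 < p := hp.2.pos
      have hpR : (0 : ℝ) < p := by exact_mod_cast hp0
      refine le_trans (one_prime hM w r X p hr hw hp0 hV0) ?_
      have c1 : (p : ℝ) ≤ Nat.sqrt X := by exact_mod_cast hp.1.2
      have c2 : (p : ℝ) ^ 2 ≤ X := by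
        have : p ^ 2 ≤ X := by
          calc p ^ 2 ≤ (Nat.sqrt X) ^ 2 := Nat.pow_le_pow_left hp.1.2 2
            _ ≤ X := Nat.sqrt_le' X
        exact_mod_cast this
      have c3 : (1 : ℝ) ≤ X / (p : ℝ) ^ 2 := by
        rw [le_div_iff₀ (by positivity)]; linarith
      have c4 : ((X : ℝ) / (p : ℝ) ^ 2 + 1) * (p * V0 w r + (w : ℝ) ^ (2 * r))
          = X * V0 w r * ((1 : ℝ) / p) + V0 w r * p + (w : ℝ) ^ (2 * r) * ((X : ℝ) / (p : ℝ) ^ 2 + 1) := by
        field_simp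
      rw [c4]
      have c5 : V0 w r * p ≤ V0 w r * Nat.sqrt X := mul_le_mul_of_nonneg_left c1 hV0
      have c6 : (w : ℝ) ^ (2 * r) * ((X : ℝ) / (p : ℝ) ^ 2 + 1)
          ≤ (w : ℝ) ^ (2 * r) * (2 * X) * (1 / (p : ℝ) ^ 2) := by
        rw [mul_assoc]
        refine mul_le_mul_of_nonneg_left ?_ hW
        have : (2 : ℝ) * X * (1 / (p : ℝ) ^ 2) = 2 * (X / (p : ℝ) ^ 2) := by ring
        rw [this]; linarith
      linarith
    refine le_trans (sum_le_sum b1) ?_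
    rw [sum_add_distrib, sum_add_distrib, sum_const, nsmul_eq_mul, ← mul_sum, ← mul_sum]
    have d1 : (S.card : ℝ) ≤ ((PrI 0 (Nat.sqrt X)).card : ℝ) := by
      have : S ⊆ PrI 0 (Nat.sqrt X) := by
        intro p hp
        rw [hS, mem_PrI] at hp
        exact mem_PrI.2 ⟨⟨hp.2.pos, hp.1.2⟩, hp.2⟩
      exact_mod_cast card_le_card this
    have d2 : ∑ p ∈ S, (1 : ℝ) / (p : ℝ) ^ 2 ≤ 1 / z := tail z _ hz
    have d3 : (S.card : ℝ) * (V0 w r * (Nat.sqrt X : ℝ))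
        ≤ V0 w r * (Nat.sqrt X * ((PrI 0 (Nat.sqrt X)).card : ℝ)) := by
      have : (S.card : ℝ) * (V0 w r * (Nat.sqrt X : ℝ)) ≤ ((PrI 0 (Nat.sqrt X)).card : ℝ) * (V0 w r * (Nat.sqrt X : ℝ)) :=
        mul_le_mul_of_nonneg_right d1 (by positivity)
      linarith
    have d4 : (w : ℝ) ^ (2 * r) * (2 * X) * ∑ p ∈ S, (1 : ℝ) / (p : ℝ) ^ 2
        ≤ (w : ℝ) ^ (2 * r) * (2 * X / z) := by
      have := mul_le_mul_of_nonneg_left d2 (show (0 : ℝ) ≤ (w : ℝ) ^ (2 * r) * (2 * X) by positivity)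
      calc _ ≤ _ := this
        _ = _ := by ring
    have d5 : X * V0 w r * ∑ p ∈ S, (1 : ℝ) / p = X * V0 w r * sig z (Nat.sqrt X) := rfl
    linarith
  have h4 : X * V0 w r * (1 - sig z (Nat.sqrt X))
      - V0 w r * (l0 + Nat.sqrt X * ((PrI 0 (Nat.sqrt X)).card : ℝ))
      - (w : ℝ) ^ (2 * r) * (1 + 2 * X / z)
      = (X - l0) * V0 w r - (w : ℝ) ^ (2 * r) - (X * V0 w r * sig z (Nat.sqrt X)
        + V0 w r * (Nat.sqrt X * ((PrI 0 (Nat.sqrt X)).card : ℝ)) + (w : ℝ) ^ (2 * r) * (2 * X / z)) := by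
    ring
  rw [h4]
  linarith

end Pool.Agent.EPS.TopAux
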