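import Pool.Agent.EPS.Stmts

/-!
# The lower bound of `V0` (helper36)
-/

set_option autoImplicit false

namespace Pool.Agent.EPS

open Finset

theorem exp_neg_two_le (t : ℝ) (h0 : 0 ≤ t) (h1 : t ≤ 1 / 2) : Real.exp (-2 * t) ≤ 1 - t := by
  have h2 : 1 + 2 * t ≤ Real.exp (2 * t) := by
    have := Real.add_one_le_exp (2 * t)
    linarith
  have h3 : 1 ≤ (1 - t) * Real.exp (2 * t) := by nlinarith
  have h4 : Real.exp (-2 * t) * Real.exp (2 * t) = 1 := by
    rw [← Real.exp_add]; simp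
  have h5 : 0 < Real.exp (2 * t) := Real.exp_pos _
  by_contra hcon
  push Not at hcon
  nlinarith

theorem V0Bound_proof (hB : Stmt_Bonf) : Stmt_V0Bound := by
  intro w r hr
  have hp2 : ∀ p ∈ PrI 0 w, (0 : ℝ) ≤ 1 / p ∧ (1 : ℝ) / p ≤ 1 / 2 := by
    intro p hp
    simp only [PrI, mem_filter] at hp
    have h2 : (2 : ℝ) ≤ p := by exact_mod_cast hp.2.two_le
    refine ⟨by positivity, ?_⟩
    apply one_div_le_one_div_of_le (by norm_num) h2
  have h := (hB (PrI 0 w) r (fun p => (1 : ℝ) / p) (fun i hi => ⟨(hp2 i hi).1, by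
    have := (hp2 i hi).2
    show (1 : ℝ) / i ≤ 1
    linarith⟩) hr).1
  refine le_trans ?_ h
  calc Real.exp (-2 * sig 0 w) = ∏ p ∈ PrI 0 w, Real.exp (-2 * ((1 : ℝ) / p)) := by
        rw [← Real.exp_sum, sig, Finset.mul_sum]
    _ ≤ ∏ p ∈ PrI 0 w, (1 - (1 : ℝ) / p) := by
        apply Finset.prod_le_prod
        · intro p _; positivity
        · intro p hp
          exact exp_neg_two_le _ (hp2 p hp).1 (hp2 p hp).2

end Pool.Agent.EPS
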