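import Pool.Agent.EPS.Bonf

/-!
# Nonnegativity of the sieve weight (helper78)
-/

set_option autoImplicit false

namespace Pool.Agent.EPS.VNonnegAux

open Finset

theorem ind_nonneg' (p n : ℕ) : 0 ≤ ind p n := by
  unfold ind; split_ifs <;> norm_num

theorem ind_le_one' (p n : ℕ) : ind p n ≤ 1 := by
  unfold ind; split_ifs <;> norm_num

theorem _root_.Pool.Agent.EPS.VNonneg_proof : Stmt_VNonneg := by
  intro w r n hr
  unfold V
  have h := (Bonf_proof (PrI 0 w) r (fun p => ind p n)
    (fun i _ => ⟨ind_nonneg' _ _, ind_le_one' _ _⟩) hr).1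
  refine le_trans ?_ h
  exact prod_nonneg fun i _ => by linarith [ind_le_one' i n]

end Pool.Agent.EPS.VNonnegAux
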