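import Pool.Agent.EPS.Stmts

/-!
# Module `Var` (helper98): the second moment of `∑_{h<l} V (m+h) G (m+h)`
-/

set_option autoImplicit false

namespace Pool.Agent.EPS

open Finset

namespace VarAux

lemma mem_PrI {a b p : ℕ} : p ∈ PrI a b ↔ (a < p ∧ p ≤ b) ∧ p.Prime := by
  simp [PrI]

lemma ind_nonneg (p n : ℕ) : 0 ≤ ind p n := by unfold ind; split_ifs <;> norm_num

/-- centred indicator -/
noncomputable def g (p n : ℕ) : ℝ := ind p n - 1 / p

lemma abs_g_le (p n : ℕ) : |g p n| ≤ ind p n + 1 / p := by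
  unfold g
  have h1 := ind_nonneg p n
  have h2 : (0 : ℝ) ≤ 1 / p := by positivity
  rw [abs_le]
  constructor <;> linarith

lemma sum_PrI_le (P P' : ℕ) : ∑ p ∈ PrI P P', (p : ℝ) ≤ (P' : ℝ) ^ 2 := by
  have h1 : ∑ p ∈ PrI P P', (p : ℝ) ≤ ∑ p ∈ PrI P P', (P' : ℝ) := by
    apply sum_le_sum
    intro p hp
    exact_mod_cast (mem_PrI.1 hp).1.2
  have h2 : (PrI P P').card ≤ P' := by
    calc (PrI P P').card ≤ (Ioc P P').card := card_filter_le _ _
      _ = P' - P := Nat.card_Ioc _ _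
      _ ≤ P' := Nat.sub_le _ _
  calc ∑ p ∈ PrI P P', (p : ℝ) ≤ ∑ p ∈ PrI P P', (P' : ℝ) := h1
    _ = (PrI P P').card * (P' : ℝ) := by rw [sum_const, nsmul_eq_mul]
    _ ≤ (P' : ℝ) * P' := by
        apply mul_le_mul_of_nonneg_right _ (Nat.cast_nonneg _)
        exact_mod_cast h2
    _ = (P' : ℝ) ^ 2 := by ring

/-- the sums `A_p(m)` -/
noncomputable def A (w r l p m : ℕ) : ℝ := ∑ h ∈ range l, V w r (m + h) * g p (m + h)

lemma sum_VG (w r P P' l m : ℕ) :
    ∑ h ∈ range l, V w r (m + h) * G P P' (m + h) = ∑ p ∈ PrI P P', A w r l p m := by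
  unfold A G
  rw [sum_comm]
  apply sum_congr rfl
  intro h _
  rw [mul_sum]
  rfl

lemma sum_abs_g (hC : Stmt_PFCount) (hI : Stmt_PFInd) (P P' p l m : ℕ) (hP : 1 ≤ P)
    (hp : p ∈ PrI P P') : ∑ h ∈ range l, |g p (m + h)| ≤ 2 * l / P + P' := by
  obtain ⟨⟨h1, h2⟩, h3⟩ := mem_PrI.1 hp
  have hp0 : (0 : ℝ) < p := by exact_mod_cast h3.pos
  have hc := hC (p ^ 2) p (ind p) (hI p h3) m (m + l) (Nat.le_add_right _ _)
  have hc2 := (abs_le.1 hc).2
  have e1 : ∑ n ∈ Ico m (m + l), ind p n = ∑ h ∈ range l, ind p (m + h) := by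
    rw [sum_Ico_eq_sum_range]
    simp
  rw [e1] at hc2
  have e2 : (((m + l : ℕ) : ℝ) - m) * p / ((p ^ 2 : ℕ) : ℝ) = l / p := by
    push_cast
    field_simp
    ring
  rw [e2] at hc2
  have h4 : ∑ h ∈ range l, |g p (m + h)| ≤ ∑ h ∈ range l, (ind p (m + h) + 1 / p) :=
    sum_le_sum (fun h _ => abs_g_le _ _)
  rw [sum_add_distrib, sum_const, card_range, nsmul_eq_mul] at h4
  have h5 : (l : ℝ) / p ≤ l / P := by
    apply div_le_div_of_nonneg_left (Nat.cast_nonneg _)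
    · exact_mod_cast hP
    · exact_mod_cast h1.le
  have h6 : (p : ℝ) ≤ P' := by exact_mod_cast h2
  have h7 : (l : ℝ) * (1 / p) = l / p := by ring
  have h8 : 2 * (l : ℝ) / P = l / P + l / P := by ring
  rw [h7] at h4
  rw [h8]
  linarith

lemma A_sq_le (w r l p m : ℕ) :
    A w r l p m ^ 2 ≤ (∑ h ∈ range l, |g p (m + h)|) *
      ∑ h ∈ range l, V w r (m + h) ^ 2 * |g p (m + h)| := by
  unfold A
  apply sum_sq_le_sum_mul_sum_of_sq_eq_mul
  · intro i _; positivity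
  · intro i _; positivity
  · intro i _
    have : g p (m + i) ^ 2 = |g p (m + i)| * |g p (m + i)| := by
      rw [← sq, sq_abs]
    rw [mul_pow, this]
    ring

lemma sum_sq_g (hS : Stmt_Sq) (w r X p h : ℕ) (hw : 2 ≤ w) (hp : p.Prime) (hwp : w < p) :
    ∑ m ∈ range X, V w r (m + h) ^ 2 * |g p (m + h)|
      ≤ 2 * X * MM w r * (1 / p) + 2 * p * (w : ℝ) ^ (4 * r) := by
  obtain ⟨s1, s2⟩ := hS w r X h hw
  have s3 := s2 p hp hwp
  have hp1 : (1 : ℝ) ≤ p := by exact_mod_cast hp.one_lt.le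
  have hp0 : (0 : ℝ) < p := by linarith
  have h1 : ∑ m ∈ range X, V w r (m + h) ^ 2 * |g p (m + h)|
      ≤ ∑ m ∈ range X, (V w r (m + h) ^ 2 * ind p (m + h) + 1 / p * V w r (m + h) ^ 2) := by
    apply sum_le_sum
    intro m _
    have := mul_le_mul_of_nonneg_left (abs_g_le p (m + h)) (sq_nonneg (V w r (m + h)))
    nlinarith
  rw [sum_add_distrib, ← mul_sum] at h1
  have h2 : 1 / (p : ℝ) * ∑ m ∈ range X, V w r (m + h) ^ 2
      ≤ 1 / p * (X * MM w r + (w : ℝ) ^ (4 * r)) :=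
    mul_le_mul_of_nonneg_left s1 (by positivity)
  have h3 : 1 / (p : ℝ) * (w : ℝ) ^ (4 * r) ≤ p * (w : ℝ) ^ (4 * r) := by
    apply mul_le_mul_of_nonneg_right _ (by positivity)
    calc 1 / (p : ℝ) ≤ 1 := by
          rw [div_le_one hp0]; exact hp1
      _ ≤ p := hp1
  have h4 : (X : ℝ) * MM w r / p = X * MM w r * (1 / p) := by ring
  rw [h4] at s3
  nlinarith

/-- the diagonal part -/
lemma diag (hC : Stmt_PFCount) (hI : Stmt_PFInd) (hS : Stmt_Sq)
    (w r X P P' l : ℕ) (hw : 2 ≤ w) (hwP : w ≤ P) :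
    ∑ p ∈ PrI P P', ∑ m ∈ range X, A w r l p m ^ 2 ≤
      (l : ℝ) * (2 * l / P + P') *
        (2 * X * MM w r * sig P P' + 2 * (P' : ℝ) ^ 2 * (w : ℝ) ^ (4 * r)) := by
  have hB : (0 : ℝ) ≤ 2 * l / P + P' := by positivity
  have key : ∀ p ∈ PrI P P', ∑ m ∈ range X, A w r l p m ^ 2 ≤
      (2 * l / P + P') * (l * (2 * X * MM w r * (1 / p) + 2 * p * (w : ℝ) ^ (4 * r))) := by
    intro p hp
    obtain ⟨⟨h1, h2⟩, h3⟩ := mem_PrI.1 hp
    calc ∑ m ∈ range X, A w r l p m ^ 2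
        ≤ ∑ m ∈ range X, (2 * l / P + P') *
            ∑ h ∈ range l, V w r (m + h) ^ 2 * |g p (m + h)| := by
          apply sum_le_sum
          intro m _
          refine (A_sq_le w r l p m).trans ?_
          apply mul_le_mul_of_nonneg_right (sum_abs_g hC hI P P' p l m (by omega) hp)
          apply sum_nonneg
          intro h _
          positivity
      _ = (2 * l / P + P') * ∑ h ∈ range l, ∑ m ∈ range X,
            V w r (m + h) ^ 2 * |g p (m + h)| := by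
          rw [← mul_sum, sum_comm]
      _ ≤ (2 * l / P + P') * ∑ h ∈ range l,
            (2 * X * MM w r * (1 / p) + 2 * p * (w : ℝ) ^ (4 * r)) := by
          apply mul_le_mul_of_nonneg_left _ hB
          apply sum_le_sum
          intro h _
          exact sum_sq_g hS w r X p h hw h3 (by omega)
      _ = (2 * l / P + P') * (l * (2 * X * MM w r * (1 / p) + 2 * p * (w : ℝ) ^ (4 * r))) := by
          rw [sum_const, card_range, nsmul_eq_mul]
  calc ∑ p ∈ PrI P P', ∑ m ∈ range X, A w r l p m ^ 2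
      ≤ ∑ p ∈ PrI P P', (2 * l / P + P') *
          (l * (2 * X * MM w r * (1 / p) + 2 * p * (w : ℝ) ^ (4 * r))) := sum_le_sum key
    _ = (l : ℝ) * (2 * l / P + P') *
        (2 * X * MM w r * sig P P' + 2 * (∑ p ∈ PrI P P', (p : ℝ)) * (w : ℝ) ^ (4 * r)) := by
        unfold sig
        rw [← mul_sum, ← mul_sum, sum_add_distrib, ← mul_sum]
        have : ∑ p ∈ PrI P P', 2 * (p : ℝ) * (w : ℝ) ^ (4 * r)
            = 2 * (∑ p ∈ PrI P P', (p : ℝ)) * (w : ℝ) ^ (4 * r) := by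
          rw [mul_sum, sum_mul]
        rw [this]
        ring
    _ ≤ (l : ℝ) * (2 * l / P + P') *
        (2 * X * MM w r * sig P P' + 2 * (P' : ℝ) ^ 2 * (w : ℝ) ^ (4 * r)) := by
        apply mul_le_mul_of_nonneg_left _ (by positivity)
        have h1 := sum_PrI_le P P'
        have h2 : (0 : ℝ) ≤ (w : ℝ) ^ (4 * r) := by positivity
        nlinarith

lemma V_eq (w r n : ℕ) : V w r n = ∑ D ∈ Lam w r, (-1 : ℝ) ^ D.card * indD D n := rfl

/-- one off-diagonal term -/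
lemma off1 (hO : Stmt_Off) (w r X l p p' : ℕ)
    (hp : p.Prime) (hp' : p'.Prime) (hwp : w < p) (hwp' : w < p') (hne : p ≠ p') :
    ∑ m ∈ range X, A w r l p m * A w r l p' m ≤
      (l : ℝ) ^ 2 * (4 * p * p' * ∑ D ∈ Lam w r, ∑ D' ∈ Lam w r, ∏ q ∈ D ∪ D', (q : ℝ)) := by
  have e1 : ∀ m, A w r l p m * A w r l p' m = ∑ h ∈ range l, ∑ h' ∈ range l,
      ∑ D ∈ Lam w r, ∑ D' ∈ Lam w r, ((-1 : ℝ) ^ D.card * (-1 : ℝ) ^ D'.card) *
        (indD D (m + h) * indD D' (m + h') *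
        ((ind p (m + h) - 1 / p) * (ind p' (m + h') - 1 / p'))) := by
    intro m
    unfold A
    rw [sum_mul_sum]
    apply sum_congr rfl
    intro h _
    apply sum_congr rfl
    intro h' _
    rw [V_eq, V_eq]
    have : (∑ D ∈ Lam w r, (-1 : ℝ) ^ D.card * indD D (m + h)) * g p (m + h) *
        ((∑ D ∈ Lam w r, (-1 : ℝ) ^ D.card * indD D (m + h')) * g p' (m + h'))
        = ((∑ D ∈ Lam w r, (-1 : ℝ) ^ D.card * indD D (m + h)) *
          (∑ D ∈ Lam w r, (-1 : ℝ) ^ D.card * indD D (m + h'))) *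
            (g p (m + h) * g p' (m + h')) := by ring
    rw [this, sum_mul_sum, sum_mul]
    apply sum_congr rfl
    intro D _
    rw [sum_mul]
    apply sum_congr rfl
    intro D' _
    unfold g
    ring
  have e2 : ∑ m ∈ range X, A w r l p m * A w r l p' m = ∑ h ∈ range l, ∑ h' ∈ range l,
      ∑ D ∈ Lam w r, ∑ D' ∈ Lam w r, ((-1 : ℝ) ^ D.card * (-1 : ℝ) ^ D'.card) *
        ∑ m ∈ range X, (indD D (m + h) * indD D' (m + h') *
        ((ind p (m + h) - 1 / p) * (ind p' (m + h') - 1 / p'))) := by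
    rw [sum_congr rfl (fun m _ => e1 m)]
    rw [sum_comm]
    apply sum_congr rfl
    intro h _
    rw [sum_comm]
    apply sum_congr rfl
    intro h' _
    rw [sum_comm]
    apply sum_congr rfl
    intro D _
    rw [sum_comm]
    apply sum_congr rfl
    intro D' _
    rw [mul_sum]
  rw [e2]
  calc _ ≤ ∑ h ∈ range l, ∑ h' ∈ range l, ∑ D ∈ Lam w r, ∑ D' ∈ Lam w r,
        (4 * (p : ℝ) * p' * ∏ q ∈ D ∪ D', (q : ℝ)) := by
        apply sum_le_sum
        intro h _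
        apply sum_le_sum
        intro h' _
        apply sum_le_sum
        intro D hD
        apply sum_le_sum
        intro D' hD'
        have h1 := hO w r X h h' p p' D D' hD hD' hp hp' hwp hwp' hne
        refine le_trans (le_abs_self _) ?_
        rw [abs_mul, abs_mul, abs_pow, abs_pow, abs_neg, abs_one, one_pow, one_pow, one_mul,
          one_mul]
        exact h1
    _ = (l : ℝ) ^ 2 * (4 * p * p' * ∑ D ∈ Lam w r, ∑ D' ∈ Lam w r, ∏ q ∈ D ∪ D', (q : ℝ)) := by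
        simp only [← mul_sum]
        rw [sum_const, sum_const, card_range, nsmul_eq_mul, nsmul_eq_mul]
        ring

end VarAux

open VarAux in
theorem Var_proof (hC : Stmt_PFCount) (hI : Stmt_PFInd) (hS : Stmt_Sq) (hO : Stmt_Off)
    (hPS : Stmt_PrimeSum) : Stmt_Var := by
  intro w r X P P' l hw hwP hPP' hl
  have hW : (0 : ℝ) ≤ (w : ℝ) ^ (4 * r) := by positivity
  -- expand
  have e1 : ∑ m ∈ range X, (∑ h ∈ range l, V w r (m + h) * G P P' (m + h)) ^ 2
      = ∑ p ∈ PrI P P', ∑ p' ∈ PrI P P', ∑ m ∈ range X, A w r l p m * A w r l p' m := by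
    simp_rw [sum_VG, sq, sum_mul_sum]
    rw [sum_comm]
    apply sum_congr rfl
    intro p _
    rw [sum_comm]
  have e2 : ∀ p ∈ PrI P P', ∑ p' ∈ PrI P P', ∑ m ∈ range X, A w r l p m * A w r l p' m
      ≤ ∑ m ∈ range X, A w r l p m ^ 2 +
        ∑ p' ∈ PrI P P', (l : ℝ) ^ 2 * (4 * p * p' * (w : ℝ) ^ (4 * r)) := by
    intro p hp
    obtain ⟨⟨h1, h2⟩, h3⟩ := mem_PrI.1 hp
    have : ∑ p' ∈ PrI P P', ∑ m ∈ range X, A w r l p m * A w r l p' m
      ≤ ∑ p' ∈ PrI P P', ((if p' = p then ∑ m ∈ range X, A w r l p m ^ 2 else 0) +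
        (l : ℝ) ^ 2 * (4 * p * p' * (w : ℝ) ^ (4 * r))) := by
      apply sum_le_sum
      intro p' hp'
      obtain ⟨⟨h1', h2'⟩, h3'⟩ := mem_PrI.1 hp'
      have hpos : 0 ≤ (l : ℝ) ^ 2 * (4 * p * p' * (w : ℝ) ^ (4 * r)) := by positivity
      by_cases hpp : p' = p
      · rw [if_pos hpp, hpp]
        rw [hpp] at hpos
        have : ∑ m ∈ range X, A w r l p m * A w r l p m = ∑ m ∈ range X, A w r l p m ^ 2 := by
          apply sum_congr rfl
          intro m _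
          ring
        rw [this]
        linarith
      · rw [if_neg hpp, zero_add]
        refine (off1 hO w r X l p p' h3 h3' (by omega) (by omega) (Ne.symm hpp)).trans ?_
        apply mul_le_mul_of_nonneg_left _ (by positivity)
        apply mul_le_mul_of_nonneg_left _ (by positivity)
        exact (hPS w r hw).2
    rw [sum_add_distrib, sum_ite_eq' (PrI P P') p, if_pos hp] at this
    exact this
  rw [e1]
  refine (sum_le_sum e2).trans ?_
  rw [sum_add_distrib]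
  unfold VarB
  have hd := diag hC hI hS w r X P P' l hw hwP
  have ho : ∑ p ∈ PrI P P', ∑ p' ∈ PrI P P', (l : ℝ) ^ 2 * (4 * p * p' * (w : ℝ) ^ (4 * r))
      ≤ 4 * (l : ℝ) ^ 2 * (P' : ℝ) ^ 4 * (w : ℝ) ^ (4 * r) := by
    have e3 : ∑ p ∈ PrI P P', ∑ p' ∈ PrI P P', (l : ℝ) ^ 2 * (4 * p * p' * (w : ℝ) ^ (4 * r))
        = 4 * (l : ℝ) ^ 2 * (w : ℝ) ^ (4 * r) *
          ((∑ p ∈ PrI P P', (p : ℝ)) * (∑ p ∈ PrI P P', (p : ℝ))) := by
      rw [sum_mul_sum, mul_sum]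
      apply sum_congr rfl
      intro p _
      rw [mul_sum]
      apply sum_congr rfl
      intro p' _
      ring
    rw [e3]
    have h1 := sum_PrI_le P P'
    have h0 : 0 ≤ ∑ p ∈ PrI P P', (p : ℝ) := sum_nonneg (fun p _ => Nat.cast_nonneg _)
    have h2 : (∑ p ∈ PrI P P', (p : ℝ)) * (∑ p ∈ PrI P P', (p : ℝ)) ≤ (P' : ℝ) ^ 4 := by
      calc _ ≤ (P' : ℝ) ^ 2 * (P' : ℝ) ^ 2 := mul_le_mul h1 h1 h0 (by positivity)
        _ = (P' : ℝ) ^ 4 := by ring
    calc _ ≤ 4 * (l : ℝ) ^ 2 * (w : ℝ) ^ (4 * r) * (P' : ℝ) ^ 4 :=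
          mul_le_mul_of_nonneg_left h2 (by positivity)
      _ = _ := by ring
  linarith

end Pool.Agent.EPS
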