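import Pool.Agent.EPS.FinalC
import Pool.Agent.EPS.PF
import Pool.Agent.EPS.Esym
import Pool.Agent.EPS.PrimeSum
import Pool.Agent.EPS.MMBound
import Pool.Agent.EPS.V0Bound
import Pool.Agent.EPS.Bonf
import Pool.Agent.EPS.VNonneg
import Pool.Agent.EPS.Mean
import Pool.Agent.EPS.Sq
import Pool.Agent.EPS.Off
import Pool.Agent.EPS.Var
import Pool.Agent.EPS.Change
import Pool.Agent.EPS.Step
import Pool.Agent.EPS.Top
import Pool.Agent.EPS.Bottom
import Pool.Agent.EPS.Rec
import Pool.Agent.EPS.Mertens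

/-!
# Large `k` and the final statement (helper79)
-/

set_option autoImplicit false

namespace Pool.Agent.EPS

open Finset Filter

/-- `π(N) ≤ 0.001 N` for large `N` -/
theorem card_PrI_eventually : ∀ᶠ N : ℕ in atTop, ((PrI 0 N).card : ℝ) ≤ 0.001 * N := by
  have h1 : ∀ᶠ x : ℝ in atTop, Real.log 4 * x / Real.log (Real.sqrt x) + Real.sqrt x ≤ 0.001 * x := by
    have hl : Tendsto (fun x : ℝ => Real.log (Real.sqrt x)) atTop atTop :=
      Real.tendsto_log_atTop.comp (Real.tendsto_sqrt_atTop)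
    have hs := Real.tendsto_sqrt_atTop.eventually_ge_atTop 2000
    filter_upwards [hl.eventually_ge_atTop (2000 * Real.log 4), hs, eventually_ge_atTop (1 : ℝ)]
      with x hx1 hx2 hx3
    have h4 : 0 < Real.log 4 := Real.log_pos (by norm_num)
    have hsq : Real.sqrt x * Real.sqrt x = x := Real.mul_self_sqrt (by linarith)
    have a1 : Real.log 4 * x / Real.log (Real.sqrt x) ≤ x / 2000 := by
      rw [div_le_div_iff₀ (by linarith [mul_pos (show (0:ℝ) < 2000 by norm_num) h4]) (by norm_num)]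
      have : x * (2000 * Real.log 4) ≤ x * Real.log (Real.sqrt x) :=
        mul_le_mul_of_nonneg_left hx1 (by linarith)
      linarith
    have a2 : Real.sqrt x ≤ x / 2000 := by
      rw [le_div_iff₀ (by norm_num)]
      nlinarith [Real.sqrt_nonneg x]
    linarith
  have h2 := tendsto_natCast_atTop_atTop (R := ℝ) |>.eventually h1
  filter_upwards [h2, eventually_ge_atTop 2] with N hN hN2
  have h3 := Chebyshev.pi_le_log4_mul_div (x := (N : ℝ)) (by exact_mod_cast (by omega : 1 < N))
  rw [Nat.floor_natCast] at h3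
  have h4 : (PrI 0 N).card = Nat.primeCounting N := by
    rw [Nat.primeCounting, Nat.primeCounting', Nat.count_eq_card_filter_range]
    congr 1
    ext p
    unfold PrI
    simp only [mem_filter, mem_Ioc, mem_range]
    constructor
    · rintro ⟨⟨_, h⟩, hp⟩; exact ⟨by omega, hp⟩
    · rintro ⟨h, hp⟩; exact ⟨⟨hp.pos, by omega⟩, hp⟩
  rw [h4]
  exact le_trans h3 hN

theorem log_nat_tendsto : Tendsto (fun k : ℕ => Real.log (k : ℝ)) atTop atTop :=
  Real.tendsto_log_atTop.comp tendsto_natCast_atTop_atTop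

/-- `log x ≤ x / 6 - D` for large `x` -/
theorem log_small (D : ℝ) : ∀ᶠ x : ℝ in atTop, Real.log x + D ≤ 1 / 3 * x := by
  have h := Real.isLittleO_log_id_atTop.bound (show (0 : ℝ) < 1 / 6 by norm_num)
  filter_upwards [h, eventually_ge_atTop (1 : ℝ), eventually_ge_atTop (6 * D)] with x hx h1 h2
  simp only [id, Real.norm_eq_abs] at hx
  rw [abs_of_nonneg (Real.log_nonneg h1), abs_of_nonneg (by linarith)] at hx
  linarith

theorem sig_zero_three : sig 0 3 ≤ 1 := by
  have : PrI 0 3 = {2, 3} := by decide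
  unfold sig
  rw [this]
  norm_num

theorem S_eventually {C : ℝ} (hM : ∀ a b : ℕ, 3 ≤ a → a ≤ b →
    sig a b ≤ Real.log (Real.log b / Real.log a) + C / Real.log a) :
    ∀ᶠ k : ℕ in atTop, sig 0 (PP k 0) ≤ 1 / 3 * Real.log k := by
  have hl3 : 0 < Real.log 3 := Real.log_pos (by norm_num)
  have h := log_nat_tendsto.eventually (log_small (1 + Real.log (320 / Real.log 3) + C / Real.log 3))
  filter_upwards [h, eventually_ge_atTop 3] with k hk hk3
  have h1 : 3 ≤ PP k 0 := le_trans hk3 (Nat.le_self_pow (by unfold ex; omega) k)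
  have h2 := sig_add (a := 0) (b := 3) (c := PP k 0) (by norm_num) h1
  have h3 := hM 3 (PP k 0) le_rfl h1
  have h4 : Real.log ((PP k 0 : ℕ) : ℝ) = 320 * Real.log k := by
    unfold PP ex; push_cast; rw [Real.log_pow]; norm_num
  have hk1 : (1 : ℝ) < k := by exact_mod_cast (by omega : 1 < k)
  have hlk : 0 < Real.log k := Real.log_pos hk1
  have h5 : Real.log (Real.log ((PP k 0 : ℕ) : ℝ) / Real.log 3) = Real.log (Real.log k) + Real.log (320 / Real.log 3) := by
    rw [h4, show 320 * Real.log k / Real.log 3 = Real.log k * (320 / Real.log 3) by ring,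
      Real.log_mul hlk.ne' (by positivity)]
  push_cast at h3
  rw [h5] at h3
  have h6 := sig_zero_three
  linarith

theorem tail_eventually : ∀ᶠ k : ℕ in atTop,
    (k : ℝ) ^ 4 * (1 / 10) ^ (rr k) ≤ 0.001 / (k : ℝ) ^ 5 := by
  have h := (tendsto_pow_const_div_const_pow_of_one_lt 9 (show (1 : ℝ) < 100 by norm_num)).eventually
    (eventually_le_nhds (show (0 : ℝ) < 0.001 / 200 ^ 9 by norm_num))
  have hdiv : Tendsto (fun k : ℕ => k / 100) atTop atTop :=
    Nat.tendsto_div_const_atTop (by norm_num)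
  have h2 := hdiv.eventually h
  filter_upwards [h2, eventually_ge_atTop 100] with k hk hk100
  have hk0 : (0 : ℝ) < k := by exact_mod_cast (by omega : 0 < k)
  have hj : (k : ℝ) ≤ 200 * ((k / 100 : ℕ) : ℝ) := by
    have : k ≤ 200 * (k / 100) := by omega
    exact_mod_cast this
  have e : ((1 : ℝ) / 10) ^ (rr k) = 1 / 100 ^ (k / 100) := by
    unfold rr
    rw [pow_mul, show ((1 : ℝ) / 10) ^ 2 = 1 / 100 by norm_num, div_pow, one_pow]
  rw [e]
  have h3 : (k : ℝ) ^ 9 / 100 ^ (k / 100) ≤ 0.001 := by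
    calc (k : ℝ) ^ 9 / 100 ^ (k / 100) ≤ (200 * ((k / 100 : ℕ) : ℝ)) ^ 9 / 100 ^ (k / 100) := by gcongr
      _ = 200 ^ 9 * (((k / 100 : ℕ) : ℝ) ^ 9 / 100 ^ (k / 100)) := by ring
      _ ≤ 200 ^ 9 * (0.001 / 200 ^ 9) := mul_le_mul_of_nonneg_left hk (by norm_num)
      _ = 0.001 := by norm_num
  rw [le_div_iff₀ (by positivity)]
  calc (k : ℝ) ^ 4 * (1 / 100 ^ (k / 100)) * (k : ℝ) ^ 5 = (k : ℝ) ^ 9 / 100 ^ (k / 100) := by ring
    _ ≤ 0.001 := h3

/-- Infinitely many integers are not of the form `a p^2 + b`. -/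
theorem main : ¬ (∀ᶠ n in atTop, ∃ a p b : ℕ, p.Prime ∧ 1 ≤ a ∧ b < p ∧ n = a * p ^ 2 + b) := by
  intro hrep
  obtain ⟨N, hN⟩ := eventually_atTop.mp hrep
  have hPS := PrimeSum_proof Esym_proof
  have hSq := Sq_proof PFCount_proof PFIndD_proof hPS
  have hMean := Mean_proof PFCount_proof PFIndD_proof hPS
  have hVar := Var_proof PFCount_proof PFInd_proof hSq Off_proof hPS
  have hStep := Step_proof VNonneg_proof hSq hVar Change_proof
  have hTop := Top_proof hMean
  obtain ⟨C, hC, hM⟩ := Mertens_proof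
  have hlog : Tendsto (fun k : ℕ => C / Real.log (k : ℝ)) atTop (nhds 0) :=
    log_nat_tendsto.const_div_atTop C
  have e1 := hlog.eventually (eventually_le_nhds (show (0 : ℝ) < 0.001 by norm_num))
  have hpow : Tendsto (fun k : ℕ => k ^ (800 + 80 * k)) atTop atTop := by
    apply tendsto_atTop_mono _ tendsto_id
    intro k
    exact Nat.le_self_pow (by omega) k
  have e2 := hpow.eventually card_PrI_eventually
  obtain ⟨k, hk, hkN, hg, hpi, hS, htail⟩ := ((eventually_ge_atTop 1000000).and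
    ((eventually_ge_atTop N).and (e1.and (e2.and ((S_eventually hM).and tail_eventually))))).exists
  have hpi' : ((PrI 0 (k ^ (800 + 80 * k))).card : ℝ) ≤ 0.001 * (k : ℝ) ^ (800 + 80 * k) := by
    push_cast at hpi
    exact hpi
  refine contra MMBound_proof VNonneg_proof hMean hStep hTop ?_ Rec_proof (V0Bound_proof Bonf_proof)
    hM hC hk hg hS hpi' htail ?_
  · exact Bottom_proof Esym_proof PFIndD_proof PFCount_proof hPS
  · intro n hn hnX
    have hNn : N ≤ n := by
      calc N ≤ k := hkN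
        _ ≤ LL k := Nat.le_self_pow (by omega) k
        _ ≤ n := hn
    obtain ⟨a, p, b, hp, ha, hb, rfl⟩ := hN n hNn
    refine ⟨p, ?_, ?_⟩
    · unfold PrI
      simp only [mem_filter, mem_Ioc]
      refine ⟨⟨hp.pos, ?_⟩, hp⟩
      rw [Nat.le_sqrt']
      nlinarith
    · have h1 : b < p ^ 2 := lt_of_lt_of_le hb (Nat.le_self_pow (by norm_num) p)
      rw [Nat.add_comm, Nat.add_mul_mod_self_right, Nat.mod_eq_of_lt h1]
      exact hb

end Pool.Agent.EPS
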