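import Pool.Agent.EPS.Stmts

/-!
# Preliminaries for the final assembly (helper79)
-/

set_option autoImplicit false

namespace Pool.Agent.EPS

open Finset Filter

theorem sig_nonneg (a b : ℕ) : 0 ≤ sig a b :=
  Finset.sum_nonneg fun p _ => by positivity

theorem sig_add {a b c : ℕ} (hab : a ≤ b) (hbc : b ≤ c) : sig a c = sig a b + sig b c := by
  unfold sig PrI
  rw [← Finset.Ioc_union_Ioc_eq_Ioc hab hbc, Finset.filter_union, Finset.sum_union]
  apply Finset.disjoint_filter_filter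
  rw [Finset.disjoint_left]
  intro x h1 h2
  rw [mem_Ioc] at h1 h2
  omega

theorem sig_sum (P : ℕ → ℕ) (hP : Monotone P) (K : ℕ) :
    ∑ i ∈ range K, sig (P i) (P (i + 1)) = sig (P 0) (P K) := by
  induction K with
  | zero => simp [sig, PrI]
  | succ K ih =>
    rw [Finset.sum_range_succ, ih, ← sig_add (hP (Nat.zero_le K)) (hP (Nat.le_succ K))]

theorem F_nonneg (l0 X y n : ℕ) : 0 ≤ F l0 X y n := by
  unfold F; split_ifs <;> norm_num

theorem F_le_one (l0 X y n : ℕ) : F l0 X y n ≤ 1 := by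
  unfold F; split_ifs <;> norm_num

theorem mass_nonneg (hV : Stmt_VNonneg) {w r : ℕ} (hr : Even r) (l0 X y : ℕ) :
    0 ≤ mass w r l0 X y :=
  Finset.sum_nonneg fun n _ => mul_nonneg (hV w r n hr) (F_nonneg _ _ _ _)

theorem mass_le (hV : Stmt_VNonneg) (hM : Stmt_Mean) {w r : ℕ} (hr : Even r) (hw : 2 ≤ w)
    (l0 X y : ℕ) : mass w r l0 X y ≤ X * V0 w r + (w : ℝ) ^ (2 * r) := by
  have h1 : mass w r l0 X y ≤ ∑ n ∈ range X, V w r n := by
    apply Finset.sum_le_sum
    intro n _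
    have := hV w r n hr
    have := F_le_one l0 X y n
    nlinarith
  have h2 := hM w r 0 X hw (Nat.zero_le X)
  rw [← Finset.range_eq_Ico] at h2
  have h3 := (abs_le.mp h2).2
  push_cast at h3
  linarith

/-- bound for `log 2.5` -/
theorem log_five_half : Real.log (5 / 2) ≤ 0.93 := by
  rw [Real.log_le_iff_le_exp (by norm_num)]
  have h1 : Real.exp (0.93 : ℝ) = Real.exp 1 / Real.exp 0.07 := by
    rw [← Real.exp_sub]; norm_num
  have h2 : Real.exp (0.07 : ℝ) ≤ 1 / (1 - 0.07) := Real.exp_bound_div_one_sub_of_interval (by norm_num) (by norm_num)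
  have h3 := Real.exp_one_gt_d9
  have h4 : (0 : ℝ) < Real.exp 0.07 := Real.exp_pos _
  rw [h1, le_div_iff₀ h4]
  nlinarith

/-- The tail estimate. -/
theorem tail_bound (S : ℝ) (hS : 0 ≤ S) (r : ℕ) :
    S ^ r / (Nat.factorial r : ℝ) ≤ Real.exp (10 * S) * (1 / 10) ^ r := by
  have h := Real.pow_div_factorial_le_exp (10 * S) (by positivity) r
  have h1 : S ^ r / (Nat.factorial r : ℝ) = (10 * S) ^ r / (Nat.factorial r : ℝ) * (1 / 10) ^ r := by
    rw [mul_pow, div_pow, one_pow]
    field_simp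
  rw [h1]
  exact mul_le_mul_of_nonneg_right h (by positivity)

end Pool.Agent.EPS
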