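import Pool.Agent.EPS.FinalA

/-!
# Evaluation of the error terms for the explicit parameters (helper79)
-/

set_option autoImplicit false

namespace Pool.Agent.EPS

open Finset Filter

/-- exponent of the range points -/
def ex (i : ℕ) : ℕ := 320 + 32 * i

/-- range points -/
def PP (k i : ℕ) : ℕ := k ^ ex i

/-- the total length -/
def XX (k : ℕ) : ℕ := k ^ (1600 + 160 * k)

/-- order of the Bonferroni truncation -/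
def rr (k : ℕ) : ℕ := 2 * (k / 100)

/-- lower end -/
def LL (k : ℕ) : ℕ := k ^ (640 + 64 * k)

/-- window length -/
def ll (k i : ℕ) : ℕ := k ^ (368 + 32 * i)

theorem sqrt_XX (k : ℕ) : Nat.sqrt (XX k) = k ^ (800 + 80 * k) := by
  have : XX k = (k ^ (800 + 80 * k)) * (k ^ (800 + 80 * k)) := by
    unfold XX
    rw [← pow_add]
    congr 1
    ring
  rw [this, Nat.sqrt_eq]

theorem rr_even (k : ℕ) : Even (rr k) := ⟨k / 100, by unfold rr; ring⟩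

theorem PP_mono {k : ℕ} (hk : 1 ≤ k) : Monotone (PP k) := by
  intro i j hij
  exact Nat.pow_le_pow_right hk (by unfold ex; omega)

theorem w4r_le {k : ℕ} (hk : 1 ≤ k) : ((PP k 0 : ℕ) : ℝ) ^ (4 * rr k) ≤ (k : ℝ) ^ (26 * k) := by
  have h1 : (1 : ℝ) ≤ k := by exact_mod_cast hk
  unfold PP
  push_cast
  rw [← pow_mul]
  apply pow_le_pow_right₀ h1
  unfold ex rr
  omega

theorem w2r_le {k : ℕ} (hk : 1 ≤ k) : ((PP k 0 : ℕ) : ℝ) ^ (2 * rr k) ≤ (k : ℝ) ^ (13 * k) := by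
  have h1 : (1 : ℝ) ≤ k := by exact_mod_cast hk
  unfold PP
  push_cast
  rw [← pow_mul]
  apply pow_le_pow_right₀ h1
  unfold ex rr
  omega

theorem exp_log_bounds {k : ℕ} (hk : 1 ≤ k) {S : ℝ} (hS : S ≤ 1 / 3 * Real.log k) :
    Real.exp (3 * S) ≤ k ∧ (1 : ℝ) / k ≤ Real.exp (-2 * S) ∧ Real.exp (10 * S) ≤ (k : ℝ) ^ 4 := by
  have h1 : (1 : ℝ) ≤ k := by exact_mod_cast hk
  have hk0 : (0 : ℝ) < k := by linarith
  have hl : 0 ≤ Real.log k := Real.log_nonneg h1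
  have he : Real.exp (Real.log k) = k := Real.exp_log hk0
  refine ⟨?_, ?_, ?_⟩
  · calc Real.exp (3 * S) ≤ Real.exp (Real.log k) := Real.exp_le_exp.mpr (by linarith)
      _ = k := he
  · have : (1 : ℝ) / k = Real.exp (-Real.log k) := by rw [Real.exp_neg, he, one_div]
    rw [this]
    exact Real.exp_le_exp.mpr (by linarith)
  · calc Real.exp (10 * S) ≤ Real.exp (4 * Real.log k) := Real.exp_le_exp.mpr (by linarith)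
      _ = (k : ℝ) ^ 4 := by
        rw [show (4 : ℝ) * Real.log k = ((4 : ℕ) : ℝ) * Real.log k by norm_num, Real.exp_nat_mul, he]

theorem varB_le {k i : ℕ} (hk : 1000000 ≤ k) (hi : i < k) (M σ : ℝ)
    (hM0 : MM (PP k 0) (rr k) = M) (hM : M ≤ k) (hM' : 0 ≤ M)
    (hσ0 : sig (PP k i) (PP k (i + 1)) = σ) (hσ : σ ≤ 1 / 8) (hσ' : 0 ≤ σ) :
    VarB (PP k 0) (rr k) (XX k) (PP k i) (PP k (i + 1)) (ll k i)
      ≤ 2 * ((ll k i : ℕ) : ℝ) ^ 2 * (XX k : ℕ) / (k : ℝ) ^ 15 := by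
  have hk1 : 1 ≤ k := by omega
  have h1 : (1 : ℝ) ≤ k := by exact_mod_cast hk1
  have hK : (1000000 : ℝ) ≤ k := by exact_mod_cast hk
  have hk0 : (0 : ℝ) < k := by linarith
  have hw4 := w4r_le hk1
  set W : ℝ := ((PP k 0 : ℕ) : ℝ) ^ (4 * rr k) with hW
  have hW0 : 0 ≤ W := by positivity
  have hX : ((XX k : ℕ) : ℝ) = (k : ℝ) ^ (1600 + 160 * k) := by unfold XX; push_cast; rfl
  have hl : ((ll k i : ℕ) : ℝ) = (k : ℝ) ^ (368 + 32 * i) := by unfold ll; push_cast; rfl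
  have hP : ((PP k i : ℕ) : ℝ) = (k : ℝ) ^ (320 + 32 * i) := by unfold PP ex; push_cast; rfl
  have hP1 : ((PP k (i + 1) : ℕ) : ℝ) = (k : ℝ) ^ (352 + 32 * i) := by
    unfold PP ex; push_cast; congr 1; ring
  have hP2 : ((PP k (i + 2) : ℕ) : ℝ) = (k : ℝ) ^ (384 + 32 * i) := by
    unfold PP ex; push_cast; congr 1; ring
  have hX0 : (0 : ℝ) < (XX k : ℕ) := by rw [hX]; positivity
  have hl0 : (0 : ℝ) < (ll k i : ℕ) := by rw [hl]; positivity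
  -- second term
  have hP1le : (PP k (i + 1) : ℕ) ≤ (k : ℝ) ^ (320 + 32 * k) := by
    rw [hP1]; exact pow_le_pow_right₀ h1 (by omega)
  have hP10 : (0 : ℝ) < (PP k (i + 1) : ℕ) := by rw [hP1]; positivity
  have hlP : 2 * ((ll k i : ℕ) : ℝ) / (PP k i : ℕ) + (PP k (i + 1) : ℕ) ≤ 2 * (ll k i : ℕ) / (k : ℝ) ^ 16 := by
    have e1 : ((ll k i : ℕ) : ℝ) / (PP k i : ℕ) = (k : ℝ) ^ 48 := by
      rw [hl, hP, show 368 + 32 * i = 320 + 32 * i + 48 by ring, pow_add (k : ℝ) (320 + 32 * i) 48]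
      field_simp
    have e2 : ((ll k i : ℕ) : ℝ) / (k : ℝ) ^ 16 = (k : ℝ) ^ (352 + 32 * i) := by
      rw [hl, show 368 + 32 * i = 352 + 32 * i + 16 by ring, pow_add (k : ℝ) (352 + 32 * i) 16]
      field_simp
    have e3 : 2 * (k : ℝ) ^ 48 ≤ (k : ℝ) ^ (352 + 32 * i) := by
      calc 2 * (k : ℝ) ^ 48 ≤ k * (k : ℝ) ^ 48 := mul_le_mul_of_nonneg_right (by linarith) (by positivity)
        _ = (k : ℝ) ^ 49 := by ring
        _ ≤ (k : ℝ) ^ (352 + 32 * i) := pow_le_pow_right₀ h1 (by omega)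
    rw [mul_div_assoc, e1, mul_div_assoc, e2, hP1]
    linarith
  have hP1sq : 2 * ((PP k (i + 1) : ℕ) : ℝ) ^ 2 * W ≤ (XX k : ℕ) * k / 4 := by
    have a1 : ((PP k (i + 1) : ℕ) : ℝ) ^ 2 ≤ ((k : ℝ) ^ (320 + 32 * k)) ^ 2 := by gcongr
    have a2 : ((PP k (i + 1) : ℕ) : ℝ) ^ 2 * W ≤ ((k : ℝ) ^ (320 + 32 * k)) ^ 2 * (k : ℝ) ^ (26 * k) :=
      mul_le_mul a1 hw4 hW0 (by positivity)
    have a3 : ((k : ℝ) ^ (320 + 32 * k)) ^ 2 * (k : ℝ) ^ (26 * k) ≤ (XX k : ℕ) := by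
      rw [← pow_mul, ← pow_add, hX]
      exact pow_le_pow_right₀ h1 (by omega)
    have a4 : (8 : ℝ) * (XX k : ℕ) ≤ (XX k : ℕ) * k := by nlinarith
    nlinarith
  have hP14 : 4 * ((PP k (i + 1) : ℕ) : ℝ) ^ 4 * W ≤ (XX k : ℕ) / (k : ℝ) ^ 15 := by
    have a1 : ((PP k (i + 1) : ℕ) : ℝ) ^ 4 ≤ ((k : ℝ) ^ (320 + 32 * k)) ^ 4 := by gcongr
    have a2 : ((PP k (i + 1) : ℕ) : ℝ) ^ 4 * W ≤ ((k : ℝ) ^ (320 + 32 * k)) ^ 4 * (k : ℝ) ^ (26 * k) :=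
      mul_le_mul a1 hw4 hW0 (by positivity)
    have a3 : k * (k : ℝ) ^ 15 * (((k : ℝ) ^ (320 + 32 * k)) ^ 4 * (k : ℝ) ^ (26 * k)) ≤ (XX k : ℕ) := by
      rw [← pow_mul, ← pow_add, ← pow_succ', ← pow_add, hX]
      exact pow_le_pow_right₀ h1 (by omega)
    rw [le_div_iff₀ (by positivity)]
    have a5 : 0 ≤ ((PP k (i + 1) : ℕ) : ℝ) ^ 4 * W := by positivity
    have a6 : (0:ℝ) < (k : ℝ) ^ 15 := by positivity
    calc 4 * ((PP k (i + 1) : ℕ) : ℝ) ^ 4 * W * (k : ℝ) ^ 15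
        = 4 * (k : ℝ) ^ 15 * (((PP k (i + 1) : ℕ) : ℝ) ^ 4 * W) := by ring
      _ ≤ k * (k : ℝ) ^ 15 * (((k : ℝ) ^ (320 + 32 * k)) ^ 4 * (k : ℝ) ^ (26 * k)) := by
          apply mul_le_mul _ a2 a5 (by positivity)
          apply mul_le_mul_of_nonneg_right _ a6.le
          linarith
      _ ≤ (XX k : ℕ) := a3
  unfold VarB
  rw [hM0, hσ0, ← hW]
  have b1 : 2 * ((XX k : ℕ) : ℝ) * M * σ ≤ (XX k : ℕ) * k / 4 := by
    have : M * σ ≤ k * (1 / 8) := mul_le_mul hM hσ hσ' hk0.le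
    calc 2 * ((XX k : ℕ) : ℝ) * M * σ = 2 * (XX k : ℕ) * (M * σ) := by ring
      _ ≤ 2 * (XX k : ℕ) * (k * (1 / 8)) := mul_le_mul_of_nonneg_left this (by positivity)
      _ = (XX k : ℕ) * k / 4 := by ring
  have b2 : 2 * ((XX k : ℕ) : ℝ) * M * σ + 2 * ((PP k (i + 1) : ℕ) : ℝ) ^ 2 * W ≤ (XX k : ℕ) * k / 2 := by
    linarith
  have b3 : 0 ≤ 2 * ((XX k : ℕ) : ℝ) * M * σ + 2 * ((PP k (i + 1) : ℕ) : ℝ) ^ 2 * W := by positivity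
  have b4 : ((ll k i : ℕ) : ℝ) * (2 * (ll k i : ℕ) / (PP k i : ℕ) + (PP k (i + 1) : ℕ)) *
      (2 * ((XX k : ℕ) : ℝ) * M * σ + 2 * ((PP k (i + 1) : ℕ) : ℝ) ^ 2 * W)
      ≤ ((ll k i : ℕ) : ℝ) * (2 * (ll k i : ℕ) / (k : ℝ) ^ 16) * ((XX k : ℕ) * k / 2) := by
    apply mul_le_mul _ b2 b3 (by positivity)
    exact mul_le_mul_of_nonneg_left hlP hl0.le
  have b5 : ((ll k i : ℕ) : ℝ) * (2 * (ll k i : ℕ) / (k : ℝ) ^ 16) * ((XX k : ℕ) * k / 2)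
      = ((ll k i : ℕ) : ℝ) ^ 2 * (XX k : ℕ) / (k : ℝ) ^ 15 := by
    field_simp
  have b6 : 4 * ((ll k i : ℕ) : ℝ) ^ 2 * ((PP k (i + 1) : ℕ) : ℝ) ^ 4 * W
      ≤ ((ll k i : ℕ) : ℝ) ^ 2 * (XX k : ℕ) / (k : ℝ) ^ 15 := by
    calc 4 * ((ll k i : ℕ) : ℝ) ^ 2 * ((PP k (i + 1) : ℕ) : ℝ) ^ 4 * W
        = ((ll k i : ℕ) : ℝ) ^ 2 * (4 * ((PP k (i + 1) : ℕ) : ℝ) ^ 4 * W) := by ring
      _ ≤ ((ll k i : ℕ) : ℝ) ^ 2 * ((XX k : ℕ) / (k : ℝ) ^ 15) :=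
          mul_le_mul_of_nonneg_left hP14 (by positivity)
      _ = _ := by ring
  have b7 : 2 * ((ll k i : ℕ) : ℝ) ^ 2 * (XX k : ℕ) / (k : ℝ) ^ 15
    = ((ll k i : ℕ) : ℝ) ^ 2 * (XX k : ℕ) / (k : ℝ) ^ 15 + ((ll k i : ℕ) : ℝ) ^ 2 * (XX k : ℕ) / (k : ℝ) ^ 15 := by
    ring
  rw [b7]
  linarith

/-- The error of one step. -/
theorem step_error {k i : ℕ} (hk : 1000000 ≤ k) (hi : i < k) (M σ : ℝ)
    (hM0 : MM (PP k 0) (rr k) = M) (hM : M ≤ k) (hM' : 0 ≤ M)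
    (hσ0 : sig (PP k i) (PP k (i + 1)) = σ) (hσ : σ ≤ 1 / 8) (hσ' : 0 ≤ σ) :
    σ * Real.sqrt (5 * (ll k i : ℕ) * (XX k : ℕ) / (PP k (i + 2) : ℕ) *
        ((XX k : ℕ) * M + ((PP k 0 : ℕ) : ℝ) ^ (4 * rr k)))
      + Real.sqrt ((XX k : ℕ) * VarB (PP k 0) (rr k) (XX k) (PP k i) (PP k (i + 1)) (ll k i)) / (ll k i : ℕ)
      ≤ 4 * (XX k : ℕ) / (k : ℝ) ^ 7 := by
  have hk1 : 1 ≤ k := by omega
  have h1 : (1 : ℝ) ≤ k := by exact_mod_cast hk1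
  have hK : (1000000 : ℝ) ≤ k := by exact_mod_cast hk
  have hk0 : (0 : ℝ) < k := by linarith
  have hw4 := w4r_le hk1
  set W : ℝ := ((PP k 0 : ℕ) : ℝ) ^ (4 * rr k) with hW
  have hW0 : 0 ≤ W := by positivity
  have hX : ((XX k : ℕ) : ℝ) = (k : ℝ) ^ (1600 + 160 * k) := by unfold XX; push_cast; rfl
  have hl : ((ll k i : ℕ) : ℝ) = (k : ℝ) ^ (368 + 32 * i) := by unfold ll; push_cast; rfl
  have hP : ((PP k i : ℕ) : ℝ) = (k : ℝ) ^ (320 + 32 * i) := by unfold PP ex; push_cast; rfl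
  have hP1 : ((PP k (i + 1) : ℕ) : ℝ) = (k : ℝ) ^ (352 + 32 * i) := by
    unfold PP ex; push_cast; congr 1; ring
  have hP2 : ((PP k (i + 2) : ℕ) : ℝ) = (k : ℝ) ^ (384 + 32 * i) := by
    unfold PP ex; push_cast; congr 1; ring
  have hX0 : (0 : ℝ) < (XX k : ℕ) := by rw [hX]; positivity
  have hl0 : (0 : ℝ) < (ll k i : ℕ) := by rw [hl]; positivity
  -- first term
  have hWX : W ≤ (XX k : ℕ) * (k : ℝ) := by
    calc W ≤ (k : ℝ) ^ (26 * k) := hw4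
      _ ≤ (k : ℝ) ^ (1600 + 160 * k) := pow_le_pow_right₀ h1 (by omega)
      _ = (XX k : ℕ) * 1 := by rw [hX, mul_one]
      _ ≤ (XX k : ℕ) * (k : ℝ) := mul_le_mul_of_nonneg_left h1 hX0.le
  have hXM : (XX k : ℕ) * M + W ≤ 2 * (XX k : ℕ) * k := by
    have := mul_le_mul_of_nonneg_left hM hX0.le
    linarith
  have hfrac : 5 * ((ll k i : ℕ) : ℝ) * (XX k : ℕ) / (PP k (i + 2) : ℕ) = 5 * (XX k : ℕ) / (k : ℝ) ^ 16 := by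
    rw [hl, hP2, show 384 + 32 * i = 368 + 32 * i + 16 by ring, pow_add (k : ℝ) (368 + 32 * i) 16]
    field_simp
  have hs1 : Real.sqrt (5 * ((ll k i : ℕ) : ℝ) * (XX k : ℕ) / (PP k (i + 2) : ℕ) *
        ((XX k : ℕ) * M + W)) ≤ 4 * (XX k : ℕ) / (k : ℝ) ^ 7 := by
    rw [hfrac]
    apply Real.sqrt_le_iff.mpr
    refine ⟨by positivity, ?_⟩
    calc 5 * ((XX k : ℕ) : ℝ) / (k : ℝ) ^ 16 * ((XX k : ℕ) * M + W)
        ≤ 5 * ((XX k : ℕ) : ℝ) / (k : ℝ) ^ 16 * (2 * (XX k : ℕ) * k) :=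
          mul_le_mul_of_nonneg_left hXM (by positivity)
      _ = (10 / k) * ((XX k : ℕ) ^ 2 / (k : ℝ) ^ 14) := by field_simp; ring
      _ ≤ 16 * ((XX k : ℕ) ^ 2 / (k : ℝ) ^ 14) := by
          apply mul_le_mul_of_nonneg_right _ (by positivity)
          rw [div_le_iff₀ hk0]; linarith
      _ = (4 * (XX k : ℕ) / (k : ℝ) ^ 7) ^ 2 := by ring
  have ht1 : σ * Real.sqrt (5 * ((ll k i : ℕ) : ℝ) * (XX k : ℕ) / (PP k (i + 2) : ℕ) *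
        ((XX k : ℕ) * M + W)) ≤ 1 / 8 * (4 * (XX k : ℕ) / (k : ℝ) ^ 7) :=
    mul_le_mul hσ hs1 (Real.sqrt_nonneg _) (by norm_num)
  have hVar := varB_le hk hi M σ hM0 hM hM' hσ0 hσ hσ'
  have hs2 : Real.sqrt ((XX k : ℕ) * VarB (PP k 0) (rr k) (XX k) (PP k i) (PP k (i + 1)) (ll k i))
      ≤ 2 * (ll k i : ℕ) * (XX k : ℕ) / (k : ℝ) ^ 7 := by
    apply Real.sqrt_le_iff.mpr
    refine ⟨by positivity, ?_⟩
    calc ((XX k : ℕ) : ℝ) * VarB (PP k 0) (rr k) (XX k) (PP k i) (PP k (i + 1)) (ll k i)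
        ≤ (XX k : ℕ) * (2 * ((ll k i : ℕ) : ℝ) ^ 2 * (XX k : ℕ) / (k : ℝ) ^ 15) :=
          mul_le_mul_of_nonneg_left hVar hX0.le
      _ = (2 / k) * (((ll k i : ℕ) : ℝ) ^ 2 * (XX k : ℕ) ^ 2 / (k : ℝ) ^ 14) := by field_simp
      _ ≤ 4 * (((ll k i : ℕ) : ℝ) ^ 2 * (XX k : ℕ) ^ 2 / (k : ℝ) ^ 14) := by
          apply mul_le_mul_of_nonneg_right _ (by positivity)
          rw [div_le_iff₀ hk0]; linarith
      _ = (2 * (ll k i : ℕ) * (XX k : ℕ) / (k : ℝ) ^ 7) ^ 2 := by ring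
  have ht2 : Real.sqrt ((XX k : ℕ) * VarB (PP k 0) (rr k) (XX k) (PP k i) (PP k (i + 1)) (ll k i)) / (ll k i : ℕ)
      ≤ 2 * (XX k : ℕ) / (k : ℝ) ^ 7 := by
    rw [div_le_iff₀ hl0]
    calc _ ≤ 2 * ((ll k i : ℕ) : ℝ) * (XX k : ℕ) / (k : ℝ) ^ 7 := hs2
      _ = _ := by ring
  have hpos : (0 : ℝ) ≤ (XX k : ℕ) / (k : ℝ) ^ 7 := by positivity
  have : 4 * ((XX k : ℕ) : ℝ) / (k : ℝ) ^ 7 = 4 * ((XX k : ℕ) / (k : ℝ) ^ 7) := by ring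
  rw [this]
  have e1 : 1 / 8 * (4 * ((XX k : ℕ) : ℝ) / (k : ℝ) ^ 7) = 1 / 2 * ((XX k : ℕ) / (k : ℝ) ^ 7) := by ring
  have e2 : 2 * ((XX k : ℕ) : ℝ) / (k : ℝ) ^ 7 = 2 * ((XX k : ℕ) / (k : ℝ) ^ 7) := by ring
  rw [e1] at ht1
  rw [e2] at ht2
  linarith

end Pool.Agent.EPS
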