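import Pool.Agent.EPS.FinalB

/-!
# Top of the descent and the contradiction for explicit parameters (helper79)
-/

set_option autoImplicit false

namespace Pool.Agent.EPS

open Finset Filter

theorem log_pow_ratio {k : ℕ} (hk : 2 ≤ k) (a b : ℕ) (ha : 0 < a) :
    Real.log ((k ^ b : ℕ) : ℝ) / Real.log ((k ^ a : ℕ) : ℝ) = (b : ℝ) / a := by
  have h1 : (1 : ℝ) < k := by exact_mod_cast (by omega : 1 < k)
  have hl : 0 < Real.log k := Real.log_pos h1
  have ha' : (0 : ℝ) < a := by exact_mod_cast ha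
  push_cast
  rw [Real.log_pow, Real.log_pow]
  field_simp

/-- Mertens for powers of `k` -/
theorem sig_pow_le {C : ℝ} (hM : ∀ a b : ℕ, 3 ≤ a → a ≤ b →
    sig a b ≤ Real.log (Real.log b / Real.log a) + C / Real.log a) (hC : 0 < C)
    {k : ℕ} (hk : 1000000 ≤ k) (hg : C / Real.log k ≤ 0.001) {a b : ℕ} (ha : 1 ≤ a) (hab : a ≤ b) :
    sig (k ^ a) (k ^ b) ≤ Real.log ((b : ℝ) / a) + 0.001 := by
  have h3 : 3 ≤ k ^ a := le_trans (by omega : 3 ≤ k) (Nat.le_self_pow (by omega) k)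
  have h1 : (1 : ℝ) < k := by exact_mod_cast (by omega : 1 < k)
  have hl : 0 < Real.log k := Real.log_pos h1
  have ha1 : (1 : ℝ) ≤ a := by exact_mod_cast ha
  have h := hM (k ^ a) (k ^ b) h3 (Nat.pow_le_pow_right (by omega) hab)
  rw [log_pow_ratio (by omega) a b (by omega)] at h
  have h2 : C / Real.log ((k ^ a : ℕ) : ℝ) ≤ C / Real.log k := by
    apply div_le_div_of_nonneg_left hC.le hl
    push_cast
    rw [Real.log_pow]
    nlinarith
  linarith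

theorem log_ratio_small {a b : ℝ} (ha : 0 < a) (hab : a ≤ b) : Real.log (b / a) ≤ (b - a) / a := by
  have h := Real.log_le_sub_one_of_pos (div_pos (lt_of_lt_of_le ha hab) ha)
  have : b / a - 1 = (b - a) / a := by field_simp
  linarith

/-- the top value -/
theorem top_value (hT : Stmt_Top) {C : ℝ} (hM : ∀ a b : ℕ, 3 ≤ a → a ≤ b →
    sig a b ≤ Real.log (Real.log b / Real.log a) + C / Real.log a) (hC : 0 < C)
    {k : ℕ} (hk : 1000000 ≤ k) (hg : C / Real.log k ≤ 0.001)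
    (hpi : ((PrI 0 (k ^ (800 + 80 * k))).card : ℝ) ≤ 0.001 * (k : ℝ) ^ (800 + 80 * k))
    (hV0 : 1 / (k : ℝ) ≤ V0 (PP k 0) (rr k)) :
    0.06 * (XX k : ℕ) * V0 (PP k 0) (rr k) ≤ mass (PP k 0) (rr k) (LL k) (XX k) (PP k k) := by
  have hk1 : 1 ≤ k := by omega
  have h1 : (1 : ℝ) ≤ k := by exact_mod_cast hk1
  have hK : (1000000 : ℝ) ≤ k := by exact_mod_cast hk
  have hk0 : (0 : ℝ) < k := by linarith
  set v := V0 (PP k 0) (rr k) with hv
  have hv0 : 0 < v := lt_of_lt_of_le (by positivity) hV0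
  have hX : ((XX k : ℕ) : ℝ) = (k : ℝ) ^ (1600 + 160 * k) := by unfold XX; push_cast; rfl
  have hX0 : (0 : ℝ) < (XX k : ℕ) := by rw [hX]; positivity
  have h2 : 2 ≤ PP k 0 := le_trans (by omega : 2 ≤ k) (Nat.le_self_pow (by unfold ex; omega) k)
  have hz1 : 1 ≤ PP k k := Nat.one_le_pow _ _ (by omega)
  have hz2 : PP k k ≤ Nat.sqrt (XX k) := by
    rw [sqrt_XX]; exact Nat.pow_le_pow_right hk1 (by unfold ex; omega)
  have hl0 : LL k ≤ XX k := Nat.pow_le_pow_right hk1 (by omega)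
  have h := hT (PP k 0) (rr k) (LL k) (XX k) (PP k k) (rr_even k) h2 hz1 hz2 hl0
  rw [sqrt_XX, ← hv] at h
  have hsig : sig (PP k k) (k ^ (800 + 80 * k)) ≤ 0.931 := by
    have h3 := sig_pow_le hM hC hk hg (a := ex k) (b := 800 + 80 * k) (by unfold ex; omega)
      (by unfold ex; omega)
    have h4 : (((800 + 80 * k : ℕ) : ℝ)) / ((ex k : ℕ) : ℝ) = 5 / 2 := by
      unfold ex
      push_cast
      rw [div_eq_div_iff (by positivity) (by norm_num)]
      ring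
    rw [h4] at h3
    have := log_five_half
    unfold PP
    linarith
  -- l0
  have hL : ((LL k : ℕ) : ℝ) ≤ 0.001 * (XX k : ℕ) := by
    have : (k : ℝ) * (LL k : ℕ) ≤ (XX k : ℕ) := by
      rw [hX]; unfold LL; push_cast; rw [← pow_succ']
      exact pow_le_pow_right₀ h1 (by omega)
    have h0 : (0 : ℝ) ≤ (LL k : ℕ) := by positivity
    nlinarith
  have hpi' : (((k ^ (800 + 80 * k) : ℕ) : ℝ)) * ((PrI 0 (k ^ (800 + 80 * k))).card : ℝ) ≤ 0.001 * (XX k : ℕ) := by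
    have e : ((XX k : ℕ) : ℝ) = (k : ℝ) ^ (800 + 80 * k) * (k : ℝ) ^ (800 + 80 * k) := by
      rw [hX, ← pow_add]; congr 1; ring
    rw [e]
    push_cast
    have h0 : (0 : ℝ) ≤ (k : ℝ) ^ (800 + 80 * k) := by positivity
    have := mul_le_mul_of_nonneg_left hpi h0
    linarith
  have hw2 := w2r_le hk1
  set W : ℝ := ((PP k 0 : ℕ) : ℝ) ^ (2 * rr k) with hW
  have hW0 : 0 ≤ W := by positivity
  have hz : ((PP k k : ℕ) : ℝ) = (k : ℝ) ^ (320 + 32 * k) := by unfold PP ex; push_cast; rfl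
  have hWb : W * (1 + 2 * (XX k : ℕ) / (PP k k : ℕ)) ≤ 0.001 * (XX k : ℕ) * v := by
    have hz0 : (0 : ℝ) < (PP k k : ℕ) := by rw [hz]; positivity
    have a1 : (1 : ℝ) ≤ (XX k : ℕ) / (PP k k : ℕ) := by
      rw [le_div_iff₀ hz0, one_mul, hz, hX]
      exact pow_le_pow_right₀ h1 (by omega)
    have a2 : 1 + 2 * ((XX k : ℕ) : ℝ) / (PP k k : ℕ) ≤ 3 * ((XX k : ℕ) / (PP k k : ℕ)) := by
      have : 2 * ((XX k : ℕ) : ℝ) / (PP k k : ℕ) = 2 * ((XX k : ℕ) / (PP k k : ℕ)) := by ring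
      rw [this]; linarith
    have a3 : W * (k : ℝ) ^ 3 ≤ (PP k k : ℕ) := by
      calc W * (k : ℝ) ^ 3 ≤ (k : ℝ) ^ (13 * k) * (k : ℝ) ^ 3 := mul_le_mul_of_nonneg_right hw2 (by positivity)
        _ = (k : ℝ) ^ (13 * k + 3) := by rw [← pow_add]
        _ ≤ (k : ℝ) ^ (320 + 32 * k) := pow_le_pow_right₀ h1 (by omega)
        _ = (PP k k : ℕ) := hz.symm
    have a4 : W / (PP k k : ℕ) ≤ 1 / (k : ℝ) ^ 3 := by
      rw [div_le_div_iff₀ hz0 (by positivity)]; linarith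
    have a5 : 1 / (k : ℝ) ^ 3 * 3 ≤ 0.001 * v := by
      have b1 : 1 / (k : ℝ) ^ 3 * 3 = (3 / (k : ℝ) ^ 2) * (1 / k) := by field_simp
      have b2 : 3 / (k : ℝ) ^ 2 ≤ 0.001 := by
        rw [div_le_iff₀ (by positivity)]; nlinarith
      rw [b1]
      exact mul_le_mul b2 hV0 (by positivity) (by norm_num)
    calc W * (1 + 2 * (XX k : ℕ) / (PP k k : ℕ)) ≤ W * (3 * ((XX k : ℕ) / (PP k k : ℕ))) :=
          mul_le_mul_of_nonneg_left a2 hW0
      _ = (W / (PP k k : ℕ)) * 3 * (XX k : ℕ) := by ring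
      _ ≤ (1 / (k : ℝ) ^ 3 * 3) * (XX k : ℕ) :=
          mul_le_mul_of_nonneg_right (mul_le_mul_of_nonneg_right a4 (by norm_num)) hX0.le
      _ ≤ (0.001 * v) * (XX k : ℕ) := mul_le_mul_of_nonneg_right a5 hX0.le
      _ = _ := by ring
  have c1 : (XX k : ℕ) * v * 0.069 ≤ (XX k : ℕ) * v * (1 - sig (PP k k) (k ^ (800 + 80 * k))) :=
    mul_le_mul_of_nonneg_left (by linarith) (by positivity)
  have c2 : v * ((LL k : ℕ) + ((k ^ (800 + 80 * k) : ℕ) : ℝ) * ((PrI 0 (k ^ (800 + 80 * k))).card : ℝ))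
      ≤ v * (0.002 * (XX k : ℕ)) := mul_le_mul_of_nonneg_left (by linarith) hv0.le
  have c3 : (0 : ℝ) ≤ (XX k : ℕ) * v := by positivity
  linarith

/-- The contradiction, for one large `k`. -/
theorem contra (hMM : Stmt_MMBound) (hV : Stmt_VNonneg) (hMean : Stmt_Mean) (hSt : Stmt_Step)
    (hT : Stmt_Top) (hB : Stmt_Bottom) (hR : Stmt_Rec) (hV0 : Stmt_V0Bound)
    {C : ℝ} (hM : ∀ a b : ℕ, 3 ≤ a → a ≤ b →
    sig a b ≤ Real.log (Real.log b / Real.log a) + C / Real.log a) (hC : 0 < C)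
    {k : ℕ} (hk : 1000000 ≤ k) (hg : C / Real.log k ≤ 0.001)
    (hS : sig 0 (PP k 0) ≤ 1 / 3 * Real.log k)
    (hpi : ((PrI 0 (k ^ (800 + 80 * k))).card : ℝ) ≤ 0.001 * (k : ℝ) ^ (800 + 80 * k))
    (htail : (k : ℝ) ^ 4 * (1 / 10) ^ (rr k) ≤ 0.001 / (k : ℝ) ^ 5)
    (hrep : ∀ n, LL k ≤ n → n < XX k → ∃ p ∈ PrI 0 (Nat.sqrt (XX k)), n % p ^ 2 < p) : False := by
  have hk1 : 1 ≤ k := by omega
  have h1 : (1 : ℝ) ≤ k := by exact_mod_cast hk1
  have hK : (1000000 : ℝ) ≤ k := by exact_mod_cast hk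
  have hk0 : (0 : ℝ) < k := by linarith
  obtain ⟨hS3, hS2, hS10⟩ := exp_log_bounds hk1 hS
  have h2 : 2 ≤ PP k 0 := le_trans (by omega : 2 ≤ k) (Nat.le_self_pow (by unfold ex; omega) k)
  have hMk : MM (PP k 0) (rr k) ≤ k := le_trans (hMM _ _) hS3
  have hM0 : 0 ≤ MM (PP k 0) (rr k) := by
    unfold MM
    exact Finset.sum_nonneg fun _ _ => Finset.sum_nonneg fun _ _ => Finset.prod_nonneg fun _ _ => by positivity
  have hvk : 1 / (k : ℝ) ≤ V0 (PP k 0) (rr k) := le_trans hS2 (hV0 _ _ (rr_even k))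
  have htop := top_value hT hM hC hk hg hpi hvk
  have hX : ((XX k : ℕ) : ℝ) = (k : ℝ) ^ (1600 + 160 * k) := by unfold XX; push_cast; rfl
  have hX0 : (0 : ℝ) < (XX k : ℕ) := by rw [hX]; positivity
  have hv0 : 0 < V0 (PP k 0) (rr k) := lt_of_lt_of_le (by positivity) hvk
  have hw2 := w2r_le hk1
  have hWX : ((PP k 0 : ℕ) : ℝ) ^ (2 * rr k) ≤ 0.001 * (XX k : ℕ) / (k : ℝ) ^ 5 := by
    rw [le_div_iff₀ (by positivity)]
    calc ((PP k 0 : ℕ) : ℝ) ^ (2 * rr k) * (k : ℝ) ^ 5 ≤ (k : ℝ) ^ (13 * k) * (k : ℝ) ^ 5 :=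
          mul_le_mul_of_nonneg_right hw2 (by positivity)
      _ = (k : ℝ) ^ (13 * k + 5) := by rw [← pow_add]
      _ ≤ 0.001 * ((k : ℝ) * (k : ℝ) ^ (13 * k + 5)) := by
          have : (0 : ℝ) < (k : ℝ) ^ (13 * k + 5) := by positivity
          nlinarith
      _ = 0.001 * (k : ℝ) ^ (13 * k + 6) := by rw [← pow_succ']
      _ ≤ 0.001 * (XX k : ℕ) := by
          rw [hX]
          exact mul_le_mul_of_nonneg_left (pow_le_pow_right₀ h1 (by omega)) (by norm_num)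
  -- the recursion
  set a : ℕ → ℝ := fun i => mass (PP k 0) (rr k) (LL k) (XX k) (PP k i) with ha
  set σ : ℕ → ℝ := fun i => sig (PP k i) (PP k (i + 1)) with hσ
  have hσb : ∀ i, σ i ≤ 1 / (10 + (i : ℝ)) + 0.001 := by
    intro i
    have h3 := sig_pow_le hM hC hk hg (a := ex i) (b := ex (i + 1)) (by unfold ex; omega)
      (by unfold ex; omega)
    have h4 : (0 : ℝ) < (ex i : ℕ) := by unfold ex; positivity
    have h5 := log_ratio_small (a := ((ex i : ℕ) : ℝ)) (b := ((ex (i + 1) : ℕ) : ℝ)) h4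
      (by unfold ex; push_cast; linarith)
    have h6 : (((ex (i + 1) : ℕ) : ℝ) - (ex i : ℕ)) / (ex i : ℕ) = 1 / (10 + (i : ℝ)) := by
      unfold ex; push_cast; field_simp; ring
    rw [h6] at h5
    simp only [hσ]
    unfold PP
    linarith
  have hE0 : (0 : ℝ) ≤ 4 * (XX k : ℕ) / (k : ℝ) ^ 7 := by positivity
  have hσ8 : ∀ i < k, σ i ≤ 1 / 8 := by
    intro i _
    have h3 := hσb i
    have h4 : 1 / (10 + (i : ℝ)) ≤ 1 / 10 := by
      apply one_div_le_one_div_of_le (by norm_num); have : (0:ℝ) ≤ i := by positivity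
      linarith
    linarith
  have hσ50 : σ (k - 1) ≤ 1 / 50 := by
    have h3 := hσb (k - 1)
    have h4 : 1 / (10 + ((k - 1 : ℕ) : ℝ)) ≤ 1 / 100 := by
      apply one_div_le_one_div_of_le (by norm_num)
      rw [Nat.cast_sub hk1]; push_cast; linarith
    linarith
  have hstep : ∀ i < k, a (i + 1) - σ i * a (i + 2) - 4 * (XX k : ℕ) / (k : ℝ) ^ 7 ≤ a i := by
    intro i hi
    have hsi := hSt (PP k 0) (rr k) (LL k) (XX k) (PP k i) (PP k (i + 1)) (PP k (i + 2)) (ll k i)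
      (rr_even k) h2 (PP_mono hk1 (Nat.zero_le i)) (PP_mono hk1 (Nat.le_succ i))
      (PP_mono hk1 (Nat.le_succ (i + 1))) (Nat.one_le_pow _ _ (by omega))
      (Nat.pow_le_pow_right hk1 (by omega)) (by
        calc 2 * PP k (i + 2) ≤ k * PP k (i + 2) := Nat.mul_le_mul_right _ (by omega)
          _ = k ^ (ex (i + 2) + 1) := by unfold PP; rw [pow_succ']
          _ ≤ XX k := Nat.pow_le_pow_right hk1 (by unfold ex; omega))
    have herr := step_error hk hi (MM (PP k 0) (rr k)) (σ i) rfl hMk hM0 rfl (hσ8 i hi) (sig_nonneg _ _)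
    simp only [ha, hσ] at *
    linarith
  have hKtop : a (k + 1) ≤ 21 * a k := by
    have h3 := mass_le hV hMean (rr_even k) h2 (LL k) (XX k) (PP k (k + 1))
    have h4 : 0.001 * ((XX k : ℕ) : ℝ) / (k : ℝ) ^ 5 ≤ 0.001 * (XX k : ℕ) * V0 (PP k 0) (rr k) := by
      have : 1 / (k : ℝ) ^ 5 ≤ 1 / k := by
        apply one_div_le_one_div_of_le hk0
        exact le_self_pow₀ h1 (by norm_num)
      calc 0.001 * ((XX k : ℕ) : ℝ) / (k : ℝ) ^ 5 = 0.001 * (XX k : ℕ) * (1 / (k : ℝ) ^ 5) := by ring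
        _ ≤ 0.001 * (XX k : ℕ) * V0 (PP k 0) (rr k) :=
            mul_le_mul_of_nonneg_left (le_trans this hvk) (by positivity)
    simp only [ha]
    have h5 : (0 : ℝ) < (XX k : ℕ) * V0 (PP k 0) (rr k) := by positivity
    linarith
  have hrec := hR a σ k (4 * (XX k : ℕ) / (k : ℝ) ^ 7) hk1 hE0 (fun i => mass_nonneg hV (rr_even k) _ _ _)
    (fun i => sig_nonneg _ _) hstep hσ8 hσ50 hKtop
  have hsum : ∑ i ∈ range k, σ i = sig (PP k 0) (PP k k) := sig_sum (PP k) (PP_mono hk1) k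
  have hsig : sig (PP k 0) (PP k k) ≤ Real.log k := by
    have h3 := sig_pow_le hM hC hk hg (a := ex 0) (b := ex k) (by unfold ex; omega)
      (by unfold ex; omega)
    have h4 : ((ex k : ℕ) : ℝ) / (ex 0 : ℕ) ≤ k / 2 := by
      unfold ex; push_cast
      rw [div_le_div_iff₀ (by norm_num) (by norm_num)]
      linarith
    have h5 : Real.log (((ex k : ℕ) : ℝ) / (ex 0 : ℕ)) ≤ Real.log k - Real.log 2 := by
      rw [← Real.log_div hk0.ne' (by norm_num)]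
      apply Real.log_le_log _ h4
      unfold ex; positivity
    have h6 := Real.log_two_gt_d9
    unfold PP
    linarith
  have hexp : 1 / (k : ℝ) ^ 4 ≤ Real.exp (-4 * ∑ i ∈ range k, σ i) := by
    rw [hsum]
    have : 1 / (k : ℝ) ^ 4 = Real.exp (-4 * Real.log k) := by
      rw [show (-4 : ℝ) * Real.log k = -(((4 : ℕ) : ℝ) * Real.log k) by push_cast; ring, Real.exp_neg,
        Real.exp_nat_mul, Real.exp_log hk0, one_div]
    rw [this]
    exact Real.exp_le_exp.mpr (by linarith)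
  have hak : 0.06 * (XX k : ℕ) / (k : ℝ) ≤ a k := by
    calc 0.06 * ((XX k : ℕ) : ℝ) / (k : ℝ) = 0.06 * (XX k : ℕ) * (1 / k) := by ring
      _ ≤ 0.06 * (XX k : ℕ) * V0 (PP k 0) (rr k) := mul_le_mul_of_nonneg_left hvk (by positivity)
      _ ≤ a k := htop
  have hmain : 0.03 * (XX k : ℕ) / (k : ℝ) ^ 5 ≤ 1 / 2 * Real.exp (-4 * ∑ i ∈ range k, σ i) * a k := by
    calc 0.03 * ((XX k : ℕ) : ℝ) / (k : ℝ) ^ 5 = 1 / 2 * (1 / (k : ℝ) ^ 4) * (0.06 * (XX k : ℕ) / (k : ℝ)) := by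
          field_simp; norm_num
      _ ≤ _ := by
          apply mul_le_mul _ hak (by positivity) (by positivity)
          exact mul_le_mul_of_nonneg_left hexp (by norm_num)
  have herrsum : 2 * (k : ℝ) * (4 * (XX k : ℕ) / (k : ℝ) ^ 7) ≤ 0.001 * (XX k : ℕ) / (k : ℝ) ^ 5 := by
    have e : 2 * (k : ℝ) * (4 * (XX k : ℕ) / (k : ℝ) ^ 7) = (8 / k) * ((XX k : ℕ) / (k : ℝ) ^ 5) := by
      field_simp; norm_num
    have e2 : 0.001 * ((XX k : ℕ) : ℝ) / (k : ℝ) ^ 5 = 0.001 * ((XX k : ℕ) / (k : ℝ) ^ 5) := by ring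
    rw [e, e2]
    apply mul_le_mul_of_nonneg_right _ (by positivity)
    rw [div_le_iff₀ hk0]
    linarith
  -- the bottom
  have hbot := hB (PP k 0) (rr k) (LL k) (XX k) (rr_even k) h2 hrep
  have htl : (XX k : ℕ) * (sig 0 (PP k 0)) ^ (rr k) / (Nat.factorial (rr k) : ℝ) ≤ 0.001 * (XX k : ℕ) / (k : ℝ) ^ 5 := by
    have h3 := tail_bound (sig 0 (PP k 0)) (sig_nonneg _ _) (rr k)
    have h4 : Real.exp (10 * sig 0 (PP k 0)) * (1 / 10) ^ (rr k) ≤ 0.001 / (k : ℝ) ^ 5 :=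
      le_trans (mul_le_mul_of_nonneg_right hS10 (by positivity)) htail
    calc (XX k : ℕ) * (sig 0 (PP k 0)) ^ (rr k) / (Nat.factorial (rr k) : ℝ)
        = (XX k : ℕ) * ((sig 0 (PP k 0)) ^ (rr k) / (Nat.factorial (rr k) : ℝ)) := by ring
      _ ≤ (XX k : ℕ) * (0.001 / (k : ℝ) ^ 5) := mul_le_mul_of_nonneg_left (le_trans h3 h4) hX0.le
      _ = _ := by ring
  have h00 : a 0 = mass (PP k 0) (rr k) (LL k) (XX k) (PP k 0) := rfl
  rw [← h00] at hbot
  have hpos : (0 : ℝ) < (XX k : ℕ) / (k : ℝ) ^ 5 := by positivity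
  have e1 : 0.03 * ((XX k : ℕ) : ℝ) / (k : ℝ) ^ 5 = 0.03 * ((XX k : ℕ) / (k : ℝ) ^ 5) := by ring
  have e2 : 0.001 * ((XX k : ℕ) : ℝ) / (k : ℝ) ^ 5 = 0.001 * ((XX k : ℕ) / (k : ℝ) ^ 5) := by ring
  rw [e1] at hmain
  rw [e2] at herrsum htl hWX
  linarith

end Pool.Agent.EPS
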