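import Pool.Agent.EPS.Stmts
import Pool.Agent.EZ.Mertens

/-!
# Upper bound of Mertens' second theorem (helper78)
-/

set_option autoImplicit false

namespace Pool.Agent.EPS.MertensAux

open Finset ArithmeticFunction
open scoped Nat

/-- `A N ≤ log N + 6` -/
theorem A_upper (N : ℕ) (hN : 1 ≤ N) : EZ.A N ≤ Real.log N + 6 := by
  have hNR : (1 : ℝ) ≤ N := by exact_mod_cast hN
  have h1 := EZ.logFac_eq N
  have h2 : EZ.logFac N ≤ N * Real.log N := by
    unfold EZ.logFac
    have : ((N ! : ℕ) : ℝ) ≤ (N : ℝ) ^ N := by exact_mod_cast Nat.factorial_le_pow N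
    calc Real.log (N ! : ℝ) ≤ Real.log ((N : ℝ) ^ N) :=
          Real.log_le_log (by exact_mod_cast Nat.factorial_pos N) this
      _ = N * Real.log N := by rw [Real.log_pow]
  have h3 : ∑ n ∈ Icc 1 N, vonMangoldt n ≤ 6 * N := by
    have a := Chebyshev.psi_le_const_mul_self (x := (N : ℝ)) (by positivity)
    have b : Chebyshev.psi (N : ℝ) = ∑ n ∈ Icc 1 N, vonMangoldt n := by
      unfold Chebyshev.psi
      rw [Nat.floor_natCast]
      refine sum_congr ?_ fun _ _ => rfl
      ext n; simp only [mem_Ioc, mem_Icc]; omega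
    rw [b] at a
    have c : Real.log 4 ≤ 2 := by
      have : Real.log 4 = 2 * Real.log 2 := by
        rw [show (4 : ℝ) = 2 ^ 2 by norm_num, Real.log_pow]; norm_num
      rw [this]; linarith [Real.log_two_lt_d9]
    nlinarith
  have h4 : (N : ℝ) * EZ.A N ≤ EZ.logFac N + ∑ n ∈ Icc 1 N, vonMangoldt n := by
    rw [h1, ← sum_add_distrib]
    unfold EZ.A
    rw [mul_sum]
    refine sum_le_sum fun n hn => ?_
    rw [mem_Icc] at hn
    have hn0 : (0 : ℝ) < n := by exact_mod_cast hn.1
    have e : (N : ℝ) / n ≤ ((N / n : ℕ) : ℝ) + 1 := by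
      rw [div_le_iff₀ hn0]
      have := Nat.lt_div_mul_add (a := N) hn.1
      have h' : N < (N / n + 1) * n := by nlinarith
      exact_mod_cast h'.le
    have hL : (0 : ℝ) ≤ vonMangoldt n := vonMangoldt_nonneg
    calc (N : ℝ) * (vonMangoldt n / n) = vonMangoldt n * ((N : ℝ) / n) := by ring
      _ ≤ vonMangoldt n * (((N / n : ℕ) : ℝ) + 1) := mul_le_mul_of_nonneg_left e hL
      _ = _ := by ring
  have h5 : (N : ℝ) * EZ.A N ≤ N * (Real.log N + 6) := by linarith
  exact le_of_mul_le_mul_left h5 (by linarith)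

/-- `log N - 1 ≤ A N` -/
theorem A_lower (N : ℕ) (hN : 1 ≤ N) : Real.log N - 1 ≤ EZ.A N := by
  have hNR : (1 : ℝ) ≤ N := by exact_mod_cast hN
  have h1 := EZ.logFac_eq N
  have h2 : N * Real.log N - N ≤ EZ.logFac N := by
    unfold EZ.logFac
    have a : (N : ℝ) ^ N / (N ! : ℝ) ≤ Real.exp N := Real.pow_div_factorial_le_exp _ (by positivity) N
    have hf : (0 : ℝ) < (N ! : ℝ) := by exact_mod_cast Nat.factorial_pos N
    have b : Real.log ((N : ℝ) ^ N / (N ! : ℝ)) ≤ N := by
      have := Real.log_le_log (by positivity) a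
      rwa [Real.log_exp] at this
    rw [Real.log_div (by positivity) hf.ne', Real.log_pow] at b
    linarith
  have h4 : EZ.logFac N ≤ (N : ℝ) * EZ.A N := by
    rw [h1]
    unfold EZ.A
    rw [mul_sum]
    refine sum_le_sum fun n hn => ?_
    rw [mem_Icc] at hn
    have hn0 : (0 : ℝ) < n := by exact_mod_cast hn.1
    have e : ((N / n : ℕ) : ℝ) ≤ (N : ℝ) / n := Nat.cast_div_le
    have hL : (0 : ℝ) ≤ vonMangoldt n := vonMangoldt_nonneg
    calc vonMangoldt n * ((N / n : ℕ) : ℝ) ≤ vonMangoldt n * ((N : ℝ) / n) :=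
          mul_le_mul_of_nonneg_left e hL
      _ = _ := by ring
  have h5 : (N : ℝ) * (Real.log N - 1) ≤ N * EZ.A N := by linarith
  exact le_of_mul_le_mul_left h5 (by linarith)

/-- the prime part between `a` and `b` -/
noncomputable def S (a b : ℕ) : ℝ := ∑ p ∈ PrI a b, Real.log p / p

theorem S_le (a b : ℕ) (ha : 1 ≤ a) (hab : a ≤ b) : S a b ≤ Real.log b - Real.log a + 7 := by
  have h1 : S a b ≤ EZ.A b - EZ.A a := by
    unfold S EZ.A
    have hs : Icc 1 b = Icc 1 a ∪ Ioc a b := by
      ext n; simp only [mem_Icc, mem_union, mem_Ioc]; omega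
    have hd : Disjoint (Icc 1 a) (Ioc a b) := by
      rw [disjoint_left]; intro n; simp only [mem_Icc, mem_Ioc]; omega
    rw [hs, sum_union hd, add_sub_cancel_left]
    unfold PrI
    rw [sum_filter]
    refine sum_le_sum fun n _ => ?_
    split_ifs with h
    · rw [vonMangoldt_apply_prime h]
    · exact div_nonneg vonMangoldt_nonneg (Nat.cast_nonneg _)
  have h2 := A_upper b (le_trans ha hab)
  have h3 := A_lower a ha
  linarith

theorem S_succ (a b : ℕ) (hab : a ≤ b) : S a (b + 1) = S a b + (if (b + 1).Prime then Real.log ((b + 1 : ℕ) : ℝ) / ((b + 1 : ℕ) : ℝ) else 0) := by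
  have hI : Ioc a (b + 1) = insert (b + 1) (Ioc a b) := by
    ext t; simp only [mem_Ioc, mem_insert]; omega
  unfold S PrI
  rw [hI, filter_insert]
  split_ifs with h
  · rw [sum_insert (by simp)]; ring
  · ring

theorem sig_succ (a b : ℕ) (hab : a ≤ b) : sig a (b + 1) = sig a b + (if (b + 1).Prime then (1 : ℝ) / ((b + 1 : ℕ) : ℝ) else 0) := by
  have hI : Ioc a (b + 1) = insert (b + 1) (Ioc a b) := by
    ext t; simp only [mem_Ioc, mem_insert]; omega
  unfold sig PrI
  rw [hI, filter_insert]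
  split_ifs with h
  · rw [sum_insert (by simp)]; ring
  · ring

theorem PrI_self (a : ℕ) : PrI a a = ∅ := by simp [PrI]

/-- one step of the main term -/
theorem main_step (b : ℕ) (hb : 3 ≤ b) :
    (Real.log ((b + 1 : ℕ) : ℝ) - Real.log b) / Real.log ((b + 1 : ℕ) : ℝ)
      ≤ Real.log (Real.log ((b + 1 : ℕ) : ℝ)) - Real.log (Real.log b) := by
  have hb1 : (1 : ℝ) < b := by exact_mod_cast (by omega : 1 < b)
  have hL : 0 < Real.log b := Real.log_pos hb1
  have hL' : 0 < Real.log ((b + 1 : ℕ) : ℝ) := Real.log_pos (by push_cast; linarith)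
  rw [← Real.log_div hL'.ne' hL.ne']
  have h := Real.one_sub_inv_le_log_of_pos (x := Real.log ((b + 1 : ℕ) : ℝ) / Real.log b) (by positivity)
  refine le_trans (le_of_eq ?_) h
  rw [inv_div, sub_div, div_self hL'.ne']

/-- Abel summation, by induction -/
theorem abel (a : ℕ) (ha : 3 ≤ a) : ∀ b : ℕ, a ≤ b →
    sig a b ≤ (S a b - (Real.log b - Real.log a)) / Real.log b
      + 7 * (1 / Real.log a - 1 / Real.log b) + (Real.log (Real.log b) - Real.log (Real.log a)) := by
  intro b hb
  induction b, hb using Nat.le_induction with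
  | base =>
    have : sig a a = 0 := by unfold sig; rw [PrI_self]; simp
    have h2 : S a a = 0 := by unfold S; rw [PrI_self]; simp
    rw [this, h2]; simp
  | succ b hb ih =>
    have hb1 : (1 : ℝ) < b := by exact_mod_cast (by omega : 1 < b)
    have hL : 0 < Real.log b := Real.log_pos hb1
    have hL' : 0 < Real.log ((b + 1 : ℕ) : ℝ) := Real.log_pos (by push_cast; linarith)
    have hLL : Real.log b ≤ Real.log ((b + 1 : ℕ) : ℝ) :=
      Real.log_le_log (by linarith) (by push_cast; linarith)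
    have hD := S_le a b (by omega) hb
    have hm := main_step b (by omega)
    rw [sig_succ a b hb, S_succ a b hb]
    have hinv : 1 / Real.log ((b + 1 : ℕ) : ℝ) ≤ 1 / Real.log b := one_div_le_one_div_of_le hL hLL
    -- the new prime
    have hp : (if (b + 1).Prime then (1 : ℝ) / ((b + 1 : ℕ) : ℝ) else 0)
        = (if (b + 1).Prime then Real.log ((b + 1 : ℕ) : ℝ) / ((b + 1 : ℕ) : ℝ) else 0) / Real.log ((b + 1 : ℕ) : ℝ) := by
      split_ifs
      · field_simp
      · simp
    rw [hp]
    set c := (if (b + 1).Prime then Real.log ((b + 1 : ℕ) : ℝ) / ((b + 1 : ℕ) : ℝ) else 0) with hc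
    set L' := Real.log ((b + 1 : ℕ) : ℝ) with hL'd
    set L := Real.log (b : ℝ) with hLd
    set L0 := Real.log (a : ℝ) with hL0d
    set D := S a b - (L - L0) with hDd
    have hD7 : D ≤ 7 := by rw [hDd]; linarith
    have key : D / L ≤ D / L' + 7 * (1 / L - 1 / L') := by
      have : D * (1 / L - 1 / L') ≤ 7 * (1 / L - 1 / L') :=
        mul_le_mul_of_nonneg_right hD7 (by linarith)
      have e1 : D / L = D * (1 / L) := by ring
      have e2 : D / L' = D * (1 / L') := by ring
      rw [e1, e2]; linarith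
    have e3 : (S a b + c - (L' - L0)) / L' = D / L' + c / L' - (L' - L) / L' := by
      rw [hDd]; ring
    rw [e3]
    linarith

theorem _root_.Pool.Agent.EPS.Mertens_proof : Stmt_Mertens := by
  refine ⟨7, by norm_num, ?_⟩
  intro a b ha hab
  have h := abel a ha b hab
  have hS := S_le a b (by omega) hab
  have ha1 : (1 : ℝ) < a := by exact_mod_cast (by omega : 1 < a)
  have hb1 : (1 : ℝ) < b := by exact_mod_cast (by omega : 1 < b)
  have hLa : 0 < Real.log a := Real.log_pos ha1
  have hLb : 0 < Real.log b := Real.log_pos hb1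
  rw [Real.log_div hLb.ne' hLa.ne']
  have h1 : (S a b - (Real.log b - Real.log a)) / Real.log b ≤ 7 / Real.log b :=
    div_le_div_of_nonneg_right (by linarith) hLb.le
  have e : 7 * (1 / Real.log a - 1 / Real.log b) = 7 / Real.log a - 7 / Real.log b := by ring
  rw [e] at h
  linarith

end Pool.Agent.EPS.MertensAux
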