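import Pool.Agent.EPS.Defs

/-!
# Interface statements (helper79).  Each is proved in `Pool/Agent/EPS/<Name>.lean`
as `theorem <Name>_proof : Stmt_<Name>`.
-/

set_option autoImplicit false

namespace Pool.Agent.EPS

open Finset

/-! ### Periodic functions -/

/-- Interval sums of a nonnegative periodic function. -/
def Stmt_PFCount : Prop :=
  ∀ (q : ℕ) (s : ℝ) (f : ℕ → ℝ), PF q s f → ∀ a b : ℕ, a ≤ b →
    |∑ n ∈ Ico a b, f n - ((b : ℝ) - a) * s / q| ≤ s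

/-- Shifts of periodic functions. -/
def Stmt_PFShift : Prop :=
  ∀ (q : ℕ) (s : ℝ) (f : ℕ → ℝ) (h : ℕ), PF q s f → PF q s (fun n => f (n + h))

/-- Chinese remainder theorem for products. -/
def Stmt_PFMul : Prop :=
  ∀ (q1 q2 : ℕ) (s1 s2 : ℝ) (f1 f2 : ℕ → ℝ), Nat.Coprime q1 q2 → PF q1 s1 f1 → PF q2 s2 f2 →
    PF (q1 * q2) (s1 * s2) (fun n => f1 n * f2 n)

/-- One prime. -/
def Stmt_PFInd : Prop :=
  ∀ p : ℕ, p.Prime → PF (p ^ 2) p (ind p)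

/-- A finite set of primes. -/
def Stmt_PFIndD : Prop :=
  ∀ D : Finset ℕ, (∀ p ∈ D, p.Prime) → PF ((∏ p ∈ D, p) ^ 2) (∏ p ∈ D, (p : ℝ)) (indD D)

/-- Two finite sets of primes, two shifts. -/
def Stmt_PFTwo : Prop :=
  ∀ (D D' : Finset ℕ) (h h' : ℕ), (∀ p ∈ D, p.Prime) → (∀ p ∈ D', p.Prime) →
    ∃ s : ℝ, s ≤ ∏ p ∈ D ∪ D', (p : ℝ) ∧
      PF ((∏ p ∈ D ∪ D', p) ^ 2) s (fun m => indD D (m + h) * indD D' (m + h'))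

/-! ### Bonferroni inequalities and elementary symmetric functions -/

/-- Bonferroni, even order. -/
def Stmt_Bonf : Prop :=
  ∀ (S : Finset ℕ) (r : ℕ) (x : ℕ → ℝ), (∀ i ∈ S, 0 ≤ x i ∧ x i ≤ 1) → Even r →
    ∏ i ∈ S, (1 - x i) ≤ TIE S r x ∧
      TIE S r x ≤ ∏ i ∈ S, (1 - x i) + ∑ D ∈ S.powersetCard r, ∏ i ∈ D, x i

/-- `∑_{|D| ≤ r} ∏ x ≤ (1 + ∑ x)^r` and `e_r ≤ (∑ x)^r / r!`. -/
def Stmt_Esym : Prop :=
  ∀ (S : Finset ℕ) (r : ℕ) (x : ℕ → ℝ), (∀ i ∈ S, 0 ≤ x i) →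
    ∑ D ∈ Sub S r, ∏ i ∈ D, x i ≤ (1 + ∑ i ∈ S, x i) ^ r ∧
      ∑ D ∈ S.powersetCard r, ∏ i ∈ D, x i ≤ (∑ i ∈ S, x i) ^ r / (Nat.factorial r : ℝ)

/-- The sum of the products of the primes. -/
def Stmt_PrimeSum : Prop :=
  ∀ w r : ℕ, 2 ≤ w → ∑ D ∈ Lam w r, ∏ p ∈ D, (p : ℝ) ≤ (w : ℝ) ^ (2 * r) ∧
    ∑ D ∈ Lam w r, ∑ D' ∈ Lam w r, ∏ p ∈ D ∪ D', (p : ℝ) ≤ (w : ℝ) ^ (4 * r)

/-- `MM w r ≤ ∏_{p ≤ w} (1 + 3/p) ≤ exp (3 ∑ 1/p)`. -/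
def Stmt_MMBound : Prop :=
  ∀ w r : ℕ, MM w r ≤ Real.exp (3 * sig 0 w)

/-- `exp (-2 ∑ 1/p) ≤ ∏ (1 - 1/p) ≤ V0` -/
def Stmt_V0Bound : Prop :=
  ∀ w r : ℕ, Even r → Real.exp (-2 * sig 0 w) ≤ V0 w r

/-! ### Moments of the weight -/

/-- nonnegativity of the weight -/
def Stmt_VNonneg : Prop :=
  ∀ w r n : ℕ, Even r → 0 ≤ V w r n

/-- mean of `V` in an interval -/
def Stmt_Mean : Prop :=
  ∀ w r a b : ℕ, 2 ≤ w → a ≤ b →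
    |∑ n ∈ Ico a b, V w r n - ((b : ℝ) - a) * V0 w r| ≤ (w : ℝ) ^ (2 * r)

/-- second moment of `V`, plain and together with a hit of a larger prime -/
def Stmt_Sq : Prop :=
  ∀ w r X h : ℕ, 2 ≤ w →
    ∑ m ∈ range X, V w r (m + h) ^ 2 ≤ X * MM w r + (w : ℝ) ^ (4 * r) ∧
    ∀ p : ℕ, p.Prime → w < p →
      ∑ m ∈ range X, V w r (m + h) ^ 2 * ind p (m + h) ≤ X * MM w r / p + p * (w : ℝ) ^ (4 * r)

/-- off-diagonal correlations -/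
def Stmt_Off : Prop :=
  ∀ (w r X h h' p p' : ℕ) (D D' : Finset ℕ), D ∈ Lam w r → D' ∈ Lam w r →
    p.Prime → p'.Prime → w < p → w < p' → p ≠ p' →
    |∑ m ∈ range X, indD D (m + h) * indD D' (m + h') *
        ((ind p (m + h) - 1 / p) * (ind p' (m + h') - 1 / p'))|
      ≤ 4 * p * p' * ∏ q ∈ D ∪ D', (q : ℝ)

/-- the second moment of `∑_{h < l} V (m + h) G (m + h)` -/
def Stmt_Var : Prop :=
  ∀ w r X P P' l : ℕ, 2 ≤ w → w ≤ P → P ≤ P' → 1 ≤ l →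
    ∑ m ∈ range X, (∑ h ∈ range l, V w r (m + h) * G P P' (m + h)) ^ 2 ≤ VarB w r X P P' l

/-! ### The set `F` -/

open Classical in
/-- `F` is locally constant away from few points -/
def Stmt_Change : Prop :=
  ∀ l0 X y l : ℕ, 1 ≤ y → 2 * y ≤ X →
    (((range X).filter (fun m => ∃ h < l, F l0 X y (m + h) ≠ F l0 X y m)).card : ℝ)
      ≤ 5 * l * X / y

/-- one step of the descent -/
def Stmt_Step : Prop :=
  ∀ w r l0 X P P' P'' l : ℕ, Even r → 2 ≤ w → w ≤ P → P ≤ P' → P' ≤ P'' → 1 ≤ l → l ≤ l0 →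
    2 * P'' ≤ X →
    mass w r l0 X P' - sig P P' * mass w r l0 X P''
      - sig P P' * Real.sqrt (5 * l * X / P'' * (X * MM w r + (w : ℝ) ^ (4 * r)))
      - Real.sqrt (X * VarB w r X P P' l) / l ≤ mass w r l0 X P

/-- the top range, by the union bound -/
def Stmt_Top : Prop :=
  ∀ w r l0 X z : ℕ, Even r → 2 ≤ w → 1 ≤ z → z ≤ Nat.sqrt X → l0 ≤ X →
    X * V0 w r * (1 - sig z (Nat.sqrt X))
      - V0 w r * (l0 + Nat.sqrt X * ((PrI 0 (Nat.sqrt X)).card : ℝ))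
      - (w : ℝ) ^ (2 * r) * (1 + 2 * X / z) ≤ mass w r l0 X z

/-- the bottom -/
def Stmt_Bottom : Prop :=
  ∀ w r l0 X : ℕ, Even r → 2 ≤ w →
    (∀ n, l0 ≤ n → n < X → ∃ p ∈ PrI 0 (Nat.sqrt X), n % p ^ 2 < p) →
    mass w r l0 X w ≤ X * (sig 0 w) ^ r / (Nat.factorial r : ℝ) + (w : ℝ) ^ (2 * r)

/-- the recursion -/
def Stmt_Rec : Prop :=
  ∀ (a σ : ℕ → ℝ) (K : ℕ) (E : ℝ), 1 ≤ K → 0 ≤ E → (∀ i, 0 ≤ a i) → (∀ i, 0 ≤ σ i) →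
    (∀ i < K, a (i + 1) - σ i * a (i + 2) - E ≤ a i) → (∀ i < K, σ i ≤ 1 / 8) →
    σ (K - 1) ≤ 1 / 50 → a (K + 1) ≤ 21 * a K →
    1 / 2 * Real.exp (-4 * ∑ i ∈ range K, σ i) * a K - 2 * K * E ≤ a 0

/-! ### Prime sums -/

/-- upper bound of Mertens' second theorem on intervals -/
def Stmt_Mertens : Prop :=
  ∃ C : ℝ, 0 < C ∧ ∀ a b : ℕ, 3 ≤ a → a ≤ b →
    sig a b ≤ Real.log (Real.log b / Real.log a) + C / Real.log a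

end Pool.Agent.EPS
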